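import Pool.Agent.R88.RR.Defs

set_option autoImplicit false

namespace Pool.Agent.R88.RR

open Finset
open scoped Classical Nat

noncomputable section

variable {V : Type} [Fintype V]

theorem mem_EE (e : Sym2 V) : e ∈ EE V ↔ ¬ e.IsDiag := by simp [EE]

theorem mem_inn (r : Setoid V) (u v : V) : s(u, v) ∈ inn r ↔ u ≠ v ∧ r u v := by
  unfold inn
  rw [mem_filter, mem_EE]
  constructor
  · rintro ⟨h1, h2⟩
    exact ⟨by simpa using h1, h2 u (by simp) v (by simp)⟩
  · rintro ⟨h1, h2⟩
    refine ⟨by simpa using h1, ?_⟩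
    intro a ha b hb
    rw [Sym2.mem_iff] at ha hb
    rcases ha with rfl | rfl <;> rcases hb with rfl | rfl
    · exact r.refl' _
    · exact h2
    · exact r.symm' h2
    · exact r.refl' _

theorem inn_subset (r : Setoid V) : inn r ⊆ EE V := filter_subset _ _

theorem inn_bot : inn (⊥ : Setoid V) = ∅ := by
  ext e
  induction e using Sym2.ind with
  | _ u v =>
    rw [mem_inn]
    simp only [notMem_empty, iff_false, not_and]
    intro h h2
    exact h h2

theorem inn_top : inn (⊤ : Setoid V) = EE V := by
  ext e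
  induction e using Sym2.ind with
  | _ u v =>
    rw [mem_inn, mem_EE]
    constructor
    · rintro ⟨h, -⟩; simpa using h
    · intro h; exact ⟨by simpa using h, trivial⟩

theorem inn_mono {r s : Setoid V} (h : r ≤ s) : inn r ⊆ inn s := by
  intro e
  induction e using Sym2.ind with
  | _ u v =>
    rw [mem_inn, mem_inn]
    rintro ⟨h1, h2⟩
    exact ⟨h1, h h2⟩

theorem inn_injective : Function.Injective (inn : Setoid V → Finset (Sym2 V)) := by
  intro r s h
  ext u v
  by_cases huv : u = v
  · subst huv
    exact ⟨fun _ => s.refl' _, fun _ => r.refl' _⟩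
  · have := (mem_inn r u v)
    have h2 := (mem_inn s u v)
    rw [h] at this
    constructor
    · intro h3
      exact (h2.1 (this.2 ⟨huv, h3⟩)).2
    · intro h3
      exact (this.1 (h2.2 ⟨huv, h3⟩)).2

theorem comp_le_iff (F : Finset (Sym2 V)) (hF : F ⊆ EE V) (r : Setoid V) :
    comp F ≤ r ↔ F ⊆ inn r := by
  constructor
  · intro h e
    induction e using Sym2.ind with
    | _ u v =>
      intro he
      have h1 : ¬ (s(u, v) : Sym2 V).IsDiag := (mem_EE _).1 (hF he)
      have huv : u ≠ v := by simpa using h1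
      rw [mem_inn]
      refine ⟨huv, h ?_⟩
      have hadj : (SimpleGraph.fromEdgeSet (F : Set (Sym2 V))).Adj u v := by
        rw [SimpleGraph.fromEdgeSet_adj]
        exact ⟨by simpa using he, huv⟩
      exact hadj.reachable
  · intro h x y hxy
    obtain ⟨p⟩ := (show (SimpleGraph.fromEdgeSet (F : Set (Sym2 V))).Reachable x y from hxy)
    clear hxy
    induction p with
    | nil => exact r.refl' _
    | cons hadj _ ih =>
      rw [SimpleGraph.fromEdgeSet_adj] at hadj
      have h1 := h (by simpa using hadj.1)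
      rw [mem_inn] at h1
      exact r.trans' h1.2 ih

theorem connected_iff [Nonempty V] (F : Finset (Sym2 V)) :
    (SimpleGraph.fromEdgeSet (F : Set (Sym2 V))).Connected ↔ comp F = ⊤ := by
  rw [SimpleGraph.connected_iff]
  constructor
  · rintro ⟨h, -⟩
    rw [Setoid.eq_top_iff]
    intro x y
    exact h x y
  · intro h
    refine ⟨?_, inferInstance⟩
    intro x y
    rw [Setoid.eq_top_iff] at h
    exact h x y

theorem filter_bot_le : (univ.filter (fun r : Setoid V => (⊥ : Setoid V) ≤ r)) = univ := by
  ext r; simp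

theorem card_sdiff_inn (A : Finset (Sym2 V)) (r : Setoid V) :
    (A \ inn r).card = A.card - (A ∩ inn r).card := by
  rw [← Finset.card_sdiff_add_card_inter A (inn r)]
  omega

theorem rel_eq_of [Nonempty V]
    (hmob : ∀ s : Setoid V,
      ∑ r ∈ univ.filter (fun r : Setoid V => s ≤ r), mu (kk r) = if s = ⊤ then 1 else 0)
    (A : Finset (Sym2 V)) (hA : A ⊆ EE V) (q : ℝ) :
    Rel A q = ∑ r : Setoid V, mu (kk r) * q ^ (A \ inn r).card := by
  unfold Rel
  rw [sum_filter]
  have h1 : ∀ F ∈ A.powerset,
      (if (SimpleGraph.fromEdgeSet (F : Set (Sym2 V))).Connected then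
        (1 - q) ^ F.card * q ^ (A.card - F.card) else 0)
      = ∑ r : Setoid V, if F ⊆ inn r then
          mu (kk r) * ((1 - q) ^ F.card * q ^ (A.card - F.card)) else 0 := by
    intro F hF
    rw [mem_powerset] at hF
    have h2 := hmob (comp F)
    have h3 : ∀ r : Setoid V, (comp F ≤ r) ↔ (F ⊆ inn r) := comp_le_iff F (hF.trans hA)
    simp_rw [h3] at h2
    rw [sum_filter] at h2
    have h4 : (∑ r : Setoid V, if F ⊆ inn r then
          mu (kk r) * ((1 - q) ^ F.card * q ^ (A.card - F.card)) else 0)
        = (∑ r : Setoid V, if F ⊆ inn r then mu (kk r) else 0) *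
          ((1 - q) ^ F.card * q ^ (A.card - F.card)) := by
      rw [sum_mul]
      apply sum_congr rfl
      intro r _
      split_ifs <;> simp
    rw [h4, h2]
    by_cases hc : comp F = ⊤
    · rw [if_pos ((connected_iff F).2 hc), if_pos hc, one_mul]
    · rw [if_neg (fun h => hc ((connected_iff F).1 h)), if_neg hc, zero_mul]
  rw [sum_congr rfl h1, sum_comm]
  apply sum_congr rfl
  intro r _
  rw [← sum_filter, ← mul_sum]
  congr 1
  have h5 : A.powerset.filter (fun F => F ⊆ inn r) = (A ∩ inn r).powerset := by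
    ext F
    simp only [mem_filter, mem_powerset, subset_inter_iff]
  rw [h5, card_sdiff_inn]
  have hle : (A ∩ inn r).card ≤ A.card := card_le_card inter_subset_left
  have h6 : ∀ F ∈ (A ∩ inn r).powerset, (1 - q) ^ F.card * q ^ (A.card - F.card)
      = ((1 - q) ^ F.card * q ^ ((A ∩ inn r).card - F.card)) * q ^ (A.card - (A ∩ inn r).card) := by
    intro F hF
    rw [mem_powerset] at hF
    have := card_le_card hF
    rw [mul_assoc, ← pow_add]
    congr 2
    omega
  rw [sum_congr rfl h6, ← sum_mul, sum_pow_mul_eq_add_pow]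
  simp

theorem prod_ite_pow (S A : Finset (Sym2 V)) (c : ℝ) :
    ∏ e ∈ S, (if e ∈ A then c else 1) = c ^ (A ∩ S).card := by
  rw [prod_ite, prod_const_one, mul_one, prod_const]
  congr 2
  ext e
  simp only [mem_filter, mem_inter]
  tauto

theorem DD_bot (w : Sym2 V → ℝ) :
    DD (⊥ : Setoid V) w = ∑ r : Setoid V, mu (kk r) * ∏ e ∈ inn r, w e := by
  unfold DD
  rw [filter_bot_le, inn_bot]
  simp

theorem expansion (A : Finset (Sym2 V)) (hA : A ⊆ EE V) (x : ℝ) :
    DD (⊥ : Setoid V) (fun e => if e ∈ A then -(1 + x) else 1) =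
      ∑ F ∈ A.powerset, x ^ F.card * ((-1) ^ (A ∩ inn (comp F)).card * DD (comp F) (sg A)) := by
  rw [DD_bot]
  have h1 : ∀ F ∈ A.powerset,
      x ^ F.card * ((-1) ^ (A ∩ inn (comp F)).card * DD (comp F) (sg A))
      = ∑ r : Setoid V, if F ⊆ inn r then
          x ^ F.card * (mu (kk r) * (-1) ^ (A ∩ inn r).card) else 0 := by
    intro F hF
    rw [mem_powerset] at hF
    have h3 : ∀ r : Setoid V, (comp F ≤ r) ↔ (F ⊆ inn r) := comp_le_iff F (hF.trans hA)
    unfold DD
    rw [sum_filter, mul_sum, mul_sum]
    apply sum_congr rfl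
    intro r _
    simp_rw [h3]
    split_ifs with h4
    · congr 1
      have h5 : ∏ e ∈ inn r \ inn (comp F), sg A e = (-1) ^ (A ∩ (inn r \ inn (comp F))).card := by
        rw [← prod_ite_pow]
        rfl
      rw [h5]
      have h6 : inn (comp F) ⊆ inn r := inn_mono ((h3 r).2 h4)
      have h7 : (A ∩ inn r).card =
          (A ∩ inn (comp F)).card + (A ∩ (inn r \ inn (comp F))).card := by
        rw [← card_union_of_disjoint]
        · congr 1
          ext e
          simp only [mem_inter, mem_union, mem_sdiff]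
          constructor
          · rintro ⟨ha, hb⟩
            by_cases hc : e ∈ inn (comp F)
            · exact Or.inl ⟨ha, hc⟩
            · exact Or.inr ⟨ha, hb, hc⟩
          · rintro (⟨ha, hb⟩ | ⟨ha, hb, -⟩)
            · exact ⟨ha, h6 hb⟩
            · exact ⟨ha, hb⟩
        · rw [Finset.disjoint_left]
          intro e he1 he2
          simp only [mem_inter, mem_sdiff] at he1 he2
          exact he2.2.2 he1.2
      rw [h7, pow_add]
      ring
    · simp
  rw [sum_congr rfl h1, sum_comm]
  apply sum_congr rfl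
  intro r _
  rw [prod_ite_pow, ← sum_filter]
  have h5 : A.powerset.filter (fun F => F ⊆ inn r) = (A ∩ inn r).powerset := by
    ext F
    simp only [mem_filter, mem_powerset, subset_inter_iff]
  rw [h5, ← sum_mul]
  have h6 : ∑ F ∈ (A ∩ inn r).powerset, x ^ F.card = (x + 1) ^ (A ∩ inn r).card := by
    rw [← sum_pow_mul_eq_add_pow]
    apply sum_congr rfl
    intro F _
    simp
  rw [h6, neg_pow, add_comm x 1]
  ring

end

end Pool.Agent.R88.RR
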