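import Mathlib

/-!
Project RR (helper88): MP_ccdac2_co, real reliability roots of almost all graphs.
Definitions. `V` is a finite type, graphs are given by their edge sets `A : Finset (Sym2 V)`.
-/

set_option autoImplicit false

namespace Pool.Agent.R88.RR

open Finset
open scoped Classical

noncomputable section

instance setoidFintype (V : Type) [Fintype V] : Fintype (Setoid V) :=
  Fintype.ofInjective (fun r : Setoid V => fun a b : V => r a b) (by
    intro r s h
    ext a b
    exact iff_of_eq (congrFun (congrFun h a) b))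

/-- all pairs of distinct points -/
def EE (V : Type) [Fintype V] : Finset (Sym2 V) := univ.filter (fun e => ¬ e.IsDiag)

variable {V : Type} [Fintype V]

/-- the pairs inside the classes of `r` -/
def inn (r : Setoid V) : Finset (Sym2 V) := (EE V).filter (fun e => ∀ a ∈ e, ∀ b ∈ e, r a b)

/-- the number of classes -/
def kk (r : Setoid V) : ℕ := Nat.card (Quotient r)

/-- the set of classes -/
def cls (r : Setoid V) : Finset (Finset V) := univ.image (fun a => univ.filter (fun b => r a b))

/-- the Moebius numbers `(-1)^(k-1) (k-1)!` -/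
def mu (k : ℕ) : ℝ := (-1) ^ (k - 1) * (Nat.factorial (k - 1) : ℝ)

/-- signed partition sum above `s` with pair weights `w` -/
def DD (s : Setoid V) (w : Sym2 V → ℝ) : ℝ :=
  ∑ r ∈ univ.filter (fun r : Setoid V => s ≤ r), mu (kk r) * ∏ e ∈ inn r \ inn s, w e

/-- normalised: nonnegative for `|w| ≤ 1` -/
def cc (s : Setoid V) (w : Sym2 V → ℝ) : ℝ := (-1) ^ (kk s - 1) * DD s w

/-- sign weights: `-1` on the edges of `A`, `1` elsewhere -/
def sg (A : Finset (Sym2 V)) : Sym2 V → ℝ := fun e => if e ∈ A then -1 else 1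

/-- the components of the graph with edge set `F` -/
def comp (F : Finset (Sym2 V)) : Setoid V :=
  (SimpleGraph.fromEdgeSet (F : Set (Sym2 V))).reachableSetoid

/-- uniform average over all edge sets -/
def av (f : Finset (Sym2 V) → ℝ) : ℝ := (∑ A ∈ (EE V).powerset, f A) / 2 ^ (EE V).card

/-- no two different pairs of `F` meet -/
def Mat (F : Finset (Sym2 V)) : Prop := ∀ e ∈ F, ∀ e' ∈ F, e ≠ e' → ∀ v, ¬ (v ∈ e ∧ v ∈ e')

/-- some class has at least three points -/
def big3 (s : Setoid V) : Prop := ∃ B ∈ cls s, 3 ≤ B.card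

/-- all classes have at most `2n/3` points -/
def small (s : Setoid V) : Prop := ∀ B ∈ cls s, 3 * B.card ≤ 2 * Fintype.card V

/-- crude weight of a partition -/
def ww (s : Setoid V) : ℝ := (Nat.factorial (kk s) : ℝ) * Real.exp (6 * (kk s : ℝ))

/-- the bad part with small components -/
def BS (x : ℝ) (A : Finset (Sym2 V)) : ℝ :=
  ∑ F ∈ A.powerset.filter (fun F => big3 (comp F) ∧ small (comp F)),
    x ^ F.card * cc (comp F) (sg A)

/-- sum over 3-edge matchings -/
def S3 (A : Finset (Sym2 V)) : ℝ :=
  ∑ F ∈ A.powerset.filter (fun F => F.card = 3 ∧ Mat F), cc (comp F) (sg A)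

/-- giant class part -/
def Yg (l : ℝ) (A : Finset (Sym2 V)) : ℝ :=
  ∑ s ∈ univ.filter (fun s : Setoid V => ¬ small s ∧ s ≠ ⊤), ww s * (l⁻¹) ^ (A \ inn s).card

/-- no giant class -/
def Nb (l : ℝ) (A : Finset (Sym2 V)) : ℝ :=
  ∑ s ∈ univ.filter (fun s : Setoid V => small s), ww s * (l⁻¹) ^ (A \ inn s).card

/-- the all-terminal reliability polynomial of the graph with edge set `A`,
`q` the failure probability -/
def Rel (A : Finset (Sym2 V)) (q : ℝ) : ℝ :=
  ∑ F ∈ A.powerset.filter
      (fun F : Finset (Sym2 V) => (SimpleGraph.fromEdgeSet (F : Set (Sym2 V))).Connected),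
    (1 - q) ^ F.card * q ^ (A.card - F.card)

end

end Pool.Agent.R88.RR
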