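import Mathlib
import Pool.Agent.R88.RR.Defs

set_option autoImplicit false

namespace Pool.Agent.R88.RR

open Finset
open scoped Classical Nat

noncomputable section

variable {V : Type} [Fintype V]

theorem exp_inn_sub (r : Setoid V) : inn r ⊆ EE V := Finset.filter_subset _ _

theorem exp_mem_inn (r : Setoid V) (a b : V) : s(a, b) ∈ inn r ↔ a ≠ b ∧ r a b := by
  unfold inn EE
  simp only [Finset.mem_filter, Finset.mem_univ, true_and, Sym2.mk_isDiag_iff, Sym2.mem_iff]
  constructor
  · rintro ⟨h1, h2⟩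
    exact ⟨h1, h2 a (Or.inl rfl) b (Or.inr rfl)⟩
  · rintro ⟨h1, h2⟩
    refine ⟨h1, ?_⟩
    rintro x (rfl | rfl) y (rfl | rfl)
    · exact r.refl' _
    · exact h2
    · exact r.symm' h2
    · exact r.refl' _

theorem exp_inn_inj {r s : Setoid V} (h : inn r = inn s) : r = s := by
  ext a b
  by_cases hab : a = b
  · subst hab
    exact ⟨fun _ => s.refl' _, fun _ => r.refl' _⟩
  · have h1 := exp_mem_inn r a b
    have h2 := exp_mem_inn s a b
    rw [h] at h1
    constructor
    · intro h'
      exact (h2.1 (h1.2 ⟨hab, h'⟩)).2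
    · intro h'
      exact (h1.1 (h2.2 ⟨hab, h'⟩)).2

theorem exp_inn_mono {r s : Setoid V} (h : s ≤ r) : inn s ⊆ inn r := by
  intro e he
  induction e using Sym2.ind with
  | _ a b =>
    rw [exp_mem_inn] at he ⊢
    exact ⟨he.1, h he.2⟩

theorem exp_inn_bot : inn (⊥ : Setoid V) = ∅ := by
  rw [Finset.eq_empty_iff_forall_notMem]
  intro e he
  induction e using Sym2.ind with
  | _ a b =>
    rw [exp_mem_inn] at he
    exact he.1 he.2

/-- the basic expectation -/
theorem exp_chi (F H : Finset (Sym2 V)) (hF : F ⊆ EE V) (hH : H ⊆ EE V) (hd : Disjoint H F) :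
    av (fun A => if F ⊆ A then ∏ e ∈ H, sg A e else 0) = if H = ∅ then 1 / 2 ^ F.card else 0 := by
  unfold av
  have h1 : ∀ A ∈ (EE V).powerset, (if F ⊆ A then ∏ e ∈ H, sg A e else 0) =
      (∏ e ∈ A, (if e ∈ H then (-1 : ℝ) else 1)) *
        ∏ e ∈ EE V \ A, (if e ∈ F then (0 : ℝ) else 1) := by
    intro A hA
    rw [Finset.mem_powerset] at hA
    have h2 : ∏ e ∈ H, sg A e = ∏ e ∈ A, (if e ∈ H then (-1 : ℝ) else 1) := by
      unfold sg
      rw [Finset.prod_ite, Finset.prod_ite]
      simp only [Finset.prod_const, one_pow, mul_one]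
      congr 2
      ext e
      simp only [Finset.mem_filter]
      tauto
    rw [h2]
    by_cases h : F ⊆ A
    · rw [if_pos h]
      have : ∏ e ∈ EE V \ A, (if e ∈ F then (0 : ℝ) else 1) = 1 := by
        apply Finset.prod_eq_one
        intro e he
        rw [if_neg]
        intro h'
        exact (Finset.mem_sdiff.1 he).2 (h h')
      rw [this, mul_one]
    · rw [if_neg h]
      obtain ⟨e, he, hne⟩ := Finset.not_subset.1 h
      have : ∏ e ∈ EE V \ A, (if e ∈ F then (0 : ℝ) else 1) = 0 := by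
        apply Finset.prod_eq_zero (Finset.mem_sdiff.2 ⟨hF he, hne⟩)
        rw [if_pos he]
      rw [this, mul_zero]
  rw [Finset.sum_congr rfl h1, ← Finset.prod_add]
  by_cases h : H = ∅
  · rw [if_pos h]
    subst h
    have h3 : ∏ i ∈ EE V, ((if i ∈ (∅ : Finset (Sym2 V)) then (-1 : ℝ) else 1) +
        if i ∈ F then (0 : ℝ) else 1) = 2 ^ (EE V \ F).card := by
      rw [← Finset.prod_sdiff hF]
      have a1 : ∏ i ∈ F, ((if i ∈ (∅ : Finset (Sym2 V)) then (-1 : ℝ) else 1) +
        if i ∈ F then (0 : ℝ) else 1) = 1 := by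
        apply Finset.prod_eq_one
        intro e he
        simp [he]
      have a2 : ∏ i ∈ EE V \ F, ((if i ∈ (∅ : Finset (Sym2 V)) then (-1 : ℝ) else 1) +
        if i ∈ F then (0 : ℝ) else 1) = 2 ^ (EE V \ F).card := by
        rw [← Finset.prod_const]
        apply Finset.prod_congr rfl
        intro e he
        have := (Finset.mem_sdiff.1 he).2
        simp only [Finset.notMem_empty, if_false, this]
        norm_num
      rw [a1, a2, mul_one]
    rw [h3]
    have hc : (EE V).card = (EE V \ F).card + F.card := by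
      rw [Finset.card_sdiff_add_card_eq_card hF]
    rw [hc, pow_add]
    field_simp
  · rw [if_neg h]
    obtain ⟨e, he⟩ := Finset.nonempty_iff_ne_empty.2 h
    rw [Finset.prod_eq_zero (hH he)]
    · simp
    · have : e ∉ F := fun h' => (Finset.disjoint_left.1 hd) he h'
      rw [if_pos he, if_neg this]
      norm_num

theorem exp_av_sum {ι : Type*} (t : Finset ι) (c : ι → ℝ) (f : ι → Finset (Sym2 V) → ℝ) :
    av (fun A => ∑ i ∈ t, c i * f i A) = ∑ i ∈ t, c i * av (f i) := by
  unfold av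
  rw [Finset.sum_comm, Finset.sum_div]
  apply Finset.sum_congr rfl
  intro i _
  rw [← Finset.mul_sum, mul_div_assoc]

theorem exp_av_congr {f g : Finset (Sym2 V) → ℝ} (h : ∀ A, A ⊆ EE V → f A = g A) :
    av f = av g := by
  unfold av
  congr 1
  exact Finset.sum_congr rfl (fun A hA => h A (Finset.mem_powerset.1 hA))

theorem exp_av_mul (c : ℝ) (f : Finset (Sym2 V) → ℝ) :
    av (fun A => c * f A) = c * av f := by
  unfold av
  rw [← Finset.mul_sum, mul_div_assoc]

theorem av_cc [Nonempty V] (s : Setoid V) (F : Finset (Sym2 V)) (hF : F ⊆ inn s) :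
    av (fun A => if F ⊆ A then cc s (sg A) else 0) = ((kk s - 1)! : ℝ) / 2 ^ F.card := by
  have h1 : av (fun A => if F ⊆ A then cc s (sg A) else 0) =
      av (fun A => ∑ r ∈ univ.filter (fun r : Setoid V => s ≤ r),
        ((-1) ^ (kk s - 1) * mu (kk r)) *
          (if F ⊆ A then ∏ e ∈ inn r \ inn s, sg A e else 0)) := by
    apply exp_av_congr
    intro A _
    by_cases h : F ⊆ A
    · simp only [if_pos h]
      unfold cc DD
      rw [Finset.mul_sum]
      apply Finset.sum_congr rfl
      intro r _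
      ring
    · simp only [if_neg h, mul_zero, Finset.sum_const_zero]
  rw [h1, exp_av_sum]
  rw [Finset.sum_eq_single_of_mem s (by simp)]
  · rw [exp_chi F _ (hF.trans (exp_inn_sub s)) (Finset.sdiff_subset.trans (exp_inn_sub s))
      (Finset.disjoint_left.2 (fun e he he' => (Finset.mem_sdiff.1 he).2 (hF he')))]
    rw [if_pos (Finset.sdiff_self _)]
    unfold mu
    have : ((-1 : ℝ) ^ (kk s - 1)) * (-1) ^ (kk s - 1) = 1 := by
      rw [← mul_pow]; simp
    calc (-1) ^ (kk s - 1) * ((-1) ^ (kk s - 1) * ((kk s - 1)! : ℝ)) * (1 / 2 ^ F.card)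
        = ((-1 : ℝ) ^ (kk s - 1) * (-1) ^ (kk s - 1)) * (((kk s - 1)! : ℝ) / 2 ^ F.card) := by
          ring
      _ = _ := by rw [this, one_mul]
  · intro r hr hne
    rw [exp_chi F _ (hF.trans (exp_inn_sub s)) (Finset.sdiff_subset.trans (exp_inn_sub r))
      (Finset.disjoint_left.2 (fun e he he' => (Finset.mem_sdiff.1 he).2 (hF he')))]
    rw [if_neg, mul_zero]
    intro h
    apply hne
    apply exp_inn_inj
    apply Finset.Subset.antisymm
    · exact Finset.sdiff_eq_empty_iff_subset.1 h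
    · exact exp_inn_mono (Finset.mem_filter.1 hr).2

theorem exp_sg_sq (A : Finset (Sym2 V)) (e : Sym2 V) : sg A e * sg A e = 1 := by
  unfold sg
  by_cases h : e ∈ A <;> simp [h]

theorem exp_prod_sg (A H H' : Finset (Sym2 V)) : (∏ e ∈ H, sg A e) * ∏ e ∈ H', sg A e =
    ∏ e ∈ (H \ H') ∪ (H' \ H), sg A e := by
  rw [Finset.prod_union (Finset.disjoint_left.2 (fun e he he' =>
    (Finset.mem_sdiff.1 he').2 (Finset.mem_sdiff.1 he).1))]
  have h1 : ∏ e ∈ H, sg A e = (∏ e ∈ H \ H', sg A e) * ∏ e ∈ H ∩ H', sg A e := by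
    rw [← Finset.prod_union (Finset.disjoint_left.2 (fun e he he' =>
      (Finset.mem_sdiff.1 he).2 (Finset.mem_inter.1 he').2)), Finset.sdiff_union_inter]
  have h2 : ∏ e ∈ H', sg A e = (∏ e ∈ H' \ H, sg A e) * ∏ e ∈ H ∩ H', sg A e := by
    rw [Finset.inter_comm, ← Finset.prod_union (Finset.disjoint_left.2 (fun e he he' =>
      (Finset.mem_sdiff.1 he).2 (Finset.mem_inter.1 he').2)), Finset.sdiff_union_inter]
  have h3 : (∏ e ∈ H ∩ H', sg A e) * (∏ e ∈ H ∩ H', sg A e) = 1 := by
    rw [← Finset.prod_mul_distrib]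
    exact Finset.prod_eq_one (fun e _ => exp_sg_sq A e)
  rw [h1, h2]
  calc _ = (∏ e ∈ H \ H', sg A e) * (∏ e ∈ H' \ H, sg A e) *
        ((∏ e ∈ H ∩ H', sg A e) * (∏ e ∈ H ∩ H', sg A e)) := by ring
    _ = _ := by rw [h3, mul_one]

theorem exp_chi2 (H H' : Finset (Sym2 V)) (hH : H ⊆ EE V) (hH' : H' ⊆ EE V) :
    av (fun A => (∏ e ∈ H, sg A e) * ∏ e ∈ H', sg A e) = if H = H' then 1 else 0 := by
  have h := exp_chi (V := V) ∅ ((H \ H') ∪ (H' \ H)) (Finset.empty_subset _)
    (Finset.union_subset (Finset.sdiff_subset.trans hH) (Finset.sdiff_subset.trans hH'))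
    (Finset.disjoint_empty_right _)
  simp only [Finset.empty_subset, if_true, Finset.card_empty, pow_zero, div_one] at h
  simp only [exp_prod_sg]
  rw [h]
  congr 1
  apply propext
  rw [Finset.union_eq_empty, Finset.sdiff_eq_empty_iff_subset, Finset.sdiff_eq_empty_iff_subset]
  constructor
  · rintro ⟨h1, h2⟩; exact Finset.Subset.antisymm h1 h2
  · rintro rfl; exact ⟨subset_rfl, subset_rfl⟩

theorem av_sq [Nonempty V] :
    av (fun A : Finset (Sym2 V) => (cc (⊥ : Setoid V) (sg A)) ^ 2) =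
      ∑ r : Setoid V, (mu (kk r)) ^ 2 := by
  have h0 : ∀ A : Finset (Sym2 V), (cc (⊥ : Setoid V) (sg A)) ^ 2 =
      ∑ p ∈ (univ : Finset (Setoid V × Setoid V)), (mu (kk p.1) * mu (kk p.2)) *
        ((∏ e ∈ inn p.1, sg A e) * ∏ e ∈ inn p.2, sg A e) := by
    intro A
    unfold cc DD
    simp only [bot_le, Finset.filter_true, exp_inn_bot, Finset.sdiff_empty]
    have hs : ((-1 : ℝ) ^ (kk (⊥ : Setoid V) - 1)) ^ 2 = 1 := by
      rw [← pow_mul, mul_comm, pow_mul]; simp
    rw [mul_pow, hs, one_mul, sq, Finset.sum_mul_sum, ← Finset.univ_product_univ,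
      Finset.sum_product]
    apply Finset.sum_congr rfl
    intro r _
    apply Finset.sum_congr rfl
    intro r' _
    ring
  simp only [h0]
  rw [exp_av_sum]
  simp only [exp_chi2 _ _ (exp_inn_sub _) (exp_inn_sub _)]
  rw [← Finset.univ_product_univ, Finset.sum_product]
  apply Finset.sum_congr rfl
  intro r _
  simp only
  rw [Finset.sum_eq_single_of_mem r (Finset.mem_univ _)]
  · rw [if_pos rfl]; ring
  · intro r' _ hne
    rw [if_neg, mul_zero]
    intro h
    exact hne (exp_inn_inj h).symm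

theorem av_cut (s : Setoid V) (l : ℝ) :
    av (fun A => (l⁻¹) ^ (A \ inn s).card) = ((1 + l⁻¹) / 2) ^ (EE V \ inn s).card := by
  unfold av
  have h1 : ∀ A ∈ (EE V).powerset, (l⁻¹) ^ (A \ inn s).card =
      ∏ e ∈ A, (if e ∈ inn s then (1 : ℝ) else l⁻¹) := by
    intro A _
    rw [Finset.prod_ite]
    simp only [Finset.prod_const, one_pow, one_mul]
    congr 2
    ext e
    simp only [Finset.mem_filter, Finset.mem_sdiff]
  rw [Finset.sum_congr rfl h1, ← Finset.prod_one_add]
  rw [← Finset.prod_sdiff (exp_inn_sub s)]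
  have a1 : ∏ i ∈ inn s, (1 + if i ∈ inn s then (1 : ℝ) else l⁻¹) = 2 ^ (inn s).card := by
    rw [← Finset.prod_const]
    apply Finset.prod_congr rfl
    intro e he
    rw [if_pos he]; norm_num
  have a2 : ∏ i ∈ EE V \ inn s, (1 + if i ∈ inn s then (1 : ℝ) else l⁻¹) =
      (1 + l⁻¹) ^ (EE V \ inn s).card := by
    rw [← Finset.prod_const]
    apply Finset.prod_congr rfl
    intro e he
    rw [if_neg (Finset.mem_sdiff.1 he).2]
  rw [a1, a2]
  have hc : (EE V).card = (EE V \ inn s).card + (inn s).card := by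
    rw [Finset.card_sdiff_add_card_eq_card (exp_inn_sub s)]
  rw [hc, pow_add, div_pow]
  field_simp

theorem av_dev :
    av (fun A : Finset (Sym2 V) => (2 * (A.card : ℝ) - (EE V).card) ^ 2) = (EE V).card := by
  have h0 : av (fun A : Finset (Sym2 V) => (2 * (A.card : ℝ) - (EE V).card) ^ 2) =
      av (fun A : Finset (Sym2 V) => ∑ p ∈ (EE V) ×ˢ (EE V), (1 : ℝ) *
        ((∏ e ∈ {p.1}, sg A e) * ∏ e ∈ {p.2}, sg A e)) := by
    apply exp_av_congr
    intro A hA
    have h1 : 2 * (A.card : ℝ) - (EE V).card = - ∑ e ∈ EE V, sg A e := by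
      unfold sg
      rw [Finset.sum_ite]
      simp only [Finset.sum_const, nsmul_eq_mul, mul_neg, mul_one]
      have e1 : (EE V).filter (fun e => e ∈ A) = A := by
        ext e
        simp only [Finset.mem_filter]
        exact ⟨fun h => h.2, fun h => ⟨hA h, h⟩⟩
      have e2 : (EE V).filter (fun e => e ∉ A) = EE V \ A := by
        ext e
        simp only [Finset.mem_filter, Finset.mem_sdiff]
      rw [e1, e2]
      have hc : (EE V).card = (EE V \ A).card + A.card := by
        rw [Finset.card_sdiff_add_card_eq_card hA]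
      rw [hc]
      push_cast
      ring
    rw [h1, neg_sq, sq, Finset.sum_mul_sum, Finset.sum_product]
    apply Finset.sum_congr rfl
    intro e _
    apply Finset.sum_congr rfl
    intro e' _
    simp
  rw [h0, exp_av_sum, Finset.sum_product]
  have h1 : ∀ e ∈ EE V, ∑ e' ∈ EE V, (1 : ℝ) *
      av (fun A : Finset (Sym2 V) => (∏ x ∈ {e}, sg A x) * ∏ x ∈ {e'}, sg A x) = 1 := by
    intro e he
    rw [Finset.sum_eq_single_of_mem e he]
    · rw [exp_chi2 _ _ (Finset.singleton_subset_iff.2 he) (Finset.singleton_subset_iff.2 he),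
        if_pos rfl, one_mul]
    · intro e' he' hne
      rw [exp_chi2 _ _ (Finset.singleton_subset_iff.2 he) (Finset.singleton_subset_iff.2 he'),
        if_neg, mul_zero]
      intro h
      exact hne (Finset.singleton_injective h).symm
  rw [Finset.sum_congr rfl h1]
  simp

theorem card_EE : (EE V).card = (Fintype.card V).choose 2 := by
  rw [← Sym2.card_subtype_not_diag, Fintype.card_subtype]
  rfl

end

end Pool.Agent.R88.RR
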