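import Mathlib
import Pool.Agent.R88.RR.Defs
import Pool.Agent.R88.RR.Exp

set_option autoImplicit false

namespace Pool.Agent.R88.RR

open Finset
open scoped Classical Nat

noncomputable section

variable {V : Type} [Fintype V]

theorem lm_comp_le_iff (F : Finset (Sym2 V)) (hF : F ⊆ EE V) (r : Setoid V) :
    comp F ≤ r ↔ F ⊆ inn r := by
  constructor
  · intro h e he
    induction e using Sym2.ind with
    | _ a b =>
      have hab : a ≠ b := by
        have := (Finset.mem_filter.1 (hF he)).2
        simpa using this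
      rw [exp_mem_inn]
      refine ⟨hab, h ?_⟩
      show (SimpleGraph.fromEdgeSet (F : Set (Sym2 V))).Reachable a b
      apply SimpleGraph.Adj.reachable
      rw [SimpleGraph.fromEdgeSet_adj]
      exact ⟨he, hab⟩
  · intro h a b hab
    have hab' : (SimpleGraph.fromEdgeSet (F : Set (Sym2 V))).Reachable a b := hab
    obtain ⟨w⟩ := hab'
    induction w with
    | nil => exact r.refl' _
    | cons hadj _ ih =>
      rw [SimpleGraph.fromEdgeSet_adj] at hadj
      have h1 := (exp_mem_inn r _ _).1 (h hadj.1)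
      exact r.trans' h1.2 (ih (by
        show (SimpleGraph.fromEdgeSet (F : Set (Sym2 V))).Reachable _ _
        exact ⟨by assumption⟩))

/-- the partition of a matching -/
def matS (F : Finset (Sym2 V)) (hM : Mat F) : Setoid V where
  r a b := a = b ∨ s(a, b) ∈ F
  iseqv := by
    refine ⟨fun a => Or.inl rfl, ?_, ?_⟩
    · rintro a b (rfl | h)
      · exact Or.inl rfl
      · right; rwa [Sym2.eq_swap]
    · rintro a b c (rfl | h1) (rfl | h2)
      · exact Or.inl rfl
      · exact Or.inr h2
      · exact Or.inr h1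
      · by_cases h : s(a, b) = s(b, c)
        · left
          rw [Sym2.eq_swap] at h
          exact (Sym2.congr_right.1 h)
        · exfalso
          exact hM _ h1 _ h2 h b ⟨by simp, by simp⟩

theorem comp_mat (F : Finset (Sym2 V)) (hF : F ⊆ EE V) (hM : Mat F) (a b : V) :
    comp F a b ↔ a = b ∨ s(a, b) ∈ F := by
  constructor
  · have h : comp F ≤ matS F hM := by
      rw [lm_comp_le_iff F hF]
      intro e he
      induction e using Sym2.ind with
      | _ a b =>
        have hab : a ≠ b := by
          have := (Finset.mem_filter.1 (hF he)).2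
          simpa using this
        rw [exp_mem_inn]
        exact ⟨hab, Or.inr he⟩
    intro h'
    exact h h'
  · rintro (rfl | h)
    · exact (comp F).refl' _
    · have := (lm_comp_le_iff F hF (comp F)).1 le_rfl h
      exact ((exp_mem_inn _ _ _).1 this).2

theorem inn_comp_mat (F : Finset (Sym2 V)) (hF : F ⊆ EE V) (hM : Mat F) :
    inn (comp F) = F := by
  apply Finset.Subset.antisymm
  · intro e he
    induction e using Sym2.ind with
    | _ a b =>
      rw [exp_mem_inn] at he
      rcases (comp_mat F hF hM a b).1 he.2 with h | h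
      · exact absurd h he.1
      · exact h
  · exact (lm_comp_le_iff F hF (comp F)).1 le_rfl

theorem kk_comp_mat (F : Finset (Sym2 V)) (hF : F ⊆ EE V) (hM : Mat F) :
    kk (comp F) + F.card = Fintype.card V := by
  -- a chosen endpoint of every edge
  let h : Sym2 V → V := fun e => (Quot.out e).1
  have hmem : ∀ e : Sym2 V, h e ∈ e := fun e => Sym2.out_fst_mem e
  have hinj : Set.InjOn h (F : Set (Sym2 V)) := by
    intro e he e' he' heq
    by_contra hne
    exact hM e he e' he' hne (h e) ⟨hmem e, heq ▸ hmem e'⟩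
  let D : Finset V := F.image h
  have hD : D.card = F.card := Finset.card_image_of_injOn hinj
  have hq : kk (comp F) = (univ \ D).card := by
    unfold kk
    rw [← Fintype.card_coe (univ \ D), ← Nat.card_eq_fintype_card]
    symm
    apply Nat.card_congr
    refine Equiv.ofBijective (fun v : ((univ \ D : Finset V)) => (Quotient.mk (comp F) v.1)) ⟨?_, ?_⟩
    · rintro ⟨a, ha⟩ ⟨b, hb⟩ hab
      have hab' : comp F a b := Quotient.exact hab
      rcases (comp_mat F hF hM a b).1 hab' with h' | h'
      · exact Subtype.ext h'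
      · exfalso
        rcases Sym2.mem_iff.1 (hmem s(a, b)) with h2 | h2
        · exact (Finset.mem_sdiff.1 ha).2 (Finset.mem_image.2 ⟨_, h', h2⟩)
        · exact (Finset.mem_sdiff.1 hb).2 (Finset.mem_image.2 ⟨_, h', h2⟩)
    · intro q
      induction q using Quotient.ind with
      | _ v =>
        by_cases hv : v ∈ D
        · obtain ⟨e, he, rfl⟩ := Finset.mem_image.1 hv
          obtain ⟨w, hw⟩ := Sym2.mem_iff_exists.1 (hmem e)
          have hne : h e ≠ w := by
            have := (Finset.mem_filter.1 (hF he)).2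
            rw [hw] at this
            simpa using this
          have hwD : w ∉ D := by
            intro hw'
            obtain ⟨e', he', hw2⟩ := Finset.mem_image.1 hw'
            by_cases hee : e = e'
            · subst hee
              exact hne hw2
            · apply hM e he e' he' hee w
              refine ⟨?_, ?_⟩
              · rw [hw]; simp
              · rw [← hw2]; exact hmem e'
          refine ⟨⟨w, Finset.mem_sdiff.2 ⟨Finset.mem_univ _, hwD⟩⟩, ?_⟩
          apply Quotient.sound
          show comp F w (h e)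
          apply (comp F).symm'
          apply (comp_mat F hF hM _ _).2
          right
          rw [← hw]
          exact he
        · exact ⟨⟨v, Finset.mem_sdiff.2 ⟨Finset.mem_univ _, hv⟩⟩, rfl⟩
  rw [hq, ← hD, Finset.card_sdiff_add_card_eq_card (Finset.subset_univ D)]
  rfl

/-- if no component has three points, the edge set is a matching -/
theorem mat_of_not_big3 (F : Finset (Sym2 V)) (hF : F ⊆ EE V) (h : ¬ big3 (comp F)) :
    Mat F := by
  intro e he e' he' hne v hv
  apply h
  obtain ⟨a, rfl⟩ := Sym2.mem_iff_exists.1 hv.1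
  obtain ⟨b, rfl⟩ := Sym2.mem_iff_exists.1 hv.2
  have hab : a ≠ b := by
    rintro rfl
    exact hne rfl
  have ha : v ≠ a := by
    have := (Finset.mem_filter.1 (hF he)).2
    simpa using this
  have hb : v ≠ b := by
    have := (Finset.mem_filter.1 (hF he')).2
    simpa using this
  have h1 := ((exp_mem_inn _ _ _).1 ((lm_comp_le_iff F hF (comp F)).1 le_rfl he)).2
  have h2 := ((exp_mem_inn _ _ _).1 ((lm_comp_le_iff F hF (comp F)).1 le_rfl he')).2
  refine ⟨univ.filter (fun b => comp F v b), Finset.mem_image.2 ⟨v, Finset.mem_univ _, rfl⟩, ?_⟩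
  have h3 : ({v, a, b} : Finset V).card = 3 := by
    rw [Finset.card_eq_three]
    exact ⟨v, a, b, ha, hb, hab, rfl⟩
  rw [← h3]
  apply Finset.card_le_card
  intro x hx
  simp only [Finset.mem_insert, Finset.mem_singleton] at hx
  simp only [Finset.mem_filter, Finset.mem_univ, true_and]
  rcases hx with rfl | rfl | rfl
  · exact (comp F).refl' _
  · exact h1
  · exact h2

theorem mat_sub {F P : Finset (Sym2 V)} (h : F ⊆ P) (hP : Mat P) : Mat F :=
  fun e he e' he' hne v => hP e (h he) e' (h he') hne v

theorem kk_pos [Nonempty V] (s : Setoid V) : 0 < kk s := by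
  unfold kk
  have : Nonempty (Quotient s) := ⟨Quotient.mk s (Classical.arbitrary V)⟩
  have : Finite (Quotient s) := Quotient.finite s
  exact Nat.card_pos

theorem lemma_M [Nonempty V] (P : Finset (Sym2 V)) (hP : P ⊆ EE V) (hM : Mat P)
    (J : Finset (Sym2 V)) (hJ : J ⊆ P) (A : Finset (Sym2 V)) (hA : A ⊆ EE V) :
    cc (comp J) (sg A) =
      ∑ K ∈ ((P \ J) ∩ A).powerset, 2 ^ K.card * cc (comp (J ∪ K)) (sg (A \ P)) := by
  have hJE : J ⊆ EE V := hJ.trans hP
  have hJM : Mat J := mat_sub hJ hM
  have hkJ := kk_comp_mat J hJE hJM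
  -- rewrite every term of the right side
  have hterm : ∀ K ∈ ((P \ J) ∩ A).powerset,
      2 ^ K.card * cc (comp (J ∪ K)) (sg (A \ P)) =
      (-1) ^ (kk (comp J) - 1) * ∑ r ∈ univ.filter (fun r : Setoid V => comp J ≤ r),
        (if K ⊆ inn r then (-2) ^ K.card * (mu (kk r) *
          ∏ e ∈ inn r \ (J ∪ K), sg (A \ P) e) else 0) := by
    intro K hK
    rw [Finset.mem_powerset] at hK
    have hKP : K ⊆ P := fun e he =>
      (Finset.mem_sdiff.1 (Finset.mem_inter.1 (hK he)).1).1
    have hKJ : Disjoint J K := Finset.disjoint_left.2 (fun e he he' =>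
      (Finset.mem_sdiff.1 (Finset.mem_inter.1 (hK he')).1).2 he)
    have hJK : J ∪ K ⊆ P := Finset.union_subset hJ hKP
    have hJKE : J ∪ K ⊆ EE V := hJK.trans hP
    have hJKM : Mat (J ∪ K) := mat_sub hJK hM
    have hk := kk_comp_mat (J ∪ K) hJKE hJKM
    rw [Finset.card_union_of_disjoint hKJ] at hk
    have hpos := kk_pos (comp (J ∪ K))
    have hsign : (2 : ℝ) ^ K.card * (-1) ^ (kk (comp (J ∪ K)) - 1) =
        (-1) ^ (kk (comp J) - 1) * (-2) ^ K.card := by
      have e1 : kk (comp J) - 1 = (kk (comp (J ∪ K)) - 1) + K.card := by omega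
      have e2 : ((-1 : ℝ) ^ K.card) * (-2) ^ K.card = 2 ^ K.card := by
        rw [← mul_pow]; norm_num
      rw [e1, pow_add, mul_assoc, e2]
      ring
    unfold cc DD
    rw [inn_comp_mat (J ∪ K) hJKE hJKM, ← mul_assoc, hsign, mul_assoc]
    congr 1
    rw [Finset.mul_sum]
    rw [← Finset.sum_filter]
    apply Finset.sum_congr
    · ext r
      simp only [Finset.mem_filter, Finset.mem_univ, true_and]
      rw [lm_comp_le_iff _ hJKE, lm_comp_le_iff _ hJE, Finset.union_subset_iff]
    · intro r _
      rfl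
  rw [Finset.sum_congr rfl hterm, ← Finset.mul_sum]
  unfold cc DD
  congr 1
  rw [Finset.sum_comm, inn_comp_mat J hJE hJM]
  apply Finset.sum_congr rfl
  intro r hr
  have hJr : J ⊆ inn r := (lm_comp_le_iff J hJE r).1 (Finset.mem_filter.1 hr).2
  rw [← Finset.sum_filter]
  have hset : (((P \ J) ∩ A).powerset).filter (fun K => K ⊆ inn r) =
      (((P \ J) ∩ A) ∩ inn r).powerset := by
    ext K
    simp only [Finset.mem_filter, Finset.mem_powerset, Finset.subset_inter_iff]
  rw [hset]
  have hprod : ∀ K ∈ (((P \ J) ∩ A) ∩ inn r).powerset,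
      (-2 : ℝ) ^ K.card * (mu (kk r) * ∏ e ∈ inn r \ (J ∪ K), sg (A \ P) e) =
      (mu (kk r) * ∏ e ∈ inn r \ P, sg A e) * ∏ _e ∈ K, (-2 : ℝ) := by
    intro K hK
    rw [Finset.mem_powerset] at hK
    have hKP : K ⊆ P := fun e he =>
      (Finset.mem_sdiff.1 (Finset.mem_inter.1 (Finset.mem_inter.1 (hK he)).1).1).1
    have h1 : ∏ e ∈ inn r \ (J ∪ K), sg (A \ P) e = ∏ e ∈ inn r \ P, sg A e := by
      have hs : inn r \ P ⊆ inn r \ (J ∪ K) :=
        Finset.sdiff_subset_sdiff subset_rfl (Finset.union_subset hJ hKP)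
      rw [← Finset.prod_sdiff hs]
      have h2 : ∏ e ∈ (inn r \ (J ∪ K)) \ (inn r \ P), sg (A \ P) e = 1 := by
        apply Finset.prod_eq_one
        intro e he
        simp only [Finset.mem_sdiff, not_and, not_not] at he
        unfold sg
        rw [if_neg]
        intro h'
        exact (Finset.mem_sdiff.1 h').2 (he.2 he.1.1)
      rw [h2, one_mul]
      apply Finset.prod_congr rfl
      intro e he
      have heP := (Finset.mem_sdiff.1 he).2
      unfold sg
      simp only [Finset.mem_sdiff, heP, not_false_eq_true, and_true]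
    rw [h1, Finset.prod_const]
    ring
  rw [Finset.sum_congr rfl hprod, ← Finset.mul_sum, ← Finset.prod_one_add]
  rw [mul_assoc]
  congr 1
  have hsplit : inn r \ J = (inn r \ P) ∪ ((P \ J) ∩ inn r) := by
    ext e
    simp only [Finset.mem_sdiff, Finset.mem_union, Finset.mem_inter]
    constructor
    · rintro ⟨h1, h2⟩
      by_cases h : e ∈ P
      · exact Or.inr ⟨⟨h, h2⟩, h1⟩
      · exact Or.inl ⟨h1, h⟩
    · rintro (⟨h1, h2⟩ | ⟨⟨h1, h2⟩, h3⟩)
      · exact ⟨h1, fun h => h2 (hJ h)⟩
      · exact ⟨h3, h2⟩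
  have hdisj : Disjoint (inn r \ P) ((P \ J) ∩ inn r) :=
    Finset.disjoint_left.2 (fun e he he' =>
      (Finset.mem_sdiff.1 he).2 (Finset.mem_sdiff.1 (Finset.mem_inter.1 he').1).1)
  rw [hsplit, Finset.prod_union hdisj]
  congr 1
  have hs : ((P \ J) ∩ A) ∩ inn r ⊆ (P \ J) ∩ inn r := by
    intro e he
    simp only [Finset.mem_inter] at he ⊢
    exact ⟨he.1.1, he.2⟩
  rw [← Finset.prod_sdiff hs]
  have h3 : ∏ e ∈ ((P \ J) ∩ inn r) \ (((P \ J) ∩ A) ∩ inn r), sg A e = 1 := by
    apply Finset.prod_eq_one
    intro e he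
    simp only [Finset.mem_sdiff, Finset.mem_inter] at he
    unfold sg
    rw [if_neg]
    intro h'
    exact he.2 ⟨⟨he.1.1, h'⟩, he.1.2⟩
  rw [h3, one_mul]
  apply Finset.prod_congr rfl
  intro e he
  simp only [Finset.mem_inter] at he
  unfold sg
  rw [if_pos he.1.2]
  norm_num

end

end Pool.Agent.R88.RR
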