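import Pool.Agent.R88.RR.Defs

/-! Project RR, piece PL: product lemma for sums over partitions. -/

set_option autoImplicit false
set_option linter.unusedSectionVars false

namespace Pool.Agent.R88.RR

open Finset
open scoped Classical Nat

noncomputable section

variable {V : Type} [Fintype V]

namespace PLx

def cl (r : Setoid V) (a : V) : Finset V := univ.filter (fun b => r a b)

theorem mem_cl {r : Setoid V} {a b : V} : b ∈ cl r a ↔ r a b := by simp [cl]

theorem self_mem_cl (r : Setoid V) (a : V) : a ∈ cl r a := mem_cl.2 (r.refl a)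

theorem cl_eq_iff {r : Setoid V} {a b : V} : cl r a = cl r b ↔ r a b := by
  constructor
  · intro h
    have h1 : b ∈ cl r b := self_mem_cl r b
    rw [← h] at h1
    exact mem_cl.1 h1
  · intro h
    ext c
    rw [mem_cl, mem_cl]
    exact ⟨fun h' => r.trans (r.symm h) h', fun h' => r.trans h h'⟩

theorem mem_cls {r : Setoid V} {B : Finset V} : B ∈ cls r ↔ ∃ a, cl r a = B := by
  simp [cls, cl]

/-- the classes with at least two points -/
def bigc (r : Setoid V) : Finset (Finset V) := (cls r).filter (fun B => 2 ≤ B.card)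

theorem rel_iff (r : Setoid V) (a b : V) : r a b ↔ a = b ∨ ∃ B ∈ bigc r, a ∈ B ∧ b ∈ B := by
  constructor
  · intro h
    by_cases hab : a = b
    · exact Or.inl hab
    · refine Or.inr ⟨cl r a, ?_, self_mem_cl r a, mem_cl.2 h⟩
      rw [bigc, mem_filter]
      refine ⟨mem_cls.2 ⟨a, rfl⟩, ?_⟩
      exact one_lt_card.2 ⟨a, self_mem_cl r a, b, mem_cl.2 h, hab⟩
  · rintro (rfl | ⟨B, hB, ha, hb⟩)
    · exact r.refl a
    · obtain ⟨c, rfl⟩ := mem_cls.1 (mem_filter.1 hB).1
      exact r.trans (r.symm (mem_cl.1 ha)) (mem_cl.1 hb)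

theorem bigc_inj : Function.Injective (bigc : Setoid V → Finset (Finset V)) := by
  intro r s h
  ext a b
  rw [rel_iff r, rel_iff s, h]

theorem sum_bigc_le (f : Finset (Finset V) → ℝ) (S : Finset (Setoid V))
    (T : Finset (Finset (Finset V))) (h0 : ∀ X, 0 ≤ f X) (hT : ∀ r ∈ S, bigc r ∈ T) :
    ∑ r ∈ S, f (bigc r) ≤ ∑ X ∈ T, f X := by
  rw [← sum_image (f := f) (g := bigc) (s := S) (fun _ _ _ _ h => bigc_inj h)]
  exact sum_le_sum_of_subset_of_nonneg (image_subset_iff.2 hT) fun X _ _ => h0 X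

theorem sum_card_ge (W : ℕ → ℝ) (m : ℕ) :
    ∑ B ∈ univ.filter (fun B : Finset V => m ≤ B.card), W B.card =
      ∑ b ∈ Icc m (Fintype.card V), ((Fintype.card V).choose b : ℝ) * W b := by
  rw [sum_filter, ← powerset_univ]
  have h : ∑ B ∈ (univ : Finset V).powerset, (if m ≤ B.card then W B.card else 0)
      = ∑ b ∈ range ((univ : Finset V).card + 1),
        ((univ : Finset V).card).choose b • (if m ≤ b then W b else 0) :=
    sum_powerset_apply_card (fun b => if m ≤ b then W b else 0)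
  rw [h, card_univ]
  have h2 : Icc m (Fintype.card V) = (range (Fintype.card V + 1)).filter (fun b => m ≤ b) := by
    ext b
    simp only [mem_Icc, mem_filter, mem_range]
    omega
  rw [h2, sum_filter]
  refine sum_congr rfl fun b _ => ?_
  split_ifs <;> simp

theorem prod_one_add_le (W : ℕ → ℝ) (hW : ∀ b, 0 ≤ W b) (Bs : Finset (Finset V)) :
    ∏ B ∈ Bs, (1 + W B.card) ≤ Real.exp (∑ B ∈ Bs, W B.card) := by
  rw [Real.exp_sum]
  refine prod_le_prod (fun B _ => by have := hW B.card; linarith) fun B _ => ?_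
  have := Real.add_one_le_exp (W B.card)
  linarith

theorem prod_nonneg' (W : ℕ → ℝ) (hW : ∀ b, 0 ≤ W b) (X : Finset (Finset V)) :
    0 ≤ ∏ B ∈ X, W B.card := prod_nonneg fun B _ => hW B.card

end PLx

open PLx

theorem kk_eq (r : Setoid V) : kk r = (cls r).card := by
  have h : cls r = univ.image
      (fun q : Quotient r => Quotient.lift (cl r) (fun a b h => cl_eq_iff.2 h) q) := by
    ext B
    rw [mem_cls, mem_image]
    constructor
    · rintro ⟨a, rfl⟩
      exact ⟨Quotient.mk r a, mem_univ _, rfl⟩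
    · rintro ⟨q, _, rfl⟩
      induction q using Quotient.inductionOn with
      | h a => exact ⟨a, rfl⟩
  rw [h, card_image_of_injective, kk, Nat.card_eq_fintype_card, card_univ]
  intro q q'
  induction q using Quotient.inductionOn with
  | h a =>
    induction q' using Quotient.inductionOn with
    | h b => exact fun h => Quotient.sound (cl_eq_iff.1 h)

theorem sum_cls (r : Setoid V) : ∑ B ∈ cls r, B.card = Fintype.card V := by
  have h : (cls r).biUnion id = univ := by
    ext a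
    simp only [mem_biUnion, mem_univ, iff_true]
    exact ⟨cl r a, mem_cls.2 ⟨a, rfl⟩, self_mem_cl r a⟩
  rw [← card_univ, ← h, card_biUnion]
  · rfl
  · intro B hB B' hB' hne
    obtain ⟨a, rfl⟩ := mem_cls.1 hB
    obtain ⟨b, rfl⟩ := mem_cls.1 hB'
    show Disjoint (cl r a) (cl r b)
    rw [disjoint_left]
    intro c hc hc'
    apply hne
    rw [cl_eq_iff]
    exact r.trans (mem_cl.1 hc) (r.symm (mem_cl.1 hc'))

theorem prod_lemma (W : ℕ → ℝ) (hW : ∀ b, 0 ≤ W b) :
    ∑ r : Setoid V, ∏ B ∈ (cls r).filter (fun B => 2 ≤ B.card), W B.card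
      ≤ Real.exp (∑ b ∈ Icc 2 (Fintype.card V), ((Fintype.card V).choose b : ℝ) * W b) := by
  rw [← sum_card_ge W 2]
  refine le_trans (sum_bigc_le (fun X => ∏ B ∈ X, W B.card) univ
    (univ.filter (fun B : Finset V => 2 ≤ B.card)).powerset (prod_nonneg' W hW) ?_) ?_
  · intro r _
    rw [mem_powerset]
    intro B hB
    rw [mem_filter]
    exact ⟨mem_univ _, (mem_filter.1 hB).2⟩
  · rw [← prod_one_add]
    exact prod_one_add_le W hW _

theorem prod_lemma3 (W : ℕ → ℝ) (hW : ∀ b, 0 ≤ W b) :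
    ∑ r ∈ univ.filter (fun r : Setoid V => big3 r),
        ∏ B ∈ (cls r).filter (fun B => 2 ≤ B.card), W B.card
      ≤ (∑ b ∈ Icc 3 (Fintype.card V), ((Fintype.card V).choose b : ℝ) * W b) *
        Real.exp (∑ b ∈ Icc 2 (Fintype.card V), ((Fintype.card V).choose b : ℝ) * W b) := by
  rw [← sum_card_ge W 2, ← sum_card_ge W 3]
  set Bs : Finset (Finset V) := univ.filter (fun B : Finset V => 2 ≤ B.card) with hBs
  set B3 : Finset (Finset V) := univ.filter (fun B : Finset V => 3 ≤ B.card) with hB3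
  have h1 : ∑ r ∈ univ.filter (fun r : Setoid V => big3 r),
        ∏ B ∈ (cls r).filter (fun B => 2 ≤ B.card), W B.card
      ≤ ∑ X ∈ Bs.powerset.filter (fun X => ∃ B ∈ X, 3 ≤ B.card), ∏ B ∈ X, W B.card := by
    refine sum_bigc_le (fun X => ∏ B ∈ X, W B.card) _ _ (prod_nonneg' W hW) ?_
    intro r hr
    obtain ⟨B, hB, hB'⟩ := (mem_filter.1 hr).2
    rw [mem_filter, mem_powerset]
    refine ⟨?_, B, ?_, hB'⟩
    · intro B hB
      rw [hBs, mem_filter]
      exact ⟨mem_univ _, (mem_filter.1 hB).2⟩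
    · rw [bigc, mem_filter]
      exact ⟨hB, by omega⟩
  refine h1.trans ?_
  have h2 : ∑ X ∈ Bs.powerset.filter (fun X => ∃ B ∈ X, 3 ≤ B.card), ∏ B ∈ X, W B.card
      ≤ ∑ B0 ∈ B3, ∑ X ∈ Bs.powerset.filter (fun X => B0 ∈ X), ∏ B ∈ X, W B.card := by
    have h3 : ∀ X ∈ Bs.powerset.filter (fun X => ∃ B ∈ X, 3 ≤ B.card),
        ∏ B ∈ X, W B.card ≤ ∑ B0 ∈ B3, if B0 ∈ X then ∏ B ∈ X, W B.card else 0 := by
      intro X hX
      obtain ⟨_, B, hB, hB'⟩ := mem_filter.1 hX
      have h4 : B ∈ B3 := by rw [hB3, mem_filter]; exact ⟨mem_univ _, hB'⟩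
      refine le_trans (le_of_eq ?_) (single_le_sum (f := fun B0 =>
        if B0 ∈ X then ∏ B ∈ X, W B.card else 0) (fun B0 _ => ?_) h4)
      · simp [hB]
      · split_ifs
        · exact prod_nonneg' W hW X
        · exact le_rfl
    refine (sum_le_sum h3).trans ?_
    refine (sum_le_sum_of_subset_of_nonneg (filter_subset _ _) fun X _ _ => ?_).trans ?_
    · refine sum_nonneg fun B0 _ => ?_
      split_ifs
      · exact prod_nonneg' W hW X
      · exact le_rfl
    · rw [sum_comm]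
      refine le_of_eq (sum_congr rfl fun B0 _ => ?_)
      rw [sum_filter]
  refine h2.trans ?_
  rw [sum_mul]
  refine sum_le_sum fun B0 hB0 => ?_
  have hmem : B0 ∈ Bs := by
    rw [hBs, mem_filter]
    have := (mem_filter.1 hB0).2
    exact ⟨mem_univ _, by omega⟩
  have h5 : ∑ X ∈ Bs.powerset.filter (fun X => B0 ∈ X), ∏ B ∈ X, W B.card
      = W B0.card * ∑ X ∈ (Bs.erase B0).powerset, ∏ B ∈ X, W B.card := by
    rw [mul_sum]
    refine sum_nbij' (fun X => X.erase B0) (fun X => insert B0 X) ?_ ?_ ?_ ?_ ?_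
    · intro X hX
      rw [mem_filter, mem_powerset] at hX
      rw [mem_powerset]
      exact erase_subset_erase _ hX.1
    · intro X hX
      rw [mem_powerset] at hX
      rw [mem_filter, mem_powerset]
      refine ⟨?_, mem_insert_self _ _⟩
      intro B hB
      rcases mem_insert.1 hB with rfl | hB
      · exact hmem
      · exact (mem_erase.1 (hX hB)).2
    · intro X hX
      exact insert_erase (mem_filter.1 hX).2
    · intro X hX
      rw [mem_powerset] at hX
      exact erase_insert fun h => (mem_erase.1 (hX h)).1 rfl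
    · intro X hX
      exact (mul_prod_erase X (fun B => W B.card) (mem_filter.1 hX).2).symm
  rw [h5]
  refine mul_le_mul_of_nonneg_left ?_ (hW _)
  rw [← prod_one_add]
  refine (prod_one_add_le W hW _).trans ?_
  refine Real.exp_le_exp.2 ?_
  exact sum_le_sum_of_subset_of_nonneg (erase_subset _ _) fun B _ _ => hW _

namespace PLx

theorem card_pos_of_mem_cls {r : Setoid V} {B : Finset V} (hB : B ∈ cls r) : 1 ≤ B.card := by
  obtain ⟨a, rfl⟩ := mem_cls.1 hB
  exact card_pos.2 ⟨a, self_mem_cl r a⟩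

theorem kk_le (r : Setoid V) : kk r ≤ Fintype.card V := by
  rw [kk_eq, ← sum_cls r, card_eq_sum_ones]
  exact sum_le_sum fun B hB => card_pos_of_mem_cls hB

theorem kk_pos [Nonempty V] (r : Setoid V) : 1 ≤ kk r := by
  rw [kk_eq]
  refine card_pos.2 ⟨cl r (Classical.arbitrary V), mem_cls.2 ⟨_, rfl⟩⟩

theorem sum_sub_one (r : Setoid V) :
    ∑ B ∈ (cls r).filter (fun B => 2 ≤ B.card), (B.card - 1) = Fintype.card V - kk r := by
  have h1 : ∑ B ∈ (cls r).filter (fun B => 2 ≤ B.card), (B.card - 1)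
      = ∑ B ∈ cls r, (B.card - 1) := by
    refine sum_subset (filter_subset _ _) fun B hB hB' => ?_
    have : ¬ 2 ≤ B.card := fun h => hB' (mem_filter.2 ⟨hB, h⟩)
    omega
  rw [h1]
  have h2 : ∑ B ∈ cls r, (B.card - 1) + ∑ B ∈ cls r, 1 = ∑ B ∈ cls r, B.card := by
    rw [← sum_add_distrib]
    refine sum_congr rfl fun B hB => ?_
    have := card_pos_of_mem_cls hB
    omega
  rw [sum_cls, ← card_eq_sum_ones, ← kk_eq] at h2
  omega

theorem prod_pow_cls (r : Setoid V) (x : ℝ) :
    ∏ B ∈ (cls r).filter (fun B => 2 ≤ B.card), x ^ (B.card - 1)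
      = x ^ (Fintype.card V - kk r) := by
  rw [prod_pow_eq_pow_sum, sum_sub_one]

/-- `(k+m)^m k! ≤ (k+m)! e^m` -/
theorem fact_aux (k m : ℕ) :
    ((k + m : ℕ) : ℝ) ^ m * (k ! : ℝ) ≤ ((k + m)! : ℝ) * Real.exp 1 ^ m := by
  induction m with
  | zero => simp
  | succ m ih =>
    rcases Nat.eq_zero_or_pos (k + m) with h0 | hpos
    · have hk : k = 0 := by omega
      have hm : m = 0 := by omega
      subst hk hm
      have := Real.add_one_le_exp (1 : ℝ)
      simp
    · have hp : (0 : ℝ) < ((k + m : ℕ) : ℝ) := by exact_mod_cast hpos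
      have h1 : (((k + m : ℕ) : ℝ) + 1) ^ m ≤ ((k + m : ℕ) : ℝ) ^ m * Real.exp 1 := by
        have h2 : ((k + m : ℕ) : ℝ) + 1 = ((k + m : ℕ) : ℝ) * (1 / ((k + m : ℕ) : ℝ) + 1) := by
          field_simp
          ring
        have h3 : (1 / ((k + m : ℕ) : ℝ) + 1) ^ m ≤ Real.exp 1 := by
          have h4 := Real.add_one_le_exp (1 / ((k + m : ℕ) : ℝ))
          calc (1 / ((k + m : ℕ) : ℝ) + 1) ^ m ≤ (Real.exp (1 / ((k + m : ℕ) : ℝ))) ^ m :=
                pow_le_pow_left₀ (by positivity) h4 m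
            _ = Real.exp (m * (1 / ((k + m : ℕ) : ℝ))) := by rw [← Real.exp_nat_mul]
            _ ≤ Real.exp 1 := by
                refine Real.exp_le_exp.2 ?_
                rw [mul_one_div, div_le_one hp]
                push_cast
                have : (0 : ℝ) ≤ k := Nat.cast_nonneg k
                linarith
        rw [h2, mul_pow]
        exact mul_le_mul_of_nonneg_left h3 (by positivity)
      have h5 : ((k + (m + 1) : ℕ) : ℝ) = ((k + m : ℕ) : ℝ) + 1 := by push_cast; ring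
      have h6 : ((k + (m + 1))! : ℝ) = (((k + m : ℕ) : ℝ) + 1) * ((k + m)! : ℝ) := by
        rw [show k + (m + 1) = (k + m) + 1 by ring, Nat.factorial_succ]
        push_cast
        ring
      rw [h5, h6]
      have hf : (0 : ℝ) ≤ (k ! : ℝ) := by positivity
      have he : 0 < Real.exp 1 := Real.exp_pos 1
      calc (((k + m : ℕ) : ℝ) + 1) ^ (m + 1) * (k ! : ℝ)
          = (((k + m : ℕ) : ℝ) + 1) * ((((k + m : ℕ) : ℝ) + 1) ^ m * (k ! : ℝ)) := by ring
        _ ≤ (((k + m : ℕ) : ℝ) + 1) * ((((k + m : ℕ) : ℝ) ^ m * Real.exp 1) * (k ! : ℝ)) := by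
            gcongr
        _ = (((k + m : ℕ) : ℝ) + 1) * Real.exp 1 * ((((k + m : ℕ) : ℝ) ^ m) * (k ! : ℝ)) := by ring
        _ ≤ (((k + m : ℕ) : ℝ) + 1) * Real.exp 1 * (((k + m)! : ℝ) * Real.exp 1 ^ m) := by
            gcongr
        _ = _ := by ring

theorem fact_le {k n : ℕ} (h : k ≤ n) :
    (k ! : ℝ) ≤ (n ! : ℝ) * (Real.exp 1 / n) ^ (n - k) := by
  obtain ⟨m, rfl⟩ := Nat.exists_eq_add_of_le h
  have h1 := fact_aux k m
  rw [Nat.add_sub_cancel_left]
  rcases Nat.eq_zero_or_pos (k + m) with h0 | hpos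
  · have hk : k = 0 := by omega
    have hm : m = 0 := by omega
    subst hk hm
    simp
  · have hp : (0 : ℝ) < ((k + m : ℕ) : ℝ) := by exact_mod_cast hpos
    rw [div_pow, ← mul_div_assoc, le_div_iff₀ (by positivity), mul_comm]
    exact h1

theorem choose_le (n b : ℕ) : (n.choose b : ℝ) ≤ (n : ℝ) ^ b / (b ! : ℝ) :=
  Nat.choose_le_pow_div b n

theorem exp_e_le : Real.exp (Real.exp 1 - 1) ≤ 6 := by
  have h1 : Real.exp 1 - 1 ≤ 1 + 8 * (9 / 100) := by
    have := Real.exp_one_lt_d9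
    linarith
  have h2 : Real.exp (9 / 100) ≤ 100 / 91 := by
    have h3 := Real.add_one_le_exp (-(9 / 100) : ℝ)
    rw [Real.exp_neg] at h3
    have h4 := Real.exp_pos (9 / 100 : ℝ)
    have h5 : (91 / 100 : ℝ) ≤ (Real.exp (9 / 100))⁻¹ := by linarith
    have h6 := mul_le_mul_of_nonneg_right h5 h4.le
    rw [inv_mul_cancel₀ h4.ne'] at h6
    linarith
  calc Real.exp (Real.exp 1 - 1) ≤ Real.exp (1 + 8 * (9 / 100)) := Real.exp_le_exp.2 h1
    _ = Real.exp 1 * Real.exp (9 / 100) ^ 8 := by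
        rw [Real.exp_add, ← Real.exp_nat_mul]
        norm_num
    _ ≤ 2.7182818286 * (100 / 91) ^ 8 := by
        have := Real.exp_one_lt_d9
        gcongr
    _ ≤ 6 := by norm_num

end PLx

/-- crude sum: `∑_r k(r)! ≤ n! e^(6n)` -/
theorem sum_fact_le (V : Type) [Fintype V] :
    ∑ r : Setoid V, (((kk r)! : ℕ) : ℝ)
      ≤ ((Fintype.card V)! : ℝ) * Real.exp (6 * (Fintype.card V : ℝ)) := by
  set n := Fintype.card V with hn
  have he : 0 < Real.exp 1 := Real.exp_pos 1
  have h1 : ∑ r : Setoid V, (((kk r)! : ℕ) : ℝ) ≤ ∑ r : Setoid V, (n ! : ℝ) *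
      ∏ B ∈ (cls r).filter (fun B => 2 ≤ B.card), (fun b : ℕ => (Real.exp 1 / n) ^ (b - 1)) B.card := by
    refine sum_le_sum fun r _ => ?_
    have := prod_pow_cls r (Real.exp 1 / n)
    dsimp only
    rw [this]
    exact fact_le (kk_le r)
  refine h1.trans ?_
  rw [← mul_sum]
  refine mul_le_mul_of_nonneg_left ?_ (by positivity)
  refine (prod_lemma (V := V) (fun b : ℕ => (Real.exp 1 / n) ^ (b - 1))
    (fun b => by positivity)).trans ?_
  refine Real.exp_le_exp.2 ?_
  rcases Nat.eq_zero_or_pos n with h0 | hpos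
  · rw [← hn, h0]
    simp
  have hp : (0 : ℝ) < n := by exact_mod_cast hpos
  have h2 : ∀ b ∈ Icc 2 n, (n.choose b : ℝ) * (Real.exp 1 / n) ^ (b - 1)
      ≤ n / Real.exp 1 * (Real.exp 1 ^ b / (b ! : ℝ)) := by
    intro b hb
    have hb2 : 2 ≤ b := (mem_Icc.1 hb).1
    obtain ⟨c, rfl⟩ : ∃ c, b = c + 1 := ⟨b - 1, by omega⟩
    rw [Nat.add_sub_cancel]
    calc (n.choose (c + 1) : ℝ) * (Real.exp 1 / n) ^ c
        ≤ ((n : ℝ) ^ (c + 1) / ((c + 1)! : ℝ)) * (Real.exp 1 / n) ^ c := by
          gcongr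
          exact choose_le n (c + 1)
      _ = n / Real.exp 1 * (Real.exp 1 ^ (c + 1) / ((c + 1)! : ℝ)) := by
          rw [div_pow]
          field_simp
          ring
  refine (sum_le_sum h2).trans ?_
  rw [← mul_sum]
  have h3 : ∑ b ∈ Icc 2 n, (Real.exp 1 ^ b / (b ! : ℝ)) ≤ Real.exp (Real.exp 1) := by
    refine le_trans (sum_le_sum_of_subset_of_nonneg (t := range (n + 1)) ?_ ?_)
      (Real.sum_le_exp_of_nonneg he.le (n + 1))
    · intro b hb
      rw [mem_Icc] at hb
      rw [mem_range]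
      omega
    · intro b _ _
      positivity
  calc n / Real.exp 1 * ∑ b ∈ Icc 2 n, (Real.exp 1 ^ b / (b ! : ℝ))
      ≤ n / Real.exp 1 * Real.exp (Real.exp 1) := by gcongr
    _ = n * Real.exp (Real.exp 1 - 1) := by rw [Real.exp_sub]; ring
    _ ≤ n * 6 := by
        gcongr
        exact exp_e_le
    _ = 6 * n := by ring

theorem cc_le [Nonempty V] (s : Setoid V) (w : Sym2 V → ℝ) (hw : ∀ e, |w e| ≤ 1) :
    cc s w ≤ ww s := by
  have hmu : ∀ r : Setoid V, |mu (kk r)| ≤ ((kk r)! : ℝ) := by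
    intro r
    rw [mu, abs_mul, abs_pow, abs_neg, abs_one, one_pow, one_mul, Nat.abs_cast]
    exact_mod_cast Nat.factorial_le (Nat.sub_le _ _)
  have h1 : |DD s w| ≤ ∑ r ∈ univ.filter (fun r : Setoid V => s ≤ r), ((kk r)! : ℝ) := by
    refine (abs_sum_le_sum_abs _ _).trans (sum_le_sum fun r _ => ?_)
    rw [abs_mul, abs_prod]
    have h2 : ∏ e ∈ inn r \ inn s, |w e| ≤ 1 :=
      prod_le_one (fun e _ => abs_nonneg _) fun e _ => hw e
    calc |mu (kk r)| * ∏ e ∈ inn r \ inn s, |w e| ≤ |mu (kk r)| * 1 :=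
          mul_le_mul_of_nonneg_left h2 (abs_nonneg _)
      _ ≤ _ := by rw [mul_one]; exact hmu r
  have h3 : cc s w ≤ |DD s w| := by
    rw [cc]
    refine (le_abs_self _).trans ?_
    rw [abs_mul, abs_pow, abs_neg, abs_one, one_pow, one_mul]
  refine h3.trans (h1.trans ?_)
  -- correspondence with partitions of the quotient
  have h4 : ∑ r ∈ univ.filter (fun r : Setoid V => s ≤ r), ((kk r)! : ℝ)
      = ∑ t : Setoid (Quotient s), ((kk t)! : ℝ) := by
    refine (sum_bij (fun (t : Setoid (Quotient s)) _ => Setoid.comap (Quotient.mk s) t)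
      ?_ ?_ ?_ ?_).symm
    · intro t _
      rw [mem_filter]
      refine ⟨mem_univ _, ?_⟩
      intro a b hab
      show t (Quotient.mk s a) (Quotient.mk s b)
      rw [Quotient.sound hab]
    · intro t _ t' _ h
      ext a b
      induction a using Quotient.inductionOn with
      | h a =>
        induction b using Quotient.inductionOn with
        | h b =>
          have := congrArg (fun r : Setoid V => r a b) h
          exact iff_of_eq this
    · intro r hr
      have hsr := (mem_filter.1 hr).2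
      refine ⟨(Setoid.correspondence s) ⟨r, hsr⟩, mem_univ _, ?_⟩
      have := (Setoid.correspondence s).symm_apply_apply ⟨r, hsr⟩
      exact congrArg Subtype.val this
    · intro t _
      congr 2
      rw [kk, kk]
      refine Nat.card_congr (Equiv.symm ?_)
      refine (Setoid.comapQuotientEquiv (Quotient.mk s) t).trans ?_
      refine (Equiv.setCongr ?_).trans (Equiv.Set.univ _)
      refine Set.range_eq_univ.2 ?_
      intro q
      induction q using Quotient.inductionOn with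
      | h a =>
        induction a using Quotient.inductionOn with
        | h a => exact ⟨a, rfl⟩
  rw [h4]
  refine (sum_fact_le (Quotient s)).trans (le_of_eq ?_)
  rw [ww, kk, Nat.card_eq_fintype_card]

theorem sum_mu_sq : ∃ C : ℝ, 0 < C ∧ ∀ (V : Type) [Fintype V] [Nonempty V],
    ∑ r : Setoid V, (mu (kk r)) ^ 2 ≤ C * ((Fintype.card V - 1)! : ℝ) ^ 2 := by
  refine ⟨Real.exp (Real.exp (4 * Real.exp 1 ^ 2)), Real.exp_pos _, fun V _ _ => ?_⟩
  set n := Fintype.card V with hn
  have hpos : 0 < n := Fintype.card_pos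
  have hp : (0 : ℝ) < n := by exact_mod_cast hpos
  have he : 0 < Real.exp 1 := Real.exp_pos 1
  have he1 : 1 ≤ 4 * Real.exp 1 ^ 2 := by
    have : 1 ≤ Real.exp 1 := Real.one_le_exp (by norm_num)
    nlinarith
  have h1 : ∀ r : Setoid V, (mu (kk r)) ^ 2 ≤ ((n - 1)! : ℝ) ^ 2 *
      ∏ B ∈ (cls r).filter (fun B => 2 ≤ B.card),
        (fun b : ℕ => (4 * Real.exp 1 ^ 2 / (n : ℝ) ^ 2) ^ (b - 1)) B.card := by
    intro r
    have hk1 := kk_pos r
    have hkn := kk_le r
    rw [← hn] at hkn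
    have h2 := prod_pow_cls r (4 * Real.exp 1 ^ 2 / (n : ℝ) ^ 2)
    dsimp only
    rw [h2, ← hn]
    have hkp : (0 : ℝ) < kk r := by exact_mod_cast hk1
    have h3 : ((kk r - 1)! : ℝ) ≤ ((n - 1)! : ℝ) * (2 * Real.exp 1 / n) ^ (n - kk r) := by
      have h4 := fact_le hkn
      have h5 : ((kk r)! : ℝ) = kk r * ((kk r - 1)! : ℝ) := by
        exact_mod_cast (Nat.mul_factorial_pred (by omega)).symm
      have h6 : (n ! : ℝ) = n * ((n - 1)! : ℝ) := by
        exact_mod_cast (Nat.mul_factorial_pred (by omega)).symm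
      rw [h5, h6] at h4
      have h7 : (n : ℝ) ≤ kk r * 2 ^ (n - kk r) := by
        have h8 : n - kk r + 1 ≤ 2 ^ (n - kk r) := Nat.lt_two_pow_self
        have h9 : n ≤ kk r * 2 ^ (n - kk r) := by
          calc n ≤ kk r * (n - kk r + 1) := by
                obtain ⟨m, hm⟩ := Nat.exists_eq_add_of_le hkn
                rw [hm, Nat.add_sub_cancel_left]
                nlinarith
            _ ≤ _ := Nat.mul_le_mul_left _ h8
        exact_mod_cast h9
      have h10 : (kk r : ℝ) * ((kk r - 1)! : ℝ) ≤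
          kk r * (((n - 1)! : ℝ) * (2 * Real.exp 1 / n) ^ (n - kk r)) := by
        refine h4.trans ?_
        have h11 : (2 * Real.exp 1 / n) ^ (n - kk r)
            = 2 ^ (n - kk r) * (Real.exp 1 / n) ^ (n - kk r) := by
          rw [← mul_pow]
          congr 1
          ring
        rw [h11]
        calc (n : ℝ) * ((n - 1)! : ℝ) * (Real.exp 1 / n) ^ (n - kk r)
            ≤ (kk r * 2 ^ (n - kk r)) * ((n - 1)! : ℝ) * (Real.exp 1 / n) ^ (n - kk r) := by
              gcongr
          _ = _ := by ring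
      exact le_of_mul_le_mul_left h10 hkp
    have h12 : (mu (kk r)) ^ 2 = ((kk r - 1)! : ℝ) ^ 2 := by
      rw [mu, mul_pow, ← pow_mul, mul_comm (kk r - 1) 2, pow_mul]
      norm_num
    rw [h12]
    calc ((kk r - 1)! : ℝ) ^ 2
        ≤ (((n - 1)! : ℝ) * (2 * Real.exp 1 / n) ^ (n - kk r)) ^ 2 := by gcongr
      _ = ((n - 1)! : ℝ) ^ 2 * (4 * Real.exp 1 ^ 2 / (n : ℝ) ^ 2) ^ (n - kk r) := by
          rw [mul_pow, ← pow_mul, mul_comm (n - kk r) 2, pow_mul]
          congr 2
          ring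
  refine (sum_le_sum fun r _ => h1 r).trans ?_
  rw [← mul_sum, mul_comm]
  refine mul_le_mul_of_nonneg_right ?_ (by positivity)
  refine (prod_lemma (V := V) (fun b : ℕ => (4 * Real.exp 1 ^ 2 / (n : ℝ) ^ 2) ^ (b - 1))
    (fun b => by positivity)).trans ?_
  refine Real.exp_le_exp.2 ?_
  rw [← hn]
  have h2 : ∀ b ∈ Icc 2 n, (n.choose b : ℝ) * (4 * Real.exp 1 ^ 2 / (n : ℝ) ^ 2) ^ (b - 1)
      ≤ (4 * Real.exp 1 ^ 2) ^ b / (b ! : ℝ) := by
    intro b hb
    have hb2 : 2 ≤ b := (mem_Icc.1 hb).1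
    obtain ⟨c, rfl⟩ : ∃ c, b = c + 2 := ⟨b - 2, by omega⟩
    have hcc : c + 2 - 1 = c + 1 := by omega
    rw [hcc]
    have hn1 : (1 : ℝ) ≤ n := by exact_mod_cast hpos
    calc (n.choose (c + 2) : ℝ) * (4 * Real.exp 1 ^ 2 / (n : ℝ) ^ 2) ^ (c + 1)
        ≤ ((n : ℝ) ^ (c + 2) / ((c + 2)! : ℝ)) * (4 * Real.exp 1 ^ 2 / (n : ℝ) ^ 2) ^ (c + 1) := by
          gcongr
          exact choose_le n (c + 2)
      _ = (4 * Real.exp 1 ^ 2) ^ (c + 1) / ((c + 2)! : ℝ) * (1 / (n : ℝ) ^ c) := by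
          rw [div_pow]
          field_simp
          ring
      _ ≤ (4 * Real.exp 1 ^ 2) ^ (c + 1) / ((c + 2)! : ℝ) * 1 := by
          gcongr
          rw [div_le_one (by positivity)]
          exact one_le_pow₀ hn1
      _ ≤ (4 * Real.exp 1 ^ 2) ^ (c + 2) / ((c + 2)! : ℝ) := by
          rw [mul_one]
          refine div_le_div_of_nonneg_right ?_ (by positivity)
          exact pow_le_pow_right₀ he1 (by omega)
  refine (sum_le_sum h2).trans ?_
  refine le_trans (sum_le_sum_of_subset_of_nonneg (t := range (n + 1)) ?_ ?_)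
    (Real.sum_le_exp_of_nonneg (by positivity) (n + 1))
  · intro b hb
    rw [mem_Icc] at hb
    rw [mem_range]
    omega
  · intro b _ _
    positivity

end

end Pool.Agent.R88.RR
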