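import Pool.Agent.R88.RR.Pos
import Pool.Agent.R88.RR.PL
import Pool.Agent.R88.RR.LM
import Pool.Agent.R88.RR.Exp

set_option autoImplicit false

namespace Pool.Agent.R88.RR

open Finset
open scoped Classical Nat

noncomputable section

variable {V : Type} [Fintype V]

/-- the normalised value at `q = -1/(1+x)` -/
def cx (A : Finset (Sym2 V)) (x : ℝ) : ℝ :=
  (-1) ^ (Fintype.card V - 1) * DD (⊥ : Setoid V) (fun e => if e ∈ A then -(1 + x) else 1)

/-- connected spanning part -/
def KK (A : Finset (Sym2 V)) (x : ℝ) : ℝ :=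
  ∑ F ∈ A.powerset.filter (fun F : Finset (Sym2 V) => comp F = ⊤), x ^ F.card

/-- giant part -/
def Gi (A : Finset (Sym2 V)) (x : ℝ) : ℝ :=
  ∑ F ∈ A.powerset.filter (fun F : Finset (Sym2 V) => ¬ small (comp F) ∧ comp F ≠ ⊤),
    x ^ F.card * cc (comp F) (sg A)

/-- two classes, no giant -/
def Y2 (l : ℝ) (A : Finset (Sym2 V)) : ℝ :=
  ∑ s ∈ univ.filter (fun s : Setoid V => small s ∧ kk s = 2), (l⁻¹) ^ (A \ inn s).card

theorem abs_sg (A : Finset (Sym2 V)) (e : Sym2 V) : |sg A e| ≤ 1 := by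
  unfold sg
  split_ifs <;> simp

theorem kk_top [Nonempty V] : kk (⊤ : Setoid V) = 1 := by
  unfold kk
  rw [Nat.card_eq_one_iff_unique]
  refine ⟨⟨?_⟩, ⟨⟦Classical.arbitrary V⟧⟩⟩
  intro a b
  induction a using Quotient.ind with
  | _ a =>
    induction b using Quotient.ind with
    | _ b => exact Quotient.sound trivial

theorem cc_top [Nonempty V] (w : Sym2 V → ℝ) : cc (⊤ : Setoid V) w = 1 := by
  unfold cc DD
  have h : (univ.filter (fun r : Setoid V => (⊤ : Setoid V) ≤ r)) = {⊤} := by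
    ext r; simp
  rw [h, sum_singleton, kk_top]
  simp [mu]

theorem comp_empty : comp (∅ : Finset (Sym2 V)) = ⊥ := by
  rw [← le_bot_iff, comp_le_iff _ (empty_subset _)]
  exact empty_subset _

theorem mem_cls (s : Setoid V) (a : V) : univ.filter (fun b => s a b) ∈ cls s :=
  mem_image_of_mem _ (mem_univ a)

theorem not_small_top [Nonempty V] : ¬ small (⊤ : Setoid V) := by
  intro h
  have h1 := h _ (mem_cls ⊤ (Classical.arbitrary V))
  have h2 : (univ.filter (fun b : V => (⊤ : Setoid V) (Classical.arbitrary V) b)) = univ := by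
    ext b
    simp only [mem_filter, mem_univ, true_and, iff_true]
    trivial
  rw [h2, card_univ] at h1
  have : 0 < Fintype.card V := Fintype.card_pos
  omega

theorem big3_top [Nonempty V] (hn : 3 ≤ Fintype.card V) : big3 (⊤ : Setoid V) := by
  refine ⟨_, mem_cls ⊤ (Classical.arbitrary V), ?_⟩
  have h2 : (univ.filter (fun b : V => (⊤ : Setoid V) (Classical.arbitrary V) b)) = univ := by
    ext b
    simp only [mem_filter, mem_univ, true_and, iff_true]
    trivial
  rw [h2, card_univ]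
  exact hn

theorem small_of_not_big3 (hn : 3 ≤ Fintype.card V) (s : Setoid V) (h : ¬ big3 s) : small s := by
  intro B hB
  by_contra hc
  apply h
  refine ⟨B, hB, ?_⟩
  omega

theorem not_big3_of_mat (F : Finset (Sym2 V)) (hF : F ⊆ EE V) (hM : Mat F) :
    ¬ big3 (comp F) := by
  rintro ⟨B, hB, h3⟩
  obtain ⟨a, b, c, ha, hb, hc, hab, hac, hbc⟩ := Finset.two_lt_card_iff.1 h3
  unfold cls at hB
  rw [mem_image] at hB
  obtain ⟨u, -, rfl⟩ := hB
  simp only [mem_filter, mem_univ, true_and] at ha hb hc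
  have h1 : s(a, b) ∈ inn (comp F) := by
    rw [mem_inn]; exact ⟨hab, (comp F).trans' ((comp F).symm' ha) hb⟩
  have h2 : s(a, c) ∈ inn (comp F) := by
    rw [mem_inn]; exact ⟨hac, (comp F).trans' ((comp F).symm' ha) hc⟩
  rw [inn_comp_mat F hF hM] at h1 h2
  apply hM _ h1 _ h2 _ a (by simp)
  intro h
  rw [Sym2.eq_iff] at h
  rcases h with ⟨-, h⟩ | ⟨h, -⟩
  · exact hbc h
  · exact hac h

theorem DD_eq_cc (s : Setoid V) (w : Sym2 V → ℝ) : DD s w = (-1) ^ (kk s - 1) * cc s w := by
  unfold cc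
  rw [← mul_assoc, ← mul_pow]
  simp

theorem cx_eq (A : Finset (Sym2 V)) (hA : A ⊆ EE V) (x : ℝ) :
    cx A x = ∑ F ∈ A.powerset, x ^ F.card *
      ((-1) ^ (Fintype.card V - 1 + (A ∩ inn (comp F)).card + (kk (comp F) - 1)) *
        cc (comp F) (sg A)) := by
  unfold cx
  rw [expansion A hA, mul_sum]
  apply sum_congr rfl
  intro F _
  rw [DD_eq_cc, pow_add, pow_add]
  ring

theorem asm_lower [Nonempty V] (hn : 5 ≤ Fintype.card V) (A : Finset (Sym2 V)) (hA : A ⊆ EE V)
    (hpar : Even (A.card + Fintype.card V + 1)) (x : ℝ) (hx : 0 ≤ x) :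
    cc (⊥ : Setoid V) (sg A) + x ^ 3 * S3 A + KK A x - BS x A - Gi A x ≤ cx A x := by
  rw [cx_eq A hA]
  have e0 : cc (⊥ : Setoid V) (sg A) =
      ∑ F ∈ A.powerset, if F = ∅ then cc (⊥ : Setoid V) (sg A) else 0 := by
    rw [sum_ite_eq' A.powerset ∅, if_pos (empty_mem_powerset A)]
  have e1 : x ^ 3 * S3 A = ∑ F ∈ A.powerset, if (F.card = 3 ∧ Mat F) then
      x ^ 3 * cc (comp F) (sg A) else 0 := by
    unfold S3
    rw [mul_sum, sum_filter]
  have e2 : KK A x = ∑ F ∈ A.powerset, if comp F = ⊤ then x ^ F.card else 0 := by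
    unfold KK; rw [sum_filter]
  have e3 : BS x A = ∑ F ∈ A.powerset, if big3 (comp F) ∧ small (comp F) then
      x ^ F.card * cc (comp F) (sg A) else 0 := by
    unfold BS; rw [sum_filter]
  have e4 : Gi A x = ∑ F ∈ A.powerset, if ¬ small (comp F) ∧ comp F ≠ ⊤ then
      x ^ F.card * cc (comp F) (sg A) else 0 := by
    unfold Gi; rw [sum_filter]
  rw [e1, e2, e3, e4]
  conv_lhs => rw [e0]
  rw [← sum_add_distrib, ← sum_add_distrib, ← sum_sub_distrib, ← sum_sub_distrib]
  apply sum_le_sum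
  intro F hF
  rw [mem_powerset] at hF
  have hFE : F ⊆ EE V := hF.trans hA
  have hc0 : 0 ≤ cc (comp F) (sg A) := cc_nonneg _ _ (abs_sg A)
  have hxc : 0 ≤ x ^ F.card := by positivity
  have hprod : 0 ≤ x ^ F.card * cc (comp F) (sg A) := mul_nonneg hxc hc0
  have hMat0 : Mat (∅ : Finset (Sym2 V)) := by intro e he; simp at he
  have hge : - (x ^ F.card * cc (comp F) (sg A)) ≤ x ^ F.card *
      ((-1) ^ (Fintype.card V - 1 + (A ∩ inn (comp F)).card + (kk (comp F) - 1)) *
        cc (comp F) (sg A)) := by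
    rcases neg_one_pow_eq_or ℝ
      (Fintype.card V - 1 + (A ∩ inn (comp F)).card + (kk (comp F) - 1)) with h | h
    · rw [h]; linarith
    · rw [h]; linarith
  by_cases hb : big3 (comp F)
  · have hnM : ¬ Mat F := fun h => not_big3_of_mat F hFE h hb
    have hne : F ≠ ∅ := fun h => hnM (h ▸ hMat0)
    rw [if_neg hne, if_neg (fun h : F.card = 3 ∧ Mat F => hnM h.2)]
    by_cases ht : comp F = ⊤
    · have hns : ¬ small (comp F) := ht ▸ not_small_top
      rw [if_pos ht, if_neg (fun h => hns h.2), if_neg (fun h => h.2 ht), ht, cc_top, kk_top,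
        inn_top]
      have h1 : A ∩ EE V = A := inter_eq_left.2 hA
      rw [h1]
      have h2 : Even (Fintype.card V - 1 + A.card + (1 - 1)) := by
        rw [Nat.even_iff] at hpar ⊢
        omega
      rw [h2.neg_one_pow]
      simp
    · rw [if_neg ht]
      by_cases hs : small (comp F)
      · rw [if_pos ⟨hb, hs⟩, if_neg (fun h => h.1 hs)]
        linarith
      · rw [if_neg (fun h => hs h.2), if_pos ⟨hs, ht⟩]
        linarith
  · have hs : small (comp F) := small_of_not_big3 (by omega) _ hb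
    have ht : comp F ≠ ⊤ := fun h => not_small_top (h ▸ hs)
    have hM : Mat F := mat_of_not_big3 F hFE hb
    rw [if_neg ht, if_neg (fun h : big3 (comp F) ∧ small (comp F) => hb h.1),
      if_neg (fun h : ¬ small (comp F) ∧ comp F ≠ ⊤ => h.1 hs)]
    have h1 : A ∩ inn (comp F) = F := by
      rw [inn_comp_mat F hFE hM]; exact inter_eq_right.2 hF
    have h2 := kk_comp_mat F hFE hM
    have hk : 1 ≤ kk (comp F) := by
      unfold kk
      haveI : Nonempty (Quotient (comp F)) := ⟨⟦Classical.arbitrary V⟧⟩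
      exact Nat.card_pos
    have h3 : Even (Fintype.card V - 1 + (A ∩ inn (comp F)).card + (kk (comp F) - 1)) := by
      rw [h1, Nat.even_iff]
      omega
    rw [h3.neg_one_pow, one_mul]
    by_cases hF0 : F = ∅
    · subst hF0
      rw [if_pos rfl, if_neg (by simp), comp_empty]
      simp
    · rw [if_neg hF0]
      by_cases hc3 : F.card = 3
      · rw [if_pos ⟨hc3, hM⟩, hc3]
        simp
      · rw [if_neg (fun h => hc3 h.1)]
        simpa using hprod

end

end Pool.Agent.R88.RR
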