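import Pool.Agent.R88.RR.Asm1

set_option autoImplicit false

namespace Pool.Agent.R88.RR

open Finset
open scoped Classical Nat

noncomputable section

variable {V : Type} [Fintype V]

theorem ww_pos (s : Setoid V) : 0 < ww s := by
  unfold ww
  positivity

theorem one_le_ww (s : Setoid V) : 1 ≤ ww s := by
  unfold ww
  have h1 : (1 : ℝ) ≤ (((kk s)! : ℕ) : ℝ) := by
    exact_mod_cast Nat.factorial_pos (kk s)
  have h2 : (1 : ℝ) ≤ Real.exp (6 * (kk s : ℝ)) := Real.one_le_exp (by positivity)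
  nlinarith

theorem sum_sub_inn (A : Finset (Sym2 V)) (s : Setoid V) (x : ℝ) :
    ∑ F ∈ A.powerset, (if F ⊆ inn s then x ^ F.card else 0) = (1 + x) ^ (A ∩ inn s).card := by
  rw [← sum_filter]
  have h5 : A.powerset.filter (fun F => F ⊆ inn s) = (A ∩ inn s).powerset := by
    ext F
    simp only [mem_filter, mem_powerset, subset_inter_iff]
  rw [h5, add_comm, ← sum_pow_mul_eq_add_pow]
  apply sum_congr rfl
  intro F _
  simp

theorem comp_sub_inn (F : Finset (Sym2 V)) (hF : F ⊆ EE V) : F ⊆ inn (comp F) :=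
  (comp_le_iff F hF _).1 le_rfl

theorem crude_bound [Nonempty V] (A : Finset (Sym2 V)) (hA : A ⊆ EE V) (x : ℝ) (hx : 0 ≤ x)
    (P : Setoid V → Prop) [DecidablePred P] :
    ∑ F ∈ A.powerset.filter (fun F : Finset (Sym2 V) => P (comp F)),
        x ^ F.card * cc (comp F) (sg A)
      ≤ ∑ s ∈ univ.filter (fun s : Setoid V => P s), ww s * (1 + x) ^ (A ∩ inn s).card := by
  have h1 : ∀ F ∈ A.powerset.filter (fun F : Finset (Sym2 V) => P (comp F)),
      x ^ F.card * cc (comp F) (sg A) ≤
        ∑ s ∈ univ.filter (fun s : Setoid V => P s),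
          (if F ⊆ inn s then ww s * x ^ F.card else 0) := by
    intro F hF
    rw [mem_filter, mem_powerset] at hF
    have hFE := hF.1.trans hA
    have h2 : (if F ⊆ inn (comp F) then ww (comp F) * x ^ F.card else 0) ≤
        ∑ s ∈ univ.filter (fun s : Setoid V => P s),
          (if F ⊆ inn s then ww s * x ^ F.card else 0) := by
      apply single_le_sum (f := fun s : Setoid V => (if F ⊆ inn s then ww s * x ^ F.card else 0))
      · intro s _
        have := (ww_pos s).le
        positivity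
      · simp [hF.2]
    rw [if_pos (comp_sub_inn F hFE)] at h2
    refine le_trans ?_ h2
    rw [mul_comm]
    apply mul_le_mul_of_nonneg_right (cc_le _ _ (abs_sg A)) (by positivity)
  refine (sum_le_sum h1).trans ?_
  rw [sum_comm]
  apply sum_le_sum
  intro s _
  rw [← sum_sub_inn A s x, mul_sum]
  refine (sum_le_sum_of_subset_of_nonneg (filter_subset _ _) ?_).trans ?_
  · intro F _ _
    have := (ww_pos s).le
    positivity
  · apply sum_le_sum
    intro F _
    split_ifs <;> simp

theorem pow_split (A : Finset (Sym2 V)) (s : Setoid V) (x l : ℝ) (hl : 0 < l) (hlx : l ≤ 1 + x) :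
    (1 + x) ^ (A ∩ inn s).card ≤ (1 + x) ^ A.card * (l⁻¹) ^ (A \ inn s).card := by
  have h0 : 0 < 1 + x := lt_of_lt_of_le hl hlx
  have h1 : A.card = (A ∩ inn s).card + (A \ inn s).card := by
    rw [add_comm, Finset.card_sdiff_add_card_inter A (inn s)]
  rw [h1, pow_add, mul_assoc, ← mul_pow]
  have h2 : 1 ≤ ((1 + x) * l⁻¹) ^ (A \ inn s).card := by
    apply one_le_pow₀
    rw [← div_eq_mul_inv, one_le_div hl]
    exact hlx
  have h3 : 0 < (1 + x) ^ (A ∩ inn s).card := by positivity
  nlinarith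

theorem sum_bound (A : Finset (Sym2 V)) (x l : ℝ) (hl : 0 < l) (hlx : l ≤ 1 + x)
    (P : Setoid V → Prop) [DecidablePred P] (f : Setoid V → ℝ) (hf : ∀ s, 0 ≤ f s) :
    ∑ s ∈ univ.filter (fun s : Setoid V => P s), f s * (1 + x) ^ (A ∩ inn s).card
      ≤ (1 + x) ^ A.card *
        ∑ s ∈ univ.filter (fun s : Setoid V => P s), f s * (l⁻¹) ^ (A \ inn s).card := by
  rw [mul_sum]
  apply sum_le_sum
  intro s _
  have := mul_le_mul_of_nonneg_left (pow_split A s x l hl hlx) (hf s)
  linarith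

theorem BS_le [Nonempty V] (A : Finset (Sym2 V)) (hA : A ⊆ EE V) (x l : ℝ) (hx : 0 ≤ x)
    (hl : 0 < l) (hlx : l ≤ 1 + x) : BS x A ≤ (1 + x) ^ A.card * Nb l A := by
  have h1 := crude_bound A hA x hx (fun s => small s)
  have h2 : BS x A ≤ ∑ F ∈ A.powerset.filter (fun F : Finset (Sym2 V) => small (comp F)),
        x ^ F.card * cc (comp F) (sg A) := by
    unfold BS
    apply sum_le_sum_of_subset_of_nonneg
    · intro F
      simp only [mem_filter]
      rintro ⟨h, -, h'⟩
      exact ⟨h, h'⟩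
    · intro F _ _
      have := cc_nonneg (comp F) (sg A) (abs_sg A)
      positivity
  exact h2.trans (h1.trans (sum_bound A x l hl hlx _ _ (fun s => (ww_pos s).le)))

theorem Gi_le [Nonempty V] (A : Finset (Sym2 V)) (hA : A ⊆ EE V) (x l : ℝ) (hx : 0 ≤ x)
    (hl : 0 < l) (hlx : l ≤ 1 + x) : Gi A x ≤ (1 + x) ^ A.card * Yg l A :=
  (crude_bound A hA x hx (fun s => ¬ small s ∧ s ≠ ⊤)).trans
    (sum_bound A x l hl hlx _ _ (fun s => (ww_pos s).le))

theorem BS_mono [Nonempty V] (A : Finset (Sym2 V)) (x y : ℝ) (hx : 0 ≤ x) (hxy : x ≤ y) :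
    BS x A ≤ BS y A := by
  unfold BS
  apply sum_le_sum
  intro F _
  exact mul_le_mul_of_nonneg_right (pow_le_pow_left₀ hx hxy _) (cc_nonneg _ _ (abs_sg A))

theorem Gi_mono [Nonempty V] (A : Finset (Sym2 V)) (x y : ℝ) (hx : 0 ≤ x) (hxy : x ≤ y) :
    Gi A x ≤ Gi A y := by
  unfold Gi
  apply sum_le_sum
  intro F _
  exact mul_le_mul_of_nonneg_right (pow_le_pow_left₀ hx hxy _) (cc_nonneg _ _ (abs_sg A))

theorem BS_nonneg [Nonempty V] (A : Finset (Sym2 V)) (x : ℝ) (hx : 0 ≤ x) : 0 ≤ BS x A := by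
  unfold BS
  apply sum_nonneg
  intro F _
  have := cc_nonneg (comp F) (sg A) (abs_sg A)
  positivity

theorem S3_nonneg [Nonempty V] (A : Finset (Sym2 V)) : 0 ≤ S3 A := by
  unfold S3
  apply sum_nonneg
  intro F _
  exact cc_nonneg (comp F) (sg A) (abs_sg A)

theorem KK_nonneg (A : Finset (Sym2 V)) (x : ℝ) (hx : 0 ≤ x) : 0 ≤ KK A x := by
  unfold KK
  apply sum_nonneg
  intro F _
  positivity

theorem Yg_nonneg (l : ℝ) (hl : 0 < l) (A : Finset (Sym2 V)) : 0 ≤ Yg l A := by
  unfold Yg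
  apply sum_nonneg
  intro s _
  have := (ww_pos s).le
  positivity

theorem exists_two (r : Setoid V) (hr : r ≠ ⊤) : ∃ s : Setoid V, r ≤ s ∧ kk s = 2 := by
  have h1 : ∃ a b, ¬ r a b := by
    by_contra hc
    push Not at hc
    exact hr ((Setoid.eq_top_iff).2 hc)
  obtain ⟨a, b, hab⟩ := h1
  refine ⟨Setoid.ker (fun x => decide (r a x)), ?_, ?_⟩
  · intro x y hxy
    rw [Setoid.ker_def]
    have : r a x ↔ r a y := ⟨fun h => r.trans' h hxy, fun h => r.trans' h (r.symm' hxy)⟩
    simp only [this]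
  · unfold kk
    have hsurj : Function.Surjective (fun x => decide (r a x)) := by
      intro c
      cases c with
      | true => exact ⟨a, by simpa using r.refl' a⟩
      | false => exact ⟨b, by simpa using hab⟩
    rw [Nat.card_congr (Setoid.quotientKerEquivOfSurjective _ hsurj)]
    simp

theorem KK_ge [Nonempty V] (A : Finset (Sym2 V)) (hA : A ⊆ EE V) (x l : ℝ) (hx : 0 ≤ x)
    (hl : 0 < l) (hlx : l ≤ 1 + x) :
    (1 + x) ^ A.card * (1 - Y2 l A - Yg l A) ≤ KK A x := by
  have h1 : (1 + x) ^ A.card = KK A x +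
      ∑ F ∈ A.powerset.filter (fun F : Finset (Sym2 V) => comp F ≠ ⊤), x ^ F.card := by
    unfold KK
    have h0 := sum_filter_add_sum_filter_not A.powerset
      (fun F : Finset (Sym2 V) => comp F = ⊤) (fun F => x ^ F.card)
    rw [h0, add_comm 1 x, ← sum_pow_mul_eq_add_pow]
    apply sum_congr rfl
    intro F _
    simp
  have h2 : ∑ F ∈ A.powerset.filter (fun F : Finset (Sym2 V) => comp F ≠ ⊤), x ^ F.card
      ≤ ∑ s ∈ univ.filter (fun s : Setoid V => kk s = 2), (1 + x) ^ (A ∩ inn s).card := by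
    have h3 : ∀ F ∈ A.powerset.filter (fun F : Finset (Sym2 V) => comp F ≠ ⊤),
        x ^ F.card ≤ ∑ s ∈ univ.filter (fun s : Setoid V => kk s = 2),
          (if F ⊆ inn s then x ^ F.card else 0) := by
      intro F hF
      rw [mem_filter, mem_powerset] at hF
      have hFE := hF.1.trans hA
      obtain ⟨s, hs1, hs2⟩ := exists_two (comp F) hF.2
      have h4 : (if F ⊆ inn s then x ^ F.card else 0) ≤
          ∑ s ∈ univ.filter (fun s : Setoid V => kk s = 2),
            (if F ⊆ inn s then x ^ F.card else 0) := by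
        apply single_le_sum (f := fun s : Setoid V => (if F ⊆ inn s then x ^ F.card else 0))
        · intro s _
          positivity
        · simp [hs2]
      rwa [if_pos ((comp_le_iff F hFE s).1 hs1)] at h4
    refine (sum_le_sum h3).trans ?_
    rw [sum_comm]
    apply sum_le_sum
    intro s _
    rw [← sum_sub_inn A s x]
    apply sum_le_sum_of_subset_of_nonneg (filter_subset _ _)
    intro F _ _
    positivity
  have h5 : ∑ s ∈ univ.filter (fun s : Setoid V => kk s = 2), (1 + x) ^ (A ∩ inn s).card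
      ≤ (1 + x) ^ A.card * (Y2 l A + Yg l A) := by
    have h6 := sum_bound A x l hl hlx (fun s => kk s = 2) (fun _ => 1) (fun _ => by norm_num)
    simp only [one_mul] at h6
    refine h6.trans ?_
    apply mul_le_mul_of_nonneg_left _ (by positivity)
    rw [← sum_filter_add_sum_filter_not (univ.filter (fun s : Setoid V => kk s = 2))
      (fun s : Setoid V => small s)]
    apply add_le_add
    · unfold Y2
      apply le_of_eq
      apply sum_congr _ (fun _ _ => rfl)
      ext s
      simp only [mem_filter, mem_univ, true_and]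
      tauto
    · unfold Yg
      have h7 : (univ.filter (fun s : Setoid V => kk s = 2)).filter (fun s => ¬ small s) ⊆
          univ.filter (fun s : Setoid V => ¬ small s ∧ s ≠ ⊤) := by
        intro s
        simp only [mem_filter, mem_univ, true_and]
        rintro ⟨h8, h9⟩
        refine ⟨h9, ?_⟩
        rintro rfl
        rw [kk_top] at h8
        omega
      refine le_trans ?_ (sum_le_sum_of_subset_of_nonneg h7 ?_)
      · apply sum_le_sum
        intro s _
        have h10 : 0 ≤ (l⁻¹) ^ (A \ inn s).card := by positivity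
        nlinarith [one_le_ww s]
      · intro s _ _
        have := (ww_pos s).le
        positivity
  have h8 : (1 + x) ^ A.card * (1 - Y2 l A - Yg l A)
      = (1 + x) ^ A.card - (1 + x) ^ A.card * (Y2 l A + Yg l A) := by ring
  rw [h8]
  linarith

/-- the deterministic core -/
theorem cx_pos [Nonempty V] (hn : 5 ≤ Fintype.card V) (A : Finset (Sym2 V)) (hA : A ⊆ EE V)
    (hpar : Even (A.card + Fintype.card V + 1))
    (th Q x1 xc x2 x3 : ℝ) (hth : 0 < th) (hQ : 0 < Q)
    (hx1 : 0 < x1) (hx1c : x1 ≤ xc) (hxc2 : xc ≤ x2) (hx23 : x2 ≤ x3)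
    (hn1 : 1 ≤ (Fintype.card V : ℝ) * x1)
    (hc : th * Q ≤ cc (⊥ : Setoid V) (sg A))
    (hS : th * (Fintype.card V : ℝ) ^ 3 * Q ≤ S3 A)
    (h1 : BS x1 A ≤ th * Q / 4)
    (h2 : BS x2 A ≤ th * ((Fintype.card V : ℝ) * x1) ^ 3 * Q / 4)
    (h3 : BS x3 A ≤ (1 + x2) ^ A.card / 8)
    (hYg : Yg (1 + xc) A ≤ 1 / 16) (hY2 : Y2 (1 + xc) A ≤ 1 / 16)
    (hNb : Nb (1 + x3) A ≤ 1 / 16)
    (h5 : (1 + xc) ^ A.card ≤ th * Q)
    (x : ℝ) (hx : 0 ≤ x) : 0 < cx A x := by
  have hlow := asm_lower hn A hA hpar x hx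
  have hcc : 0 < th * Q := by positivity
  have hS0 := S3_nonneg A
  have hK0 := KK_nonneg A x hx
  have hxS : 0 ≤ x ^ 3 * S3 A := by positivity
  have hGic : Gi A xc ≤ th * Q / 16 := by
    have := Gi_le A hA xc (1 + xc) (by linarith) (by linarith) le_rfl
    have hp : 0 ≤ (1 + xc) ^ A.card := by
      have : 0 < 1 + xc := by linarith
      positivity
    nlinarith [Yg_nonneg (1 + xc) (by linarith) A]
  have hT : th * Q ≤ th * ((Fintype.card V : ℝ) * x1) ^ 3 * Q := by
    have : 1 ≤ ((Fintype.card V : ℝ) * x1) ^ 3 := one_le_pow₀ hn1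
    nlinarith
  have hTS : x1 ≤ x → th * ((Fintype.card V : ℝ) * x1) ^ 3 * Q ≤ x ^ 3 * S3 A := by
    intro h
    have h7 : x1 ^ 3 ≤ x ^ 3 := pow_le_pow_left₀ hx1.le h 3
    have h8 : 0 ≤ th * (Fintype.card V : ℝ) ^ 3 * Q := by positivity
    calc th * ((Fintype.card V : ℝ) * x1) ^ 3 * Q
        = x1 ^ 3 * (th * (Fintype.card V : ℝ) ^ 3 * Q) := by ring
      _ ≤ x ^ 3 * (th * (Fintype.card V : ℝ) ^ 3 * Q) := mul_le_mul_of_nonneg_right h7 h8
      _ ≤ x ^ 3 * S3 A := mul_le_mul_of_nonneg_left hS (by positivity)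
  have hKbig : xc ≤ x → (1 + x) ^ A.card * (14 / 16) ≤ KK A x ∧
      Gi A x ≤ (1 + x) ^ A.card / 16 := by
    intro h
    have hp : 0 ≤ (1 + x) ^ A.card := by positivity
    have h7 := KK_ge A hA x (1 + xc) hx (by linarith) (by linarith)
    have h8 := Gi_le A hA x (1 + xc) hx (by linarith) (by linarith)
    constructor
    · refine le_trans ?_ h7
      apply mul_le_mul_of_nonneg_left _ hp
      linarith
    · refine h8.trans ?_
      nlinarith
  have hp1 : 0 < (1 + x) ^ A.card := by positivity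
  rcases le_total x x1 with hr | hr
  · have h7 := BS_mono A x x1 hx hr
    have h8 := Gi_mono A x xc hx (hr.trans hx1c)
    nlinarith
  have hT' := hTS hr
  rcases le_total x xc with hr2 | hr2
  · have h7 := BS_mono A x x2 hx (hr2.trans hxc2)
    have h8 := Gi_mono A x xc hx hr2
    nlinarith
  obtain ⟨hK, hG⟩ := hKbig hr2
  rcases le_total x x2 with hr3 | hr3
  · have h7 := BS_mono A x x2 hx hr3
    nlinarith
  rcases le_total x x3 with hr4 | hr4
  · have h7 := BS_mono A x x3 hx hr4
    have h8 : (1 + x2) ^ A.card ≤ (1 + x) ^ A.card := by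
      apply pow_le_pow_left₀ (by linarith)
      linarith
    nlinarith
  · have h7 := BS_le A hA x (1 + x3) hx (by linarith) (by linarith)
    have h8 : (1 + x) ^ A.card * Nb (1 + x3) A ≤ (1 + x) ^ A.card * (1 / 16) :=
      mul_le_mul_of_nonneg_left hNb hp1.le
    nlinarith

/-- connectivity from the same bounds -/
theorem comp_top_of [Nonempty V] (A : Finset (Sym2 V)) (hA : A ⊆ EE V) (xc : ℝ) (hxc : 0 < xc)
    (hYg : Yg (1 + xc) A ≤ 1 / 16) (hY2 : Y2 (1 + xc) A ≤ 1 / 16) : comp A = ⊤ := by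
  have h7 := KK_ge A hA xc (1 + xc) hxc.le (by linarith) le_rfl
  have h8 : 0 < KK A xc := by
    refine lt_of_lt_of_le ?_ h7
    have : 0 < (1 + xc) ^ A.card := by positivity
    apply mul_pos this
    linarith
  unfold KK at h8
  have h9 : (A.powerset.filter (fun F : Finset (Sym2 V) => comp F = ⊤)).Nonempty := by
    by_contra hc
    rw [not_nonempty_iff_eq_empty] at hc
    rw [hc] at h8
    simp at h8
  obtain ⟨F, hF⟩ := h9
  rw [mem_filter, mem_powerset] at hF
  have h10 : comp F ≤ comp A := by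
    rw [comp_le_iff F (hF.1.trans hA)]
    exact hF.1.trans (comp_sub_inn A hA)
  rw [hF.2] at h10
  exact top_le_iff.1 h10

end

end Pool.Agent.R88.RR
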