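import Pool.Agent.R88.RR.Defs

/-!
Project RR, piece MOB (by helper715): the Moebius identity of the partition lattice by the colouring
argument.
-/

set_option autoImplicit false
set_option maxHeartbeats 400000

namespace Pool.Agent.R88.RR

open Finset
open scoped Classical Nat

noncomputable section

variable {V : Type} [Fintype V]

namespace Mob

theorem kk_pos [Nonempty V] (r : Setoid V) : 0 < kk r := by
  unfold kk
  haveI : Nonempty (Quotient r) := ⟨Quotient.mk r (Classical.arbitrary V)⟩
  exact Nat.card_pos

theorem kk_eq_one_iff [Nonempty V] (s : Setoid V) : kk s = 1 ↔ s = ⊤ := by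
  unfold kk
  rw [Nat.card_eq_one_iff_unique, Setoid.eq_top_iff]
  constructor
  · rintro ⟨h, _⟩ x y
    exact Quotient.exact (s := s) (Subsingleton.elim (Quotient.mk s x) (Quotient.mk s y))
  · intro h
    refine ⟨⟨fun a b => ?_⟩, ⟨Quotient.mk s (Classical.arbitrary V)⟩⟩
    induction a using Quotient.inductionOn with
    | h a =>
      induction b using Quotient.inductionOn with
      | h b => exact Quotient.sound (h a b)

/-- maps constant on the classes of `s` -/
theorem count1 (s : Setoid V) (t : ℕ) :
    (univ.filter (fun f : V → Fin t => s ≤ Setoid.ker f)).card = t ^ kk s := by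
  have h1 : (univ.filter (fun f : V → Fin t => s ≤ Setoid.ker f)).card =
      Nat.card {f : V → Fin t // s ≤ Setoid.ker f} := by
    rw [Nat.card_eq_fintype_card, Fintype.card_subtype]
  have h2 : Nat.card {f : V → Fin t // s ≤ Setoid.ker f} = Nat.card (Quotient s → Fin t) :=
    Nat.card_congr (Setoid.liftEquiv s)
  rw [h1, h2, Nat.card_fun, Nat.card_fin]
  rfl

/-- maps with given kernel are embeddings of the quotient -/
def kerEquiv (r : Setoid V) (t : ℕ) :
    {f : V → Fin t // Setoid.ker f = r} ≃ (Quotient r ↪ Fin t) where
  toFun f := ⟨Quotient.lift f.1 (fun a b h => by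
      have : Setoid.ker f.1 a b := by
        rw [f.2]
        exact h
      exact this), by
    intro a b
    induction a using Quotient.inductionOn with
    | h a =>
      induction b using Quotient.inductionOn with
      | h b =>
        intro h
        apply Quotient.sound
        have h2 : Setoid.ker f.1 a b := h
        rw [f.2] at h2
        exact h2⟩
  invFun g := ⟨fun a => g (Quotient.mk r a), by
    ext a b
    rw [Setoid.ker_def, g.injective.eq_iff]
    exact ⟨fun h => Quotient.exact h, fun h => Quotient.sound h⟩⟩
  left_inv f := by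
    ext a
    rfl
  right_inv g := by
    ext a
    induction a using Quotient.inductionOn with
    | h a => rfl

theorem count2 (r : Setoid V) (t : ℕ) :
    (univ.filter (fun f : V → Fin t => Setoid.ker f = r)).card = t.descFactorial (kk r) := by
  have h1 : (univ.filter (fun f : V → Fin t => Setoid.ker f = r)).card =
      Nat.card {f : V → Fin t // Setoid.ker f = r} := by
    rw [Nat.card_eq_fintype_card, Fintype.card_subtype]
  haveI : Fintype (Quotient r) := Fintype.ofFinite _
  rw [h1, Nat.card_congr (kerEquiv r t), Nat.card_eq_fintype_card, Fintype.card_embedding_eq,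
    Fintype.card_fin, kk, Nat.card_eq_fintype_card]

theorem count (s : Setoid V) (t : ℕ) :
    ∑ r ∈ univ.filter (fun r : Setoid V => s ≤ r), t.descFactorial (kk r) = t ^ kk s := by
  rw [← count1 s t]
  rw [Finset.card_eq_sum_card_fiberwise (f := fun f : V → Fin t => Setoid.ker f)
    (t := univ.filter (fun r : Setoid V => s ≤ r))]
  · refine Finset.sum_congr rfl fun r hr => ?_
    rw [← count2 r t]
    congr 1
    ext f
    simp only [Finset.mem_filter, Finset.mem_univ, true_and] at hr ⊢
    constructor
    · intro h
      exact ⟨h ▸ hr, h⟩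
    · intro h
      exact h.2
  · intro f hf
    simp only [Finset.coe_filter, Finset.mem_univ, true_and, Set.mem_ofPred_eq] at hf ⊢
    exact hf

open Polynomial in
theorem eval_neg_one (k : ℕ) : (descPochhammer ℝ k).eval (-1) = (-1) ^ k * (k ! : ℝ) := by
  induction k with
  | zero => simp
  | succ k ih =>
    rw [descPochhammer_succ_right, eval_mul, ih]
    simp only [eval_sub, eval_X, eval_natCast, Nat.factorial_succ, Nat.cast_mul, Nat.cast_succ,
      pow_succ]
    ring

open Polynomial in
theorem coeff_one (k : ℕ) (hk : 0 < k) : (descPochhammer ℝ k).coeff 1 = mu k := by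
  obtain ⟨k, rfl⟩ : ∃ j, k = j + 1 := ⟨k - 1, by omega⟩
  rw [descPochhammer_succ_left, coeff_X_mul, coeff_zero_eq_eval_zero, eval_comp]
  simp only [eval_sub, eval_X, eval_one, zero_sub]
  rw [eval_neg_one]
  simp [mu]

end Mob

open Polynomial in
theorem mobius [Nonempty V] (s : Setoid V) :
    ∑ r ∈ univ.filter (fun r : Setoid V => s ≤ r), mu (kk r) = if s = ⊤ then 1 else 0 := by
  have hpoly : ∑ r ∈ univ.filter (fun r : Setoid V => s ≤ r), descPochhammer ℝ (kk r) =
      (X : ℝ[X]) ^ kk s := by
    apply Polynomial.eq_of_infinite_eval_eq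
    refine Set.Infinite.mono ?_ (Set.infinite_range_of_injective (Nat.cast_injective (R := ℝ)))
    rintro _ ⟨t, rfl⟩
    show _ = _
    rw [eval_finset_sum, eval_pow, eval_X]
    have h := Mob.count s t
    have h' := congrArg (Nat.cast (R := ℝ)) h
    rw [Nat.cast_sum, Nat.cast_pow] at h'
    rw [← h']
    exact Finset.sum_congr rfl fun r _ => descPochhammer_eval_eq_descFactorial ℝ t (kk r)
  have h1 := congrArg (fun p => p.coeff 1) hpoly
  simp only [finset_sum_coeff, coeff_X_pow] at h1
  rw [Finset.sum_congr rfl fun r _ => Mob.coeff_one (kk r) (Mob.kk_pos r)] at h1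
  rw [h1]
  by_cases hs : s = ⊤
  · rw [if_pos hs, if_pos ((Mob.kk_eq_one_iff s).2 hs).symm]
  · rw [if_neg hs, if_neg]
    intro h
    exact hs ((Mob.kk_eq_one_iff s).1 h.symm)

end

end Pool.Agent.R88.RR
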