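import Pool.Agent.R88.RR.Asm2
import Pool.Agent.R88.RR.Mob

set_option autoImplicit false

namespace Pool.Agent.R88.RR

open Finset
open scoped Classical Nat

noncomputable section

variable {V : Type} [Fintype V]

theorem rel_eq_DD [Nonempty V] (A : Finset (Sym2 V)) (hA : A ⊆ EE V) (q : ℝ) (hq : q ≠ 0) :
    Rel A q = q ^ A.card * DD (⊥ : Setoid V) (fun e => if e ∈ A then q⁻¹ else 1) := by
  rw [rel_eq_of mobius A hA, DD_bot, mul_sum]
  apply sum_congr rfl
  intro r _
  rw [prod_ite_pow]
  have h1 : A.card = (A ∩ inn r).card + (A \ inn r).card := by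
    rw [add_comm, Finset.card_sdiff_add_card_inter A (inn r)]
  have h2 : q ^ A.card = q ^ (A ∩ inn r).card * q ^ (A \ inn r).card := by
    rw [← pow_add, ← h1]
  rw [h2, inv_pow]
  field_simp

theorem rel_pos_of_lt_one [Nonempty V] (A : Finset (Sym2 V)) (hc : comp A = ⊤) (q : ℝ)
    (h0 : 0 ≤ q) (h1 : q < 1) : 0 < Rel A q := by
  unfold Rel
  have hA : A ∈ A.powerset.filter
      (fun F : Finset (Sym2 V) => (SimpleGraph.fromEdgeSet (F : Set (Sym2 V))).Connected) := by
    rw [mem_filter, mem_powerset]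
    exact ⟨Subset.rfl, (connected_iff A).2 hc⟩
  have hq : 0 < 1 - q := by linarith
  apply sum_pos'
  · intro F _
    positivity
  · refine ⟨A, hA, ?_⟩
    simp only [Nat.sub_self, pow_zero, mul_one]
    positivity

theorem rel_ne_zero [Nonempty V] (A : Finset (Sym2 V)) (hA : A ⊆ EE V) (hc : comp A = ⊤)
    (hcx : ∀ x : ℝ, 0 ≤ x → 0 < cx A x) (q : ℝ) (hq : q ≠ 1) : Rel A q ≠ 0 := by
  rcases lt_or_ge q 0 with h0 | h0
  · have hq0 : q ≠ 0 := h0.ne
    rw [rel_eq_DD A hA q hq0]
    apply mul_ne_zero (pow_ne_zero _ hq0)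
    rcases lt_or_ge q (-1) with h1 | h1
    · have habs : |q⁻¹| < 1 := by
        rw [abs_inv, abs_of_neg h0]
        apply inv_lt_one_of_one_lt₀
        linarith
      have h2 := cc_pos A hA hc q⁻¹ habs
      unfold cc at h2
      intro h3
      rw [h3] at h2
      simp at h2
    · have h2 : 0 ≤ -q⁻¹ - 1 := by
        have h3 : 1 ≤ (-q)⁻¹ := by
          rw [one_le_inv₀ (by linarith)]
          linarith
        rw [inv_neg] at h3
        linarith
      have h3 := hcx _ h2
      unfold cx at h3
      have h4 : (-(1 + (-q⁻¹ - 1)) : ℝ) = q⁻¹ := by ring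
      rw [h4] at h3
      intro h5
      rw [h5] at h3
      simp at h3
  · rcases lt_or_gt_of_ne hq with h1 | h1
    · exact (rel_pos_of_lt_one A hc q h0 h1).ne'
    · have hq0 : q ≠ 0 := by linarith
      rw [rel_eq_DD A hA q hq0]
      apply mul_ne_zero (pow_ne_zero _ hq0)
      have habs : |q⁻¹| < 1 := by
        rw [abs_inv, abs_of_nonneg h0]
        exact inv_lt_one_of_one_lt₀ h1
      have h2 := cc_pos A hA hc q⁻¹ habs
      unfold cc at h2
      intro h3
      rw [h3] at h2
      simp at h2

/-- Markov inequality for the uniform edge set -/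
theorem markov (f : Finset (Sym2 V) → ℝ) (hf : ∀ A, A ⊆ EE V → 0 ≤ f A) (t : ℝ) (ht : 0 < t) :
    (((EE V).powerset.filter (fun A => t < f A)).card : ℝ) ≤ 2 ^ (EE V).card * (av f / t) := by
  have h1 : (((EE V).powerset.filter (fun A => t < f A)).card : ℝ) * t
      ≤ ∑ A ∈ (EE V).powerset, f A := by
    calc (((EE V).powerset.filter (fun A => t < f A)).card : ℝ) * t
        = ∑ A ∈ (EE V).powerset.filter (fun A => t < f A), t := by
          rw [sum_const, nsmul_eq_mul]
      _ ≤ ∑ A ∈ (EE V).powerset.filter (fun A => t < f A), f A := by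
          apply sum_le_sum
          intro A hA
          rw [mem_filter] at hA
          exact hA.2.le
      _ ≤ ∑ A ∈ (EE V).powerset, f A := by
          apply sum_le_sum_of_subset_of_nonneg (filter_subset _ _)
          intro A hA _
          exact hf A (mem_powerset.1 hA)
  unfold av
  have h2 : (2 : ℝ) ^ (EE V).card * ((∑ A ∈ (EE V).powerset, f A) / 2 ^ (EE V).card / t)
      = (∑ A ∈ (EE V).powerset, f A) / t := by
    field_simp
  rw [h2, le_div_iff₀ ht]
  exact h1

theorem av_BS [Nonempty V] (x : ℝ) :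
    av (fun A : Finset (Sym2 V) => BS x A) =
      ∑ F ∈ (EE V).powerset.filter (fun F => big3 (comp F) ∧ small (comp F)),
        (x / 2) ^ F.card * ((kk (comp F) - 1)! : ℝ) := by
  have h1 : ∀ A ∈ (EE V).powerset, BS x A =
      ∑ F ∈ (EE V).powerset.filter (fun F => big3 (comp F) ∧ small (comp F)),
        x ^ F.card * (if F ⊆ A then cc (comp F) (sg A) else 0) := by
    intro A hA
    rw [mem_powerset] at hA
    unfold BS
    rw [sum_filter, sum_filter]
    rw [← sum_subset (powerset_mono.2 hA)]
    · apply sum_congr rfl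
      intro F hF
      rw [mem_powerset] at hF
      rw [if_pos hF]
    · intro F _ hF
      rw [mem_powerset] at hF
      rw [if_neg hF]
      simp
  unfold av
  rw [sum_congr rfl h1, sum_comm, sum_div]
  apply sum_congr rfl
  intro F hF
  rw [mem_filter, mem_powerset] at hF
  have h2 := av_cc (comp F) F (comp_sub_inn F hF.1)
  unfold av at h2
  rw [← mul_sum, mul_div_assoc, h2, div_pow]
  ring

theorem av_weighted (P : Setoid V → Prop) [DecidablePred P] (f : Setoid V → ℝ) (l : ℝ) :
    av (fun A : Finset (Sym2 V) =>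
      ∑ s ∈ univ.filter (fun s : Setoid V => P s), f s * (l⁻¹) ^ (A \ inn s).card) =
    ∑ s ∈ univ.filter (fun s : Setoid V => P s), f s * ((1 + l⁻¹) / 2) ^ (EE V \ inn s).card := by
  unfold av
  rw [sum_comm, sum_div]
  apply sum_congr rfl
  intro s _
  have h2 := av_cut s l
  unfold av at h2
  rw [← mul_sum, mul_div_assoc, h2]

end

end Pool.Agent.R88.RR
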