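import Pool.Agent.R88.RR.PL

/-! Project RR, piece GS: partitions with a giant class. -/

set_option autoImplicit false
set_option linter.unusedSectionVars false

namespace Pool.Agent.R88.RR

open Finset
open scoped Classical Nat

noncomputable section

variable {V : Type} [Fintype V]

namespace GSx

open PLx

/-- the restriction to the complement of `B` -/
def res (B : Finset V) (s : Setoid V) : Setoid {x : V // x ∉ B} := s.comap Subtype.val

theorem res_rel (B : Finset V) (s : Setoid V) (a b : {x : V // x ∉ B}) :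
    res B s a b ↔ s a.1 b.1 := Iff.rfl

theorem mem_class {s : Setoid V} {B : Finset V} (hB : B ∈ cls s) {a b : V} (ha : a ∈ B) :
    s a b ↔ b ∈ B := by
  obtain ⟨c, rfl⟩ := mem_cls.1 hB
  rw [mem_cl] at ha ⊢
  constructor
  · intro h
    exact s.trans ha h
  · intro h
    exact s.trans (s.symm ha) h

theorem res_inj {s t : Setoid V} {B : Finset V} (hs : B ∈ cls s) (ht : B ∈ cls t)
    (h : res B s = res B t) : s = t := by
  ext a b
  by_cases ha : a ∈ B
  · rw [mem_class hs ha, mem_class ht ha]
  · by_cases hb : b ∈ B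
    · constructor
      · intro h1
        exact absurd ((mem_class hs hb).1 (s.symm h1)) ha
      · intro h1
        exact absurd ((mem_class ht hb).1 (t.symm h1)) ha
    · have h1 : res B s ⟨a, ha⟩ ⟨b, hb⟩ ↔ res B t ⟨a, ha⟩ ⟨b, hb⟩ := by rw [h]
      exact h1

theorem kk_res {s : Setoid V} {B : Finset V} (hs : B ∈ cls s) : kk s ≤ kk (res B s) + 1 := by
  obtain ⟨c, rfl⟩ := mem_cls.1 hs
  have h1 : Nat.card (Option (Quotient (res (cl s c) s))) = kk (res (cl s c) s) + 1 := by
    rw [kk, Nat.card_eq_fintype_card, Nat.card_eq_fintype_card, Fintype.card_option]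
  rw [← h1]
  have hw : ∀ a b : {x : V // x ∉ cl s c}, (res (cl s c) s) a b →
      (Quotient.mk s a.1 : Quotient s) = Quotient.mk s b.1 := by
    intro a b hab
    exact Quotient.sound hab
  apply Nat.card_le_card_of_surjective (fun o : Option (Quotient (res (cl s c) s)) =>
    match o with
    | none => (Quotient.mk s c : Quotient s)
    | some q => Quotient.lift (fun a : {x : V // x ∉ cl s c} => (Quotient.mk s a.1 : Quotient s))
        hw q)
  intro q
  induction q using Quotient.inductionOn with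
  | h a =>
    by_cases ha : a ∈ cl s c
    · refine ⟨none, ?_⟩
      exact Quotient.sound (mem_cl.1 ha)
    · refine ⟨some (Quotient.mk _ ⟨a, ha⟩), rfl⟩

theorem card_res (B : Finset V) : Fintype.card {x : V // x ∉ B} = Fintype.card V - B.card := by
  rw [Fintype.card_subtype_compl, Fintype.card_coe]

theorem ww_le {s : Setoid V} {B : Finset V} (hs : B ∈ cls s) :
    ww s ≤ ((kk (res B s))! : ℝ) * (((Fintype.card V - B.card : ℕ) : ℝ) + 1) *
      Real.exp (6 * (((Fintype.card V - B.card : ℕ) : ℝ) + 1)) := by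
  set t := Fintype.card V - B.card with ht
  set k := kk (res B s) with hk
  have h1 : kk s ≤ k + 1 := kk_res hs
  have h2 : k ≤ t := by
    rw [ht, ← card_res]
    exact kk_le _
  have h3 : ((kk s)! : ℝ) ≤ (k ! : ℝ) * ((t : ℝ) + 1) := by
    have h4 : (kk s)! ≤ (k + 1)! := Nat.factorial_le h1
    have h5 : (k + 1)! ≤ k ! * (t + 1) := by
      rw [Nat.factorial_succ, mul_comm]
      gcongr
    exact_mod_cast h4.trans h5
  have h6 : Real.exp (6 * (kk s : ℝ)) ≤ Real.exp (6 * ((t : ℝ) + 1)) := by
    apply Real.exp_le_exp.2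
    have : (kk s : ℝ) ≤ (t : ℝ) + 1 := by exact_mod_cast (h1.trans (by omega))
    linarith
  unfold ww
  exact mul_le_mul h3 h6 (Real.exp_pos _).le (by positivity)

theorem cut_ge {s : Setoid V} {B : Finset V} (hs : B ∈ cls s) :
    B.card * (Fintype.card V - B.card) ≤ (EE V \ inn s).card := by
  rw [← card_compl, ← card_product]
  apply card_le_card_of_injOn (fun p : V × V => s(p.1, p.2))
  · rintro ⟨a, b⟩ hp
    rw [mem_coe, mem_product] at hp
    obtain ⟨ha, hb⟩ := hp
    simp only [mem_compl] at hb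
    have hne : ¬ s a b := fun h => hb ((mem_class hs ha).1 h)
    have hab : a ≠ b := by
      rintro rfl
      exact hb ha
    simp only [coe_sdiff, Set.mem_sdiff, mem_coe]
    constructor
    · simp [EE, hab]
    · intro h
      have h2 := (mem_filter.1 h).2 a (by simp) b (by simp)
      exact hne h2
  · rintro ⟨a, b⟩ hp ⟨a', b'⟩ hp' h
    rw [mem_coe, mem_product] at hp hp'
    simp only [mem_compl] at hp hp'
    simp only [Sym2.eq_iff] at h
    rcases h with ⟨h1, h2⟩ | ⟨h1, h2⟩
    · rw [h1, h2]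
    · exfalso
      apply hp'.2
      rw [← h1]
      exact hp.1

end GSx

open PLx GSx

/-- combinatorial part: reduction to a numerical sum -/
theorem giant_comb (ρ : ℝ) (h0 : 0 ≤ ρ) (h1 : ρ ≤ 1) :
    ∑ s ∈ univ.filter (fun s : Setoid V => ¬ small s ∧ s ≠ ⊤), ww s * ρ ^ (EE V \ inn s).card ≤
      ∑ b ∈ range (Fintype.card V + 1), ((Fintype.card V).choose b : ℝ) *
        (if 2 * Fintype.card V < 3 * b ∧ b < Fintype.card V then
          (((Fintype.card V - b : ℕ) : ℝ) + 1) * Real.exp (6 * (((Fintype.card V - b : ℕ) : ℝ) + 1)) *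
          ρ ^ (b * (Fintype.card V - b)) *
          (((Fintype.card V - b)! : ℝ) * Real.exp (6 * ((Fintype.card V - b : ℕ) : ℝ))) else 0) := by
  set n := Fintype.card V with hn
  set g : ℕ → ℝ := fun b => if 2 * n < 3 * b ∧ b < n then
          (((n - b : ℕ) : ℝ) + 1) * Real.exp (6 * (((n - b : ℕ) : ℝ) + 1)) *
          ρ ^ (b * (n - b)) *
          (((n - b)! : ℝ) * Real.exp (6 * ((n - b : ℕ) : ℝ))) else 0 with hg
  have hg0 : ∀ b, 0 ≤ g b := by
    intro b
    simp only [hg]
    split_ifs
    · positivity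
    · exact le_rfl
  have hsum : ∑ B : Finset V, g B.card = ∑ b ∈ range (n + 1), (n.choose b : ℝ) * g b := by
    rw [← powerset_univ, sum_powerset_apply_card (fun b => g b)]
    rw [card_univ]
    apply sum_congr rfl
    intro b _
    rw [nsmul_eq_mul]
  rw [← hsum]
  -- the giant class
  have hex : ∀ s : Setoid V, ∃ B : Finset V, ¬ small s ∧ s ≠ ⊤ →
      B ∈ cls s ∧ 2 * n < 3 * B.card ∧ B.card < n := by
    intro s
    by_cases h : ¬ small s ∧ s ≠ ⊤
    · obtain ⟨h2, h3⟩ := h
      unfold small at h2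
      push Not at h2
      obtain ⟨B, hB, hB2⟩ := h2
      refine ⟨B, fun _ => ⟨hB, hB2, ?_⟩⟩
      by_contra hcon
      apply h3
      have hBu : B = univ := by
        rw [← card_eq_iff_eq_univ]
        exact le_antisymm (card_le_univ B) (by rw [← hn]; omega)
      ext a b
      have ha : a ∈ B := by rw [hBu]; exact mem_univ a
      rw [mem_class hB ha, hBu]
      simp [Setoid.top_def]
    · exact ⟨∅, fun h' => absurd h' h⟩
  choose G hG using hex
  rw [← sum_fiberwise_of_maps_to (g := G) (t := univ) (fun _ _ => mem_univ _)]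
  apply sum_le_sum
  intro B _
  by_cases hB : 2 * n < 3 * B.card ∧ B.card < n
  · have hfil : ∀ s ∈ (univ.filter (fun s : Setoid V => ¬ small s ∧ s ≠ ⊤)).filter
        (fun s => G s = B), B ∈ cls s := by
      intro s hs
      rw [mem_filter, mem_filter] at hs
      rw [← hs.2]
      exact (hG s hs.1.2).1
    have hc : (Fintype.card V - B.card) = n - B.card := rfl
    have hstep : ∀ s ∈ (univ.filter (fun s : Setoid V => ¬ small s ∧ s ≠ ⊤)).filter
        (fun s => G s = B), ww s * ρ ^ (EE V \ inn s).card ≤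
        ((((n - B.card : ℕ) : ℝ) + 1) * Real.exp (6 * (((n - B.card : ℕ) : ℝ) + 1)) *
          ρ ^ (B.card * (n - B.card))) * ((kk (res B s))! : ℝ) := by
      intro s hs
      have hBs := hfil s hs
      have e1 := ww_le hBs
      have e2 : ρ ^ (EE V \ inn s).card ≤ ρ ^ (B.card * (n - B.card)) :=
        pow_le_pow_of_le_one h0 h1 (cut_ge hBs)
      have e3 : 0 ≤ ρ ^ (EE V \ inn s).card := by positivity
      calc ww s * ρ ^ (EE V \ inn s).card
          ≤ (((kk (res B s))! : ℝ) * (((n - B.card : ℕ) : ℝ) + 1) *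
            Real.exp (6 * (((n - B.card : ℕ) : ℝ) + 1))) * ρ ^ (B.card * (n - B.card)) :=
            mul_le_mul e1 e2 e3 (by positivity)
        _ = _ := by ring
    refine (sum_le_sum hstep).trans ?_
    rw [← mul_sum]
    have hinj : ∑ s ∈ (univ.filter (fun s : Setoid V => ¬ small s ∧ s ≠ ⊤)).filter
        (fun s => G s = B), ((kk (res B s))! : ℝ) ≤
        ∑ r : Setoid {x : V // x ∉ B}, ((kk r)! : ℝ) := by
      rw [← sum_image (f := fun r : Setoid {x : V // x ∉ B} => ((kk r)! : ℝ)) (g := res B)]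
      · apply sum_le_sum_of_subset_of_nonneg (subset_univ _)
        intro _ _ _
        positivity
      · intro s hs t ht hst
        exact res_inj (hfil s hs) (hfil t ht) hst
    have hfl := sum_fact_le {x : V // x ∉ B}
    rw [card_res, hc] at hfl
    have hpos : 0 ≤ ((((n - B.card : ℕ) : ℝ) + 1) * Real.exp (6 * (((n - B.card : ℕ) : ℝ) + 1)) *
          ρ ^ (B.card * (n - B.card))) := by positivity
    have := mul_le_mul_of_nonneg_left (hinj.trans hfl) hpos
    refine this.trans (le_of_eq ?_)
    simp only [hg]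
    rw [if_pos hB]
  · have : (univ.filter (fun s : Setoid V => ¬ small s ∧ s ≠ ⊤)).filter
        (fun s => G s = B) = ∅ := by
      rw [filter_eq_empty_iff]
      intro s hs hGs
      rw [mem_filter] at hs
      apply hB
      rw [← hGs]
      exact (hG s hs.2).2
    rw [this, sum_empty]
    exact hg0 _

/-- numerical part -/
theorem giant_num (n : ℕ) (x L q : ℝ) (hn : 2 ≤ n) (hL : L = Real.log n) (hx : n * x = 7 / 2 * L)
    (hx0 : 0 < x) (hx1 : x ≤ 1 / 100) (hq : q = 2 * Real.exp 12 * Real.exp (-(3 / 20) * L))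
    (hq2 : q ≤ 1 / 2) :
    ∑ b ∈ range (n + 1), (n.choose b : ℝ) *
        (if 2 * n < 3 * b ∧ b < n then
          (((n - b : ℕ) : ℝ) + 1) * Real.exp (6 * (((n - b : ℕ) : ℝ) + 1)) *
          ((1 + (1 + x)⁻¹) / 2) ^ (b * (n - b)) *
          (((n - b)! : ℝ) * Real.exp (6 * ((n - b : ℕ) : ℝ))) else 0) ≤
      2 * Real.exp 6 * q := by
  have hn0 : (0 : ℝ) < n := by positivity
  have hL0 : 0 < L := by
    rw [hL]; exact Real.log_pos (by exact_mod_cast hn)
  have hq0 : 0 < q := by rw [hq]; positivity
  set ρ := (1 + (1 + x)⁻¹) / 2 with hρ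
  have hρ0 : 0 < ρ := by rw [hρ]; positivity
  have hρ1 : ρ ≤ Real.exp (-(x / (2 * (1 + x)))) := by
    have h1 := Real.add_one_le_exp (-(x / (2 * (1 + x))))
    refine le_trans (le_of_eq ?_) h1
    rw [hρ]
    field_simp
    ring
  -- termwise bound
  have hterm : ∀ b ∈ range (n + 1), (n.choose b : ℝ) *
        (if 2 * n < 3 * b ∧ b < n then
          (((n - b : ℕ) : ℝ) + 1) * Real.exp (6 * (((n - b : ℕ) : ℝ) + 1)) *
          ρ ^ (b * (n - b)) *
          (((n - b)! : ℝ) * Real.exp (6 * ((n - b : ℕ) : ℝ))) else 0) ≤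
        Real.exp 6 * (if b < n then q ^ (n - b) else 0) := by
    intro b _
    by_cases hb : 2 * n < 3 * b ∧ b < n
    · rw [if_pos hb, if_pos hb.2]
      obtain ⟨t, ht⟩ : ∃ t, n = b + t := ⟨n - b, by omega⟩
      have htn : n - b = t := by omega
      rw [htn]
      have hch : (n.choose b : ℝ) * (t ! : ℝ) ≤ (n : ℝ) ^ t := by
        have h1 : n.choose b = n.choose t := by
          rw [← htn]; exact (Nat.choose_symm (by omega)).symm
        rw [h1]
        have h2 := choose_le n t
        rwa [le_div_iff₀ (by positivity)] at h2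
      have ht2 : (t : ℝ) + 1 ≤ 2 ^ t := by
        have : t + 1 ≤ 2 ^ t := Nat.lt_two_pow_self
        exact_mod_cast this
      have hnt : (n : ℝ) ^ t = Real.exp (t * L) := by
        rw [hL, ← Real.log_pow, Real.exp_log (by positivity)]
      have hrb : ρ ^ (b * t) ≤ Real.exp (-(23 / 20) * (t * L)) := by
        calc ρ ^ (b * t) ≤ (Real.exp (-(x / (2 * (1 + x))))) ^ (b * t) :=
              pow_le_pow_left₀ hρ0.le hρ1 _
          _ = Real.exp (((b * t : ℕ) : ℝ) * (-(x / (2 * (1 + x))))) := by
              rw [← Real.exp_nat_mul]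
          _ ≤ Real.exp (-(23 / 20) * (t * L)) := by
              apply Real.exp_le_exp.2
              have hb3 : 2 * (n : ℝ) ≤ 3 * b := by exact_mod_cast hb.1.le
              have h1 : (23 / 20) * L ≤ (b : ℝ) * (x / (2 * (1 + x))) := by
                rw [mul_div_assoc', le_div_iff₀ (by positivity)]
                have h2 : 2 * (7 / 2 * L) ≤ 3 * (b * x) := by
                  have := mul_le_mul_of_nonneg_right hb3 hx0.le
                  nlinarith
                nlinarith
              have h3 : (0 : ℝ) ≤ t := Nat.cast_nonneg t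
              push_cast
              nlinarith
      have hE : (2 : ℝ) ^ t * Real.exp (6 * ((t : ℝ) + 1)) * Real.exp (-(23 / 20) * (t * L)) *
          Real.exp (6 * (t : ℝ)) * Real.exp (t * L) = Real.exp 6 * q ^ t := by
        rw [hq, mul_pow, mul_pow, ← Real.exp_nat_mul, ← Real.exp_nat_mul]
        have h2 : Real.exp (6 * ((t : ℝ) + 1)) * Real.exp (-(23 / 20) * (t * L)) *
          Real.exp (6 * (t : ℝ)) * Real.exp (t * L) =
          Real.exp 6 * (Real.exp (t * 12) * Real.exp (t * (-(3 / 20) * L))) := by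
          rw [← Real.exp_add, ← Real.exp_add, ← Real.exp_add, ← Real.exp_add, ← Real.exp_add]
          congr 1
          ring
        calc _ = (2 : ℝ) ^ t * (Real.exp (6 * ((t : ℝ) + 1)) * Real.exp (-(23 / 20) * (t * L)) *
          Real.exp (6 * (t : ℝ)) * Real.exp (t * L)) := by ring
          _ = _ := by rw [h2]; ring
      rw [← hE]
      calc (n.choose b : ℝ) * (((t : ℝ) + 1) * Real.exp (6 * ((t : ℝ) + 1)) * ρ ^ (b * t) *
          ((t ! : ℝ) * Real.exp (6 * (t : ℝ))))
          = ((t : ℝ) + 1) * Real.exp (6 * ((t : ℝ) + 1)) * ρ ^ (b * t) * Real.exp (6 * (t : ℝ)) *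
            ((n.choose b : ℝ) * (t ! : ℝ)) := by ring
        _ ≤ (2 : ℝ) ^ t * Real.exp (6 * ((t : ℝ) + 1)) * Real.exp (-(23 / 20) * (t * L)) *
          Real.exp (6 * (t : ℝ)) * Real.exp (t * L) := by
            rw [← hnt]
            gcongr
    · rw [if_neg hb, mul_zero]
      split_ifs
      · positivity
      · simp
  refine (sum_le_sum hterm).trans ?_
  rw [← mul_sum]
  have hgeo : ∑ b ∈ range (n + 1), (if b < n then q ^ (n - b) else 0) ≤ 2 * q := by
    rw [sum_range_succ, if_neg (lt_irrefl n), add_zero]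
    have h1 : ∑ b ∈ range n, (if b < n then q ^ (n - b) else 0) = ∑ j ∈ range n, q ^ (j + 1) := by
      rw [← sum_range_reflect]
      apply sum_congr rfl
      intro j hj
      rw [mem_range] at hj
      rw [if_pos (by omega)]
      congr 1
      omega
    rw [h1]
    have h2 : ∑ j ∈ range n, q ^ (j + 1) = q * ∑ j ∈ range n, q ^ j := by
      rw [mul_sum]
      apply sum_congr rfl
      intro j _
      ring
    rw [h2]
    have h3 : (∑ j ∈ range n, q ^ j) * (1 - q) ≤ 1 := by
      have := geom_sum_mul q n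
      have hqn : 0 ≤ q ^ n := by positivity
      nlinarith
    have h4 : ∑ j ∈ range n, q ^ j ≤ 2 := by
      have h5 : 0 ≤ ∑ j ∈ range n, q ^ j := sum_nonneg (fun j _ => by positivity)
      nlinarith
    nlinarith
  have := mul_le_mul_of_nonneg_left hgeo (Real.exp_pos 6).le
  linarith

theorem giant_sum (ε : ℝ) (hε : 0 < ε) : ∃ n0 : ℕ, ∀ (V : Type) [Fintype V],
    n0 ≤ Fintype.card V →
    ∑ s ∈ univ.filter (fun s : Setoid V => ¬ small s ∧ s ≠ ⊤), ww s *
      ((1 + (1 + 7 / 2 * Real.log (Fintype.card V) / Fintype.card V)⁻¹) / 2) ^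
        (EE V \ inn s).card ≤ ε := by
  have hlog : Filter.Tendsto (fun n : ℕ => Real.log (n : ℝ)) Filter.atTop Filter.atTop :=
    Real.tendsto_log_atTop.comp tendsto_natCast_atTop_atTop
  have ht1 : Filter.Tendsto (fun n : ℕ => 7 / 2 * Real.log n / n) Filter.atTop (nhds 0) := by
    have h1 : Filter.Tendsto (fun x : ℝ => Real.log x / x) Filter.atTop (nhds 0) := by
      have := Real.isLittleO_log_id_atTop.tendsto_div_nhds_zero
      exact this
    have h2 := (h1.comp tendsto_natCast_atTop_atTop).const_mul (7 / 2)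
    rw [mul_zero] at h2
    refine h2.congr fun n => ?_
    simp only [Function.comp]
    ring
  have ht2 : Filter.Tendsto (fun n : ℕ => 2 * Real.exp 12 * Real.exp (-(3 / 20) * Real.log n))
      Filter.atTop (nhds 0) := by
    have h1 : Filter.Tendsto (fun n : ℕ => -(3 / 20) * Real.log (n : ℝ)) Filter.atTop
        Filter.atBot := by
      apply Filter.Tendsto.const_mul_atTop_of_neg (by norm_num) hlog
    have h2 := (Real.tendsto_exp_atBot.comp h1).const_mul (2 * Real.exp 12)
    rw [mul_zero] at h2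
    exact h2
  have e1 := ht1.eventually_le_const (show (0 : ℝ) < 1 / 100 by norm_num)
  have e2 := ht2.eventually_le_const (show (0 : ℝ) < min (1 / 2) (ε / (2 * Real.exp 6)) by positivity)
  obtain ⟨n1, hn1⟩ := Filter.eventually_atTop.1 (e1.and e2)
  refine ⟨max n1 2, fun V _ hV => ?_⟩
  set n := Fintype.card V with hn
  have h1 : n1 ≤ n := (le_max_left _ _).trans hV
  have h2 : 2 ≤ n := (le_max_right _ _).trans hV
  obtain ⟨a1, a2⟩ := hn1 n h1
  have hn0 : (0 : ℝ) < n := by positivity
  have hL0 : 0 < Real.log n := Real.log_pos (by exact_mod_cast h2)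
  set x := 7 / 2 * Real.log n / n with hx
  have hx0 : 0 < x := by positivity
  have b1 : (1 + (1 + x)⁻¹) / 2 ≤ 1 := by
    have : (1 + x)⁻¹ ≤ 1 := inv_le_one_of_one_le₀ (by linarith)
    linarith
  have hcomb := giant_comb (V := V) ((1 + (1 + x)⁻¹) / 2) (by positivity) b1
  refine hcomb.trans ?_
  have hnum := giant_num n x (Real.log n) _ h2 rfl (by rw [hx]; field_simp) hx0 a1 rfl
    (a2.trans (min_le_left _ _))
  refine hnum.trans ?_
  have h3 := a2.trans (min_le_right _ _)
  rw [le_div_iff₀ (by positivity)] at h3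
  linarith

end

end Pool.Agent.R88.RR
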