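import Pool.Agent.R88.RR.PL

/-! Project RR, piece NS. -/

set_option autoImplicit false

namespace Pool.Agent.R88.RR

open Finset
open scoped Classical Nat

noncomputable section

variable {V : Type} [Fintype V]

theorem ns_pairs (s : Setoid V) :
    (Fintype.card V) ^ 2 ≤ 2 * (EE V \ inn s).card + ∑ B ∈ cls s, B.card ^ 2 := by
  have h1 : (univ.filter (fun p : V × V => ¬ s p.1 p.2)).card ≤ 2 * (EE V \ inn s).card := by
    have h2 := card_le_mul_card_image (f := fun p : V × V => s(p.1, p.2))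
      (univ.filter (fun p : V × V => ¬ s p.1 p.2)) 2 (by
        intro e he
        obtain ⟨⟨a, b⟩, _, rfl⟩ := mem_image.1 he
        refine (card_le_card (t := {(a, b), (b, a)}) ?_).trans card_le_two
        intro x hx
        rw [mem_filter] at hx
        have h3 := hx.2
        simp only [Sym2.eq_iff] at h3
        rw [mem_insert, mem_singleton]
        rcases h3 with ⟨h4, h5⟩ | ⟨h4, h5⟩
        · left; exact Prod.ext h4 h5
        · right; exact Prod.ext h4 h5)
    refine h2.trans (Nat.mul_le_mul_left _ (card_le_card ?_))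
    intro e he
    obtain ⟨⟨a, b⟩, hab, rfl⟩ := mem_image.1 he
    rw [mem_filter] at hab
    have h4 : ¬ s a b := hab.2
    rw [mem_sdiff, EE, mem_filter]
    refine ⟨⟨mem_univ _, ?_⟩, ?_⟩
    · intro hd
      rw [Sym2.mk_isDiag_iff] at hd
      have hd' : a = b := hd
      exact h4 (by rw [hd'])
    · intro hi
      rw [inn, mem_filter] at hi
      exact h4 (hi.2 a (Sym2.mem_mk_left a b) b (Sym2.mem_mk_right a b))
  have h2 : (univ.filter (fun p : V × V => s p.1 p.2)).card ≤ ∑ B ∈ cls s, B.card ^ 2 := by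
    have h3 : univ.filter (fun p : V × V => s p.1 p.2) ⊆ (cls s).biUnion (fun B => B ×ˢ B) := by
      rintro ⟨a, b⟩ hab
      rw [mem_filter] at hab
      rw [mem_biUnion]
      refine ⟨univ.filter (fun c => s a c), mem_image.2 ⟨a, mem_univ _, rfl⟩, ?_⟩
      rw [mem_product, mem_filter, mem_filter]
      exact ⟨⟨mem_univ _, s.refl a⟩, ⟨mem_univ _, hab.2⟩⟩
    refine (card_le_card h3).trans (card_biUnion_le.trans (le_of_eq ?_))
    apply sum_congr rfl
    intro B _
    rw [card_product, sq]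
  have h3 := card_filter_add_card_filter_not (s := (univ : Finset (V × V)))
    (fun p : V × V => s p.1 p.2)
  rw [card_univ, Fintype.card_prod, ← sq] at h3
  lia

theorem ns_choose (n m : ℕ) (h : m ≤ n) : n ^ m ≤ m ^ m * n.choose m := by
  induction m generalizing n with
  | zero => simp
  | succ m ih =>
    obtain ⟨n', rfl⟩ : ∃ n', n = n' + 1 := ⟨n - 1, by lia⟩
    have h1 := ih n' (by lia)
    have h2 := Nat.add_one_mul_choose_eq n' m
    -- (n'+1)^(m+1) * m^m ≤ (m+1)^m (n'+1) n'^m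
    rcases Nat.eq_zero_or_pos m with h0 | h0
    · subst h0; simp
    · have h3 : (n' + 1) * m ≤ n' * (m + 1) := by nlinarith
      have h4 : ((n' + 1) * m) ^ m ≤ (n' * (m + 1)) ^ m := Nat.pow_le_pow_left h3 m
      have h5 : (n' + 1) ^ (m + 1) * m ^ m ≤
          ((m + 1) ^ (m + 1) * (n' + 1).choose (m + 1)) * m ^ m := by
        calc (n' + 1) ^ (m + 1) * m ^ m = (n' + 1) * ((n' + 1) * m) ^ m := by
              rw [mul_pow, pow_succ]; ring
          _ ≤ (n' + 1) * (n' * (m + 1)) ^ m := Nat.mul_le_mul_left _ h4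
          _ = (n' + 1) * (m + 1) ^ m * n' ^ m := by rw [mul_pow]; ring
          _ ≤ (n' + 1) * (m + 1) ^ m * (m ^ m * n'.choose m) := Nat.mul_le_mul_left _ h1
          _ = (m + 1) ^ m * m ^ m * ((n' + 1) * n'.choose m) := by ring
          _ = (m + 1) ^ m * m ^ m * ((n' + 1).choose (m + 1) * (m + 1)) := by rw [h2]
          _ = _ := by rw [pow_succ]; ring
      exact Nat.le_of_mul_le_mul_right h5 (by positivity)

theorem ns_fact {n k : ℕ} (hn : 1 ≤ n) (hk : k ≤ n) :
    (k ! : ℝ) ≤ (n ! : ℝ) * (Real.exp 1 / n) ^ (n - k) := by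
  have hn0 : (0 : ℝ) < n := by exact_mod_cast hn
  set m := n - k with hm
  have hkm : k = n - m := by lia
  have hmn : m ≤ n := by lia
  have h1 : ((n : ℝ)) ^ m ≤ (m : ℝ) ^ m * (n.choose m : ℝ) := by
    exact_mod_cast ns_choose n m hmn
  have h2 : (m : ℝ) ^ m ≤ (m ! : ℝ) * Real.exp 1 ^ m := by
    have h3 := Real.pow_div_factorial_le_exp (m : ℝ) (Nat.cast_nonneg m) m
    rw [div_le_iff₀ (by positivity)] at h3
    rw [← Real.exp_nat_mul, mul_one, mul_comm]
    exact h3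
  have h4 : (n ! : ℝ) = (n.choose m : ℝ) * (m ! : ℝ) * (k ! : ℝ) := by
    rw [hkm]
    exact_mod_cast (Nat.choose_mul_factorial_mul_factorial hmn).symm
  rw [div_pow, mul_div_assoc', le_div_iff₀ (by positivity), h4]
  calc (k ! : ℝ) * (n : ℝ) ^ m ≤ (k ! : ℝ) * ((m : ℝ) ^ m * (n.choose m : ℝ)) := by gcongr
    _ ≤ (k ! : ℝ) * (((m ! : ℝ) * Real.exp 1 ^ m) * (n.choose m : ℝ)) := by gcongr
    _ = _ := by ring

theorem ns_cls_pos (s : Setoid V) : ∀ B ∈ cls s, 1 ≤ B.card := by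
  intro B hB
  obtain ⟨a, _, rfl⟩ := mem_image.1 hB
  exact card_pos.2 ⟨a, mem_filter.2 ⟨mem_univ _, s.refl a⟩⟩

theorem ns_sum_sub (s : Setoid V) :
    kk s ≤ Fintype.card V ∧ ∑ B ∈ cls s, (B.card - 1) = Fintype.card V - kk s := by
  have h1 : ∑ B ∈ cls s, (B.card - 1) + kk s = Fintype.card V := by
    rw [kk_eq, ← sum_cls s, card_eq_sum_ones, ← sum_add_distrib]
    apply sum_congr rfl
    intro B hB
    have := ns_cls_pos s B hB
    lia
  constructor <;> lia

theorem ns_prod_sub (s : Setoid V) (a : ℝ) :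
    a ^ (Fintype.card V - kk s) =
      ∏ B ∈ (cls s).filter (fun B => 2 ≤ B.card), a ^ (B.card - 1) := by
  rw [← (ns_sum_sub s).2, ← prod_pow_eq_pow_sum, prod_filter]
  apply prod_congr rfl
  intro B hB
  have := ns_cls_pos s B hB
  split_ifs with h
  · rfl
  · have : B.card - 1 = 0 := by lia
    rw [this, pow_zero]

theorem ns_exp_sq (s : Setoid V) {β : ℝ} (hβ : 0 ≤ β) :
    Real.exp (β * ∑ B ∈ cls s, (B.card : ℝ) ^ 2) ≤ Real.exp (β * Fintype.card V) *
      ∏ B ∈ (cls s).filter (fun B => 2 ≤ B.card), Real.exp (β * (B.card : ℝ) ^ 2) := by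
  rw [← Real.exp_sum, ← Real.exp_add, Real.exp_le_exp, ← mul_sum, ← mul_add]
  apply mul_le_mul_of_nonneg_left _ hβ
  rw [← sum_filter_add_sum_filter_not (cls s) (fun B => 2 ≤ B.card) (fun B => (B.card : ℝ) ^ 2),
    add_comm]
  gcongr
  have h1 : ∀ B ∈ (cls s).filter (fun B => ¬ 2 ≤ B.card), (B.card : ℝ) ^ 2 = 1 := by
    intro B hB
    rw [mem_filter] at hB
    have := ns_cls_pos s B hB.1
    have h2 : B.card = 1 := by lia
    rw [h2]; norm_num
  rw [sum_congr rfl h1, sum_const, nsmul_eq_mul, mul_one]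
  have h2 := (ns_sum_sub s).1
  rw [kk_eq] at h2
  exact_mod_cast (card_filter_le _ _).trans h2

/-- the summand for one partition -/
theorem ns_term (s : Setoid V) (hs : small s) (hn : 1 ≤ Fintype.card V) {ρ γ : ℝ} (hρ0 : 0 ≤ ρ)
    (hγ : 0 ≤ γ) (hρ : ρ ≤ Real.exp (-γ)) :
    ww s * ρ ^ (EE V \ inn s).card ≤
      (Real.exp (6 * Fintype.card V) * ((Fintype.card V)! : ℝ) *
        (Real.exp (γ / 2 * Fintype.card V) * Real.exp (-(γ / 2 * (Fintype.card V : ℝ) ^ 2)))) *
      ∏ B ∈ (cls s).filter (fun B => 2 ≤ B.card),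
        (fun b : ℕ => if 3 * b ≤ 2 * Fintype.card V then
          (Real.exp 1 / Fintype.card V) ^ (b - 1) * Real.exp (γ / 2 * (b : ℝ) ^ 2) else 0)
            B.card := by
  set n := Fintype.card V with hn'
  obtain ⟨hk, -⟩ := ns_sum_sub s
  have h1 : ww s ≤ Real.exp (6 * n) * ((n ! : ℝ) * (Real.exp 1 / n) ^ (n - kk s)) := by
    unfold ww
    have h2 := ns_fact hn hk
    have h3 : Real.exp (6 * (kk s : ℝ)) ≤ Real.exp (6 * n) := by
      rw [Real.exp_le_exp]
      have : (kk s : ℝ) ≤ n := by exact_mod_cast hk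
      linarith
    rw [mul_comm (Real.exp (6 * (n : ℝ)))]
    exact mul_le_mul h2 h3 (Real.exp_nonneg _) (by positivity)
  have h2 : ρ ^ (EE V \ inn s).card ≤ Real.exp (-(γ / 2 * (n : ℝ) ^ 2)) *
      Real.exp (γ / 2 * ∑ B ∈ cls s, (B.card : ℝ) ^ 2) := by
    calc ρ ^ (EE V \ inn s).card ≤ Real.exp (-γ) ^ (EE V \ inn s).card :=
          pow_le_pow_left₀ hρ0 hρ _
      _ = Real.exp (-(γ * (EE V \ inn s).card)) := by
          rw [← Real.exp_nat_mul]; congr 1; ring
      _ ≤ _ := by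
          rw [← Real.exp_add, Real.exp_le_exp]
          have h3 : (n : ℝ) ^ 2 ≤ 2 * (EE V \ inn s).card + ∑ B ∈ cls s, (B.card : ℝ) ^ 2 := by
            exact_mod_cast ns_pairs s
          nlinarith
  have h3 := ns_exp_sq s (show 0 ≤ γ / 2 by positivity)
  have h4 : ∏ B ∈ (cls s).filter (fun B => 2 ≤ B.card),
        (fun b : ℕ => if 3 * b ≤ 2 * n then
          (Real.exp 1 / n) ^ (b - 1) * Real.exp (γ / 2 * (b : ℝ) ^ 2) else 0) B.card =
      (Real.exp 1 / n) ^ (n - kk s) *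
        ∏ B ∈ (cls s).filter (fun B => 2 ≤ B.card), Real.exp (γ / 2 * (B.card : ℝ) ^ 2) := by
    rw [hn', ns_prod_sub s, ← prod_mul_distrib]
    apply prod_congr rfl
    intro B hB
    have := hs B (mem_filter.1 hB).1
    simp only [if_pos this]
  rw [h4]
  calc ww s * ρ ^ (EE V \ inn s).card
      ≤ (Real.exp (6 * n) * ((n ! : ℝ) * (Real.exp 1 / n) ^ (n - kk s))) *
        (Real.exp (-(γ / 2 * (n : ℝ) ^ 2)) * (Real.exp (γ / 2 * n) *
          ∏ B ∈ (cls s).filter (fun B => 2 ≤ B.card), Real.exp (γ / 2 * (B.card : ℝ) ^ 2))) := by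
        refine mul_le_mul h1 (h2.trans ?_) (by positivity) (by positivity)
        exact mul_le_mul_of_nonneg_left h3 (Real.exp_nonneg _)
    _ = _ := by ring

/-- dominating sequence -/
def ns_c (b : ℕ) : ℝ := Real.exp (b * (5 - Real.log b / 6))

theorem ns_c_nonneg (b : ℕ) : 0 ≤ ns_c b := Real.exp_nonneg _

theorem ns_c_summable : Summable ns_c := by
  have h1 : Summable (fun b : ℕ => Real.exp (-1) ^ b) :=
    summable_geometric_of_lt_one (Real.exp_nonneg _) (by rw [Real.exp_lt_one_iff]; norm_num)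
  refine Summable.of_norm_bounded_eventually_nat h1 ?_
  have h2 : ∀ᶠ b : ℕ in Filter.atTop, (36 : ℝ) ≤ Real.log b :=
    (Real.tendsto_log_atTop.comp tendsto_natCast_atTop_atTop).eventually_ge_atTop 36
  filter_upwards [h2] with b hb
  rw [Real.norm_of_nonneg (ns_c_nonneg b), ns_c, ← Real.exp_nat_mul, Real.exp_le_exp]
  have : (0 : ℝ) ≤ b := Nat.cast_nonneg b
  nlinarith

/-- key inequality -/
theorem ns_key {n b : ℕ} (hb : 2 ≤ b) (hbn : 3 * b ≤ 2 * n) :
    5 / 4 * Real.log n * b / n ≤ 5 / 6 * Real.log b + 5 / 2 := by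
  have hn : 3 ≤ n := by lia
  have hn0 : (0 : ℝ) < n := by exact_mod_cast (by lia : 0 < n)
  have hb0 : (2 : ℝ) ≤ b := by exact_mod_cast hb
  have hlogn : Real.log n ≤ n := (Real.log_le_sub_one_of_pos hn0).trans (by linarith)
  have hlogb : 0 ≤ Real.log b := Real.log_nonneg (by linarith)
  rw [div_le_iff₀ hn0]
  rcases Nat.lt_or_ge b 3 with h | h
  · have hb2 : b = 2 := by lia
    subst hb2
    push_cast
    have h2 : 0 ≤ Real.log 2 := Real.log_nonneg (by norm_num)
    nlinarith [mul_nonneg h2 hn0.le]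
  · have hb3 : (3 : ℝ) ≤ b := by exact_mod_cast h
    have he : Real.exp 1 ≤ 3 := by have := Real.exp_one_lt_d9; linarith
    have hbn' : (b : ℝ) ≤ 2 * n / 3 := by
      have : (3 : ℝ) * b ≤ 2 * n := by exact_mod_cast hbn
      linarith
    have h1 := Real.log_div_self_antitoneOn (show Real.exp 1 ≤ (b : ℝ) by linarith)
      (show Real.exp 1 ≤ (2 * (n : ℝ) / 3) by linarith) hbn'
    simp only at h1
    have h2 : Real.log (2 * n / 3) = Real.log n - Real.log (3 / 2) := by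
      rw [← Real.log_div (by positivity) (by norm_num)]
      congr 1; ring
    have h3 : Real.log (3 / 2) ≤ 1 / 2 := by
      have := Real.log_le_sub_one_of_pos (show (0 : ℝ) < 3 / 2 by norm_num)
      linarith
    rw [div_le_div_iff₀ (by positivity) (by positivity), h2] at h1
    nlinarith

theorem ns_W {n b : ℕ} (hb : 2 ≤ b) (hbn : 3 * b ≤ 2 * n) {β : ℝ}
    (hβ : β ≤ 5 / 4 * Real.log n / n) :
    (n.choose b : ℝ) * ((Real.exp 1 / n) ^ (b - 1) * Real.exp (β * (b : ℝ) ^ 2)) ≤ n * ns_c b := by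
  have hn : 3 ≤ n := by lia
  have hn0 : (0 : ℝ) < n := by exact_mod_cast (by lia : 0 < n)
  have hb0 : (0 : ℝ) < b := by exact_mod_cast (by lia : 0 < b)
  have h1 : (n.choose b : ℝ) ≤ (n : ℝ) ^ b / (b ! : ℝ) := Nat.choose_le_pow_div b n
  have h2 : (1 : ℝ) / (b ! : ℝ) ≤ Real.exp (b - b * Real.log b) := by
    have h3 := Real.pow_div_factorial_le_exp (b : ℝ) hb0.le b
    rw [Real.exp_sub, mul_comm (b : ℝ), Real.exp_mul, Real.exp_log hb0, Real.rpow_natCast,
      le_div_iff₀ (by positivity)]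
    calc 1 / (b ! : ℝ) * (b : ℝ) ^ b = (b : ℝ) ^ b / (b ! : ℝ) := by ring
      _ ≤ _ := h3
  obtain ⟨a, rfl⟩ : ∃ a, b = a + 1 := ⟨b - 1, by lia⟩
  have h4 : (n.choose (a + 1) : ℝ) * (Real.exp 1 / n) ^ (a + 1 - 1) ≤
      n * Real.exp (((a + 1 : ℕ) : ℝ) * (2 - Real.log ((a + 1 : ℕ) : ℝ))) := by
    rw [Nat.add_sub_cancel, div_pow]
    calc (n.choose (a + 1) : ℝ) * (Real.exp 1 ^ a / (n : ℝ) ^ a)
        ≤ ((n : ℝ) ^ (a + 1) / ((a + 1)! : ℝ)) * (Real.exp 1 ^ a / (n : ℝ) ^ a) := by gcongr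
      _ = n * (1 / ((a + 1)! : ℝ)) * Real.exp 1 ^ a := by
          rw [pow_succ]; field_simp
      _ ≤ n * Real.exp (((a + 1 : ℕ) : ℝ) - ((a + 1 : ℕ) : ℝ) * Real.log ((a + 1 : ℕ) : ℝ)) *
          Real.exp 1 ^ a := by gcongr
      _ ≤ n * Real.exp (((a + 1 : ℕ) : ℝ) - ((a + 1 : ℕ) : ℝ) * Real.log ((a + 1 : ℕ) : ℝ)) *
          Real.exp 1 ^ (a + 1) := by
          gcongr
          · exact Real.one_le_exp (by norm_num)
          · lia
      _ = _ := by
          rw [← Real.exp_nat_mul, mul_assoc, ← Real.exp_add]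
          congr 2; ring
  have h5 : Real.exp (β * ((a + 1 : ℕ) : ℝ) ^ 2) ≤
      Real.exp (((a + 1 : ℕ) : ℝ) * (5 / 6 * Real.log ((a + 1 : ℕ) : ℝ) + 5 / 2)) := by
    rw [Real.exp_le_exp, sq, ← mul_assoc, mul_comm]
    apply mul_le_mul_of_nonneg_left _ hb0.le
    refine le_trans ?_ (ns_key hb hbn)
    calc β * ((a + 1 : ℕ) : ℝ) ≤ (5 / 4 * Real.log n / n) * ((a + 1 : ℕ) : ℝ) := by gcongr
      _ = _ := by ring
  calc (n.choose (a + 1) : ℝ) * ((Real.exp 1 / n) ^ (a + 1 - 1) *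
        Real.exp (β * ((a + 1 : ℕ) : ℝ) ^ 2))
      = ((n.choose (a + 1) : ℝ) * (Real.exp 1 / n) ^ (a + 1 - 1)) *
        Real.exp (β * ((a + 1 : ℕ) : ℝ) ^ 2) := by ring
    _ ≤ (n * Real.exp (((a + 1 : ℕ) : ℝ) * (2 - Real.log ((a + 1 : ℕ) : ℝ)))) *
        Real.exp (((a + 1 : ℕ) : ℝ) * (5 / 6 * Real.log ((a + 1 : ℕ) : ℝ) + 5 / 2)) :=
        mul_le_mul h4 h5 (Real.exp_nonneg _) (by positivity)
    _ ≤ n * ns_c (a + 1) := by
        rw [mul_assoc, ← Real.exp_add, ns_c]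
        apply mul_le_mul_of_nonneg_left _ hn0.le
        rw [Real.exp_le_exp]
        nlinarith

/-- the parameters -/
theorem ns_rho {x : ℝ} (hx : 0 ≤ x) : (1 + (1 + x)⁻¹) / 2 ≤ Real.exp (-(x / (2 * (1 + x)))) := by
  have h1 : (1 + (1 + x)⁻¹) / 2 = 1 - x / (2 * (1 + x)) := by
    field_simp; ring
  rw [h1]
  exact Real.one_sub_le_exp_neg _

theorem ns_ev (C ε : ℝ) (hε : 0 < ε) : ∃ n0 : ℕ, ∀ n : ℕ, n0 ≤ n → 3 ≤ n ∧
    50 * Real.log n ≤ n ∧ C ≤ Real.log n ∧ Real.exp (-(n : ℝ)) ≤ ε := by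
  have h1 : Filter.Tendsto (fun n : ℕ => Real.log n / n) Filter.atTop (nhds 0) := by
    have h := (Real.tendsto_pow_log_div_mul_add_atTop 1 0 1 one_ne_zero).comp
      tendsto_natCast_atTop_atTop
    simpa [Function.comp_def] using h
  have h2 : ∀ᶠ n : ℕ in Filter.atTop, Real.log n / n < 1 / 50 :=
    h1.eventually_lt_const (by norm_num)
  have h3 : ∀ᶠ n : ℕ in Filter.atTop, C ≤ Real.log n :=
    (Real.tendsto_log_atTop.comp tendsto_natCast_atTop_atTop).eventually_ge_atTop C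
  have h4 : ∀ᶠ n : ℕ in Filter.atTop, Real.exp (-(n : ℝ)) < ε :=
    (Real.tendsto_exp_neg_atTop_nhds_zero.comp tendsto_natCast_atTop_atTop).eventually_lt_const hε
  obtain ⟨n0, hn0⟩ := Filter.eventually_atTop.1
    (h2.and (h3.and (h4.and (Filter.eventually_ge_atTop 3))))
  refine ⟨n0, fun n hn => ?_⟩
  obtain ⟨a1, a2, a3, a4⟩ := hn0 n hn
  have hn' : (0 : ℝ) < n := by exact_mod_cast (by lia : 0 < n)
  rw [div_lt_iff₀ hn'] at a1
  exact ⟨a4, by linarith, a2, a3.le⟩

theorem small_sum (ε : ℝ) (hε : 0 < ε) : ∃ n0 : ℕ, ∀ (V : Type) [Fintype V],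
    n0 ≤ Fintype.card V →
    ∑ s ∈ univ.filter (fun s : Setoid V => small s), ww s *
      ((1 + (1 + 5 * Real.log (Fintype.card V) / Fintype.card V)⁻¹) / 2) ^
        (EE V \ inn s).card ≤ ε := by
  set C0 : ℝ := ∑' b, ns_c b with hC0
  obtain ⟨n0, hn0⟩ := ns_ev ((33 / 4 + C0) * 10) ε hε
  refine ⟨n0, fun V _ hV => ?_⟩
  obtain ⟨h3, h50, hC, hexp⟩ := hn0 _ hV
  set n := Fintype.card V with hn
  have hn1 : 1 ≤ n := by lia
  have hnr : (0 : ℝ) < n := by exact_mod_cast hn1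
  have hn1r : (1 : ℝ) ≤ n := by exact_mod_cast hn1
  have hL0 : 0 ≤ Real.log n := Real.log_nonneg hn1r
  set L := Real.log n with hL
  set x : ℝ := 5 * L / n with hx
  have hx0 : 0 ≤ x := by positivity
  have hx1 : x ≤ 1 / 10 := by
    rw [hx, div_le_iff₀ hnr]; linarith
  set γ : ℝ := x / (2 * (1 + x)) with hγ
  have hγ0 : 0 ≤ γ := by positivity
  have hγ2 : γ / 2 ≤ 5 / 4 * L / n := by
    have h1 : γ ≤ x / 2 := by
      rw [hγ]
      apply div_le_div_of_nonneg_left hx0 (by norm_num) (by linarith)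
    calc γ / 2 ≤ x / 2 / 2 := by linarith
      _ = _ := by rw [hx]; ring
  have hγ3 : 5 / 4 * L / (11 / 10) ≤ γ / 2 * n := by
    have h1 : x / (2 * (11 / 10)) ≤ γ := by
      rw [hγ]
      apply div_le_div_of_nonneg_left hx0 (by positivity) (by linarith)
    have h2 : x * n = 5 * L := by rw [hx]; field_simp
    have h4 : x * n / (2 * (11 / 10)) ≤ γ * n := by
      calc x * n / (2 * (11 / 10)) = x / (2 * (11 / 10)) * n := by ring
        _ ≤ γ * n := by gcongr
    have h5 : x * n / (2 * (11 / 10)) = 25 / 11 * L := by rw [h2]; ring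
    rw [h5] at h4
    linarith
  set W : ℕ → ℝ := fun b => if 3 * b ≤ 2 * n then
      (Real.exp 1 / n) ^ (b - 1) * Real.exp (γ / 2 * (b : ℝ) ^ 2) else 0 with hW
  have hW0 : ∀ b, 0 ≤ W b := by
    intro b
    simp only [hW]
    split_ifs <;> positivity
  have hρ0 : 0 ≤ (1 + (1 + x)⁻¹) / 2 := by positivity
  have hsum : ∑ b ∈ Icc 2 n, (n.choose b : ℝ) * W b ≤ n * C0 := by
    calc ∑ b ∈ Icc 2 n, (n.choose b : ℝ) * W b ≤ ∑ b ∈ Icc 2 n, n * ns_c b := by
          apply sum_le_sum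
          intro b hb
          rw [mem_Icc] at hb
          simp only [hW]
          split_ifs with h
          · exact ns_W hb.1 h hγ2
          · rw [mul_zero]; exact mul_nonneg hnr.le (ns_c_nonneg b)
      _ = n * ∑ b ∈ Icc 2 n, ns_c b := by rw [mul_sum]
      _ ≤ n * C0 := by
          apply mul_le_mul_of_nonneg_left _ hnr.le
          exact ns_c_summable.sum_le_tsum _ (fun b _ => ns_c_nonneg b)
  set K : ℝ := Real.exp (6 * n) * (n ! : ℝ) *
        (Real.exp (γ / 2 * n) * Real.exp (-(γ / 2 * (n : ℝ) ^ 2))) with hK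
  have hK0 : 0 ≤ K := by positivity
  have hfac : (n ! : ℝ) ≤ Real.exp (n * L) := by
    have h1 : (n ! : ℝ) ≤ (n : ℝ) ^ n := by exact_mod_cast Nat.factorial_le_pow n
    rw [mul_comm, Real.exp_mul, hL, Real.exp_log hnr, Real.rpow_natCast]
    exact h1
  calc ∑ s ∈ univ.filter (fun s : Setoid V => small s), ww s *
      ((1 + (1 + x)⁻¹) / 2) ^ (EE V \ inn s).card
      ≤ ∑ s ∈ univ.filter (fun s : Setoid V => small s),
        K * ∏ B ∈ (cls s).filter (fun B => 2 ≤ B.card), W B.card := by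
        apply sum_le_sum
        intro s hs
        exact ns_term s (mem_filter.1 hs).2 hn1 hρ0 hγ0 (ns_rho hx0)
    _ ≤ ∑ s : Setoid V, K * ∏ B ∈ (cls s).filter (fun B => 2 ≤ B.card), W B.card := by
        apply sum_le_sum_of_subset_of_nonneg (filter_subset _ _)
        intro s _ _
        exact mul_nonneg hK0 (prod_nonneg fun B _ => hW0 _)
    _ = K * ∑ s : Setoid V, ∏ B ∈ (cls s).filter (fun B => 2 ≤ B.card), W B.card := by
        rw [mul_sum]
    _ ≤ K * Real.exp (n * C0) := by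
        apply mul_le_mul_of_nonneg_left _ hK0
        refine (prod_lemma W hW0).trans ?_
        rw [Real.exp_le_exp]
        exact hsum
    _ ≤ (Real.exp (6 * n) * Real.exp (n * L) *
        (Real.exp (γ / 2 * n) * Real.exp (-(γ / 2 * (n : ℝ) ^ 2)))) * Real.exp (n * C0) := by
        rw [hK]; gcongr
    _ = Real.exp (6 * n + n * L + (γ / 2 * n + -(γ / 2 * (n : ℝ) ^ 2)) + n * C0) := by
        simp only [Real.exp_add]
    _ ≤ Real.exp (-(n : ℝ)) := by
        rw [Real.exp_le_exp]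
        have e1 : γ / 2 * n ≤ 5 / 4 * n := by
          have h1 : γ / 2 * n ≤ 5 / 4 * L := by
            calc γ / 2 * n ≤ (5 / 4 * L / n) * n := by gcongr
              _ = _ := by field_simp
          have h2 : L ≤ n := by linarith
          linarith
        have e2 : (5 / 4 * L / (11 / 10)) * n ≤ γ / 2 * (n : ℝ) ^ 2 := by
          calc (5 / 4 * L / (11 / 10)) * n ≤ (γ / 2 * n) * n := by gcongr
            _ = _ := by ring
        nlinarith
    _ ≤ ε := hexp

theorem ns_count : (univ.filter (fun s : Setoid V => kk s = 2)).card ≤ 2 ^ Fintype.card V := by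
  have h1 : univ.filter (fun s : Setoid V => kk s = 2) ⊆
      univ.image (fun f : V → Fin 2 => Setoid.ker f) := by
    intro s hs
    have hs2 : Nat.card (Quotient s) = 2 := (mem_filter.1 hs).2
    have hfin : Finite (Quotient s) := Nat.finite_of_card_ne_zero (by rw [hs2]; norm_num)
    let e := Finite.equivFinOfCardEq hs2
    refine mem_image.2 ⟨fun v => e (Quotient.mk s v), mem_univ _, ?_⟩
    ext a b
    rw [Setoid.ker_def]
    constructor
    · intro h
      exact Quotient.exact (e.injective h)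
    · intro h
      exact congrArg e (Quotient.sound h)
  refine (card_le_card h1).trans (card_image_le.trans ?_)
  rw [card_univ, Fintype.card_fun, Fintype.card_fin]

theorem ns_cut (s : Setoid V) (hs : small s) :
    (Fintype.card V) ^ 2 ≤ 6 * (EE V \ inn s).card := by
  have h1 := ns_pairs s
  have h2 : 3 * ∑ B ∈ cls s, B.card ^ 2 ≤ 2 * (Fintype.card V) ^ 2 := by
    calc 3 * ∑ B ∈ cls s, B.card ^ 2 = ∑ B ∈ cls s, (3 * B.card) * B.card := by
          rw [mul_sum]; apply sum_congr rfl; intro B _; ring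
      _ ≤ ∑ B ∈ cls s, (2 * Fintype.card V) * B.card :=
          sum_le_sum fun B hB => Nat.mul_le_mul_right _ (hs B hB)
      _ = 2 * (Fintype.card V) ^ 2 := by rw [← mul_sum, sum_cls]; ring
  lia

theorem two_sum (ε : ℝ) (hε : 0 < ε) : ∃ n0 : ℕ, ∀ (V : Type) [Fintype V],
    n0 ≤ Fintype.card V →
    ∑ s ∈ univ.filter (fun s : Setoid V => small s ∧ kk s = 2),
      ((1 + (1 + 7 / 2 * Real.log (Fintype.card V) / Fintype.card V)⁻¹) / 2) ^
        (EE V \ inn s).card ≤ ε := by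
  obtain ⟨n0, hn0⟩ := ns_ev 20 ε hε
  refine ⟨n0, fun V _ hV => ?_⟩
  obtain ⟨h3, h50, hC, hexp⟩ := hn0 _ hV
  set n := Fintype.card V with hn
  have hn1 : 1 ≤ n := by lia
  have hnr : (0 : ℝ) < n := by exact_mod_cast hn1
  have hn1r : (1 : ℝ) ≤ n := by exact_mod_cast hn1
  set L := Real.log n with hL
  have hL0 : 0 ≤ L := Real.log_nonneg hn1r
  set x : ℝ := 7 / 2 * L / n with hx
  have hx0 : 0 ≤ x := by positivity
  have hx1 : x ≤ 1 / 10 := by
    rw [hx, div_le_iff₀ hnr]; linarith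
  set γ : ℝ := x / (2 * (1 + x)) with hγ
  have hγ0 : 0 ≤ γ := by positivity
  have hγ3 : 7 / 4 * L / (11 / 10) ≤ γ * n := by
    have h1 : x / (2 * (11 / 10)) ≤ γ := by
      rw [hγ]
      apply div_le_div_of_nonneg_left hx0 (by positivity) (by linarith)
    have h2 : x * n = 7 / 2 * L := by rw [hx]; field_simp
    have h4 : x * n / (2 * (11 / 10)) ≤ γ * n := by
      calc x * n / (2 * (11 / 10)) = x / (2 * (11 / 10)) * n := by ring
        _ ≤ γ * n := by gcongr
    have h5 : x * n / (2 * (11 / 10)) = 35 / 22 * L := by rw [h2]; ring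
    rw [h5] at h4
    linarith
  have hterm : ∀ s ∈ univ.filter (fun s : Setoid V => small s ∧ kk s = 2),
      ((1 + (1 + x)⁻¹) / 2) ^ (EE V \ inn s).card ≤ Real.exp (-(γ * (n : ℝ) ^ 2 / 6)) := by
    intro s hs
    have hs' := (mem_filter.1 hs).2.1
    calc ((1 + (1 + x)⁻¹) / 2) ^ (EE V \ inn s).card
        ≤ Real.exp (-γ) ^ (EE V \ inn s).card :=
          pow_le_pow_left₀ (by positivity) (ns_rho hx0) _
      _ = Real.exp (-(γ * (EE V \ inn s).card)) := by
          rw [← Real.exp_nat_mul]; congr 1; ring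
      _ ≤ _ := by
          rw [Real.exp_le_exp]
          have h4 : (n : ℝ) ^ 2 ≤ 6 * (EE V \ inn s).card := by exact_mod_cast ns_cut s hs'
          nlinarith
  have hcount : ((univ.filter (fun s : Setoid V => small s ∧ kk s = 2)).card : ℝ) ≤ 2 ^ n := by
    have h4 : (univ.filter (fun s : Setoid V => small s ∧ kk s = 2)).card ≤ 2 ^ n := by
      refine le_trans (card_le_card ?_) (ns_count (V := V))
      intro s hs
      exact mem_filter.2 ⟨mem_univ _, (mem_filter.1 hs).2.2⟩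
    exact_mod_cast h4
  have h2e : (2 : ℝ) ^ n ≤ Real.exp n := by
    rw [show (n : ℝ) = n * 1 by ring, Real.exp_nat_mul]
    apply pow_le_pow_left₀ (by norm_num)
    have := Real.add_one_le_exp (1 : ℝ)
    linarith
  calc ∑ s ∈ univ.filter (fun s : Setoid V => small s ∧ kk s = 2),
      ((1 + (1 + x)⁻¹) / 2) ^ (EE V \ inn s).card
      ≤ ∑ s ∈ univ.filter (fun s : Setoid V => small s ∧ kk s = 2),
        Real.exp (-(γ * (n : ℝ) ^ 2 / 6)) := sum_le_sum hterm
    _ = ((univ.filter (fun s : Setoid V => small s ∧ kk s = 2)).card : ℝ) *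
        Real.exp (-(γ * (n : ℝ) ^ 2 / 6)) := by rw [sum_const, nsmul_eq_mul]
    _ ≤ Real.exp n * Real.exp (-(γ * (n : ℝ) ^ 2 / 6)) := by
        gcongr
        exact hcount.trans h2e
    _ = Real.exp (n + -(γ * (n : ℝ) ^ 2 / 6)) := by rw [Real.exp_add]
    _ ≤ Real.exp (-(n : ℝ)) := by
        rw [Real.exp_le_exp]
        have e2 : (7 / 4 * L / (11 / 10)) * n ≤ γ * (n : ℝ) ^ 2 := by
          calc (7 / 4 * L / (11 / 10)) * n ≤ (γ * n) * n := by gcongr
            _ = _ := by ring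
        nlinarith
    _ ≤ ε := hexp

end

end Pool.Agent.R88.RR
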