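import Mathlib

set_option autoImplicit false

namespace Pool.Agent.R88.RR.Num

open Filter Topology
open scoped Nat

theorem tend (k : ℕ) (c : ℝ) (hc : 0 < c) :
    Tendsto (fun u : ℝ => u ^ k * Real.exp (-(c * u))) atTop (𝓝 0) := by
  have h1 := (Real.tendsto_pow_mul_exp_neg_atTop_nhds_zero k).comp
    (tendsto_id.const_mul_atTop hc)
  have h2 : Tendsto (fun u : ℝ => (1 / c ^ k) * ((c * u) ^ k * Real.exp (-(c * u)))) atTop
      (𝓝 ((1 / c ^ k) * 0)) := h1.const_mul _
  rw [mul_zero] at h2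
  refine h2.congr ?_
  intro u
  rw [mul_pow]
  field_simp

theorem ev_small (a : ℝ) (k : ℕ) (c : ℝ) (hc : 0 < c) (ε : ℝ) (hε : 0 < ε) :
    ∀ᶠ u : ℝ in atTop, a * (u ^ k * Real.exp (-(c * u))) ≤ ε := by
  have h := (tend k c hc).const_mul a
  rw [mul_zero] at h
  exact (h.eventually (gt_mem_nhds hε)).mono (fun u hu => hu.le)

theorem ev4 : ∀ᶠ u : ℝ in atTop,
    2 * Real.exp (u / 2) * u + 2 * u ^ 2 + 3 * u + 1 ≤ Real.exp u := by
  have h1 := ev_small 2 1 (1 / 2) (by norm_num) (1 / 4) (by norm_num)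
  have h2 := ev_small 2 2 1 (by norm_num) (1 / 4) (by norm_num)
  have h3 := ev_small 3 1 1 (by norm_num) (1 / 4) (by norm_num)
  have h4 := ev_small 1 0 1 (by norm_num) (1 / 4) (by norm_num)
  filter_upwards [h1, h2, h3, h4] with u h1 h2 h3 h4
  have e1 : Real.exp (u / 2) = Real.exp u * Real.exp (-(1 / 2 * u)) := by
    rw [← Real.exp_add]; congr 1; ring
  have e2 : (1 : ℝ) = Real.exp u * Real.exp (-(1 * u)) := by
    rw [← Real.exp_add]; simp
  have hp := Real.exp_pos u
  have k1 : 2 * Real.exp (u / 2) * u ≤ Real.exp u * (1 / 4) := by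
    rw [e1]
    nlinarith [mul_le_mul_of_nonneg_left h1 hp.le]
  have k2 : 2 * u ^ 2 ≤ Real.exp u * (1 / 4) := by
    have := mul_le_mul_of_nonneg_left h2 hp.le
    calc 2 * u ^ 2 = Real.exp u * (2 * (u ^ 2 * Real.exp (-(1 * u)))) := by
          rw [show Real.exp u * (2 * (u ^ 2 * Real.exp (-(1 * u)))) =
            2 * u ^ 2 * (Real.exp u * Real.exp (-(1 * u))) by ring, ← e2, mul_one]
      _ ≤ _ := this
  have k3 : 3 * u ≤ Real.exp u * (1 / 4) := by
    have := mul_le_mul_of_nonneg_left h3 hp.le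
    calc 3 * u = Real.exp u * (3 * (u ^ 1 * Real.exp (-(1 * u)))) := by
          rw [show Real.exp u * (3 * (u ^ 1 * Real.exp (-(1 * u)))) =
            3 * u * (Real.exp u * Real.exp (-(1 * u))) by ring, ← e2, mul_one]
      _ ≤ _ := this
  have k4 : 1 ≤ Real.exp u * (1 / 4) := by
    have := mul_le_mul_of_nonneg_left h4 hp.le
    calc (1 : ℝ) = Real.exp u * (1 * (u ^ 0 * Real.exp (-(1 * u)))) := by
          rw [show Real.exp u * (1 * (u ^ 0 * Real.exp (-(1 * u)))) =
            (Real.exp u * Real.exp (-(1 * u))) by ring, ← e2]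
      _ ≤ _ := this
  linarith

theorem ev5 (a : ℝ) : ∀ᶠ u : ℝ in atTop,
    Real.exp u + 7 / 4 * Real.exp (u / 2) * u + u + a ≤ 1 / 8 * Real.exp u * u := by
  have h1 := ev4
  have h2 : ∀ᶠ u : ℝ in atTop, (32 : ℝ) ≤ u := eventually_ge_atTop 32
  have h3 : ∀ᶠ u : ℝ in atTop, a ≤ u := eventually_ge_atTop a
  filter_upwards [h1, h2, h3] with u h1 h2 h3
  have hp := Real.exp_pos u
  have hp2 := Real.exp_pos (u / 2)
  have k1 : 2 * Real.exp (u / 2) * u ≤ Real.exp u := by nlinarith
  have k2 : 3 * u ≤ Real.exp u := by nlinarith [mul_pos hp2 (show (0 : ℝ) < u by linarith)]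
  nlinarith

theorem fact_upper (n : ℕ) (hn : 1 ≤ n) :
    ((n - 1)! : ℝ) ≤ Real.exp (1 + n * Real.log n - n) := by
  induction n, hn using Nat.le_induction with
  | base => simp
  | succ n hn ih =>
    have hn0 : (0 : ℝ) < n := by exact_mod_cast hn
    have h1 : ((n + 1 - 1)! : ℝ) = n * ((n - 1)! : ℝ) := by
      rw [Nat.add_sub_cancel]
      have := Nat.mul_factorial_pred (n := n) (by omega)
      exact_mod_cast this.symm
    rw [h1]
    have h2 : (n : ℝ) = Real.exp (Real.log n) := (Real.exp_log hn0).symm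
    calc (n : ℝ) * ((n - 1)! : ℝ) ≤ n * Real.exp (1 + n * Real.log n - n) :=
          mul_le_mul_of_nonneg_left ih hn0.le
      _ = Real.exp (Real.log n + (1 + n * Real.log n - n)) := by
          rw [Real.exp_add, ← h2]
      _ ≤ _ := by
          apply Real.exp_le_exp.2
          push_cast
          have h3 : 1 / ((n : ℝ) + 1) ≤ Real.log (n + 1) - Real.log n := by
            rw [← Real.log_div (by positivity) hn0.ne']
            have h4 := Real.one_sub_inv_le_log_of_pos
              (show 0 < ((n : ℝ) + 1) / n by positivity)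
            refine le_trans (le_of_eq ?_) h4
            field_simp
            ring
          have h5 : 1 ≤ ((n : ℝ) + 1) * (Real.log (n + 1) - Real.log n) := by
            have := mul_le_mul_of_nonneg_left h3 (show (0 : ℝ) ≤ (n : ℝ) + 1 by positivity)
            rw [mul_one_div_cancel (by positivity)] at this
            exact this
          nlinarith

theorem fact_lower (n : ℕ) (hn : 1 ≤ n) :
    Real.exp (n * Real.log n - n - Real.log n) ≤ ((n - 1)! : ℝ) := by
  have hn0 : (0 : ℝ) < n := by exact_mod_cast hn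
  have h1 := Real.pow_div_factorial_le_exp (n : ℝ) hn0.le n
  rw [div_le_iff₀ (by positivity)] at h1
  have h2 : (n ! : ℝ) = n * ((n - 1)! : ℝ) := by
    have := Nat.mul_factorial_pred (n := n) (by omega)
    exact_mod_cast this.symm
  rw [h2] at h1
  have h3 : (n : ℝ) ^ n = Real.exp (n * Real.log n) := by
    rw [mul_comm, Real.exp_mul, Real.exp_log hn0, Real.rpow_natCast]
  rw [h3] at h1
  rw [Real.exp_sub, Real.exp_sub, Real.exp_log hn0, div_le_iff₀ hn0, div_le_iff₀ (Real.exp_pos _)]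
  linarith

/-- lower bound for the connected part at `4 log n / n` -/
theorem pow_lower (n : ℕ) (hn : 3 ≤ n) (m : ℕ)
    (hm : (2 * (m : ℝ) - (n * (n - 1) / 2 : ℝ)) ^ 2 ≤ (n : ℝ) ^ 3)
    (h4 : 2 * Real.exp (Real.log n / 2) * Real.log n + 2 * Real.log n ^ 2 + 3 * Real.log n + 1
      ≤ Real.exp (Real.log n)) :
    ((n - 1)! : ℝ) * (n : ℝ) ^ 2 ≤ (1 + 4 * Real.log n / n) ^ m := by
  have hn0 : (0 : ℝ) < n := by positivity
  have hn3 : (3 : ℝ) ≤ n := by exact_mod_cast hn
  set L := Real.log n with hL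
  have hL1 : 1 ≤ L := by
    rw [hL, Real.le_log_iff_exp_le hn0]
    have := Real.exp_one_lt_d9
    linarith
  have hexp : Real.exp L = n := Real.exp_log hn0
  have hsq : Real.exp (L / 2) ^ 2 = n := by
    rw [← Real.exp_nat_mul]; rw [← hexp]; congr 1; push_cast; ring
  set s := Real.exp (L / 2) with hs
  have hs0 : 0 < s := Real.exp_pos _
  rw [hexp] at h4
  have hm2 : (n * (n - 1) / 2 : ℝ) - 2 * m ≤ n * s := by
    have h5 : (2 * (m : ℝ) - (n * (n - 1) / 2 : ℝ)) ^ 2 ≤ ((n : ℝ) * s) ^ 2 := by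
      rw [mul_pow, hsq]
      linarith [hm]
    have h6 := abs_le_of_sq_le_sq h5 (by positivity)
    have h7 := (abs_le.1 h6).1
    linarith
  set x : ℝ := 4 * L / n with hx
  have hx0 : 0 < x := by positivity
  have hxn : x * n = 4 * L := by rw [hx]; field_simp
  have hx2 : x ≤ 2 := by
    rw [hx, div_le_iff₀ hn0]
    nlinarith
  have h1 : x * (1 - x / 2) ≤ Real.log (1 + x) := by
    have h5 := Real.le_log_one_add_of_nonneg hx0.le
    refine le_trans ?_ h5
    rw [le_div_iff₀ (by linarith)]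
    nlinarith [sq_nonneg x]
  have h2 : (1 + x) ^ m = Real.exp (m * Real.log (1 + x)) := by
    rw [mul_comm, Real.exp_mul, Real.exp_log (by linarith), Real.rpow_natCast]
  rw [h2]
  have h3 := fact_upper n (by omega)
  have h5 : ((n : ℝ)) ^ 2 = Real.exp (2 * L) := by
    rw [show 2 * L = ((2 : ℕ) : ℝ) * L by norm_num, Real.exp_nat_mul, hexp]
  rw [h5]
  calc ((n - 1)! : ℝ) * Real.exp (2 * L)
      ≤ Real.exp (1 + n * L - n) * Real.exp (2 * L) :=
        mul_le_mul_of_nonneg_right h3 (Real.exp_pos _).le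
    _ = Real.exp (1 + n * L - n + 2 * L) := by rw [← Real.exp_add]
    _ ≤ _ := by
        apply Real.exp_le_exp.2
        have h6 : (m : ℝ) * (x * (1 - x / 2)) ≤ m * Real.log (1 + x) :=
          mul_le_mul_of_nonneg_left h1 (by positivity)
        refine le_trans ?_ h6
        -- m x (1 - x/2) >= M0 x (1-x/2)
        have h7 : 0 ≤ x * (1 - x / 2) := by
          apply mul_nonneg hx0.le; linarith
        have h8 : ((n * (n - 1) / 2 : ℝ) - n * s) / 2 * (x * (1 - x / 2)) ≤
            m * (x * (1 - x / 2)) := by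
          apply mul_le_mul_of_nonneg_right _ h7
          linarith
        refine le_trans ?_ h8
        have h9 : ((n * (n - 1) / 2 : ℝ) - n * s) / 2 * (x * (1 - x / 2)) =
            ((n - 1) * L - 2 * s * L) * (1 - x / 2) := by
          have : ((n * (n - 1) / 2 : ℝ) - n * s) / 2 * (x * (1 - x / 2)) =
            (x * n) * (((n - 1) / 2 - s) / 2) * (1 - x / 2) := by ring
          rw [this, hxn]; ring
        rw [h9]
        have h10 : ((n - 1) * L - 2 * s * L) * (x / 2) ≤ 2 * L ^ 2 := by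
          have : ((n - 1) * L - 2 * s * L) * (x / 2) ≤ (n * L) * (x / 2) := by
            apply mul_le_mul_of_nonneg_right _ (by linarith)
            nlinarith [mul_pos hs0 (show 0 < L by linarith)]
          have h11 : (n * L) * (x / 2) = 2 * L ^ 2 := by
            rw [show (n * L) * (x / 2) = (x * n) * L / 2 by ring, hxn]; ring
          linarith
        nlinarith

/-- upper bound for the total weight at `3.5 log n / n` -/
theorem pow_upper (n : ℕ) (hn : 3 ≤ n) (m : ℕ) (th : ℝ) (hth : 0 < th)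
    (hm : (2 * (m : ℝ) - (n * (n - 1) / 2 : ℝ)) ^ 2 ≤ (n : ℝ) ^ 3)
    (h5 : Real.exp (Real.log n) + 7 / 4 * Real.exp (Real.log n / 2) * Real.log n + Real.log n
      + (-Real.log th) ≤ 1 / 8 * Real.exp (Real.log n) * Real.log n) :
    (1 + 7 / 2 * Real.log n / n) ^ m ≤ th * ((n - 1)! : ℝ) := by
  have hn0 : (0 : ℝ) < n := by positivity
  have hn3 : (3 : ℝ) ≤ n := by exact_mod_cast hn
  set L := Real.log n with hL
  have hL1 : 1 ≤ L := by
    rw [hL, Real.le_log_iff_exp_le hn0]
    have := Real.exp_one_lt_d9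
    linarith
  have hexp : Real.exp L = n := Real.exp_log hn0
  have hsq : Real.exp (L / 2) ^ 2 = n := by
    rw [← Real.exp_nat_mul]; rw [← hexp]; congr 1; push_cast; ring
  set s := Real.exp (L / 2) with hs
  have hs0 : 0 < s := Real.exp_pos _
  rw [hexp] at h5
  have hm2 : 2 * (m : ℝ) ≤ n * (n - 1) / 2 + n * s := by
    have h5 : (2 * (m : ℝ) - (n * (n - 1) / 2 : ℝ)) ^ 2 ≤ ((n : ℝ) * s) ^ 2 := by
      rw [mul_pow, hsq]
      linarith [hm]
    have h6 := abs_le_of_sq_le_sq h5 (by positivity)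
    have h7 := (abs_le.1 h6).2
    linarith
  set x : ℝ := 7 / 2 * L / n with hx
  have hx0 : 0 < x := by positivity
  have hxn : x * n = 7 / 2 * L := by rw [hx]; field_simp
  have h1 : (1 + x) ^ m ≤ Real.exp (x * m) := by
    rw [Real.exp_mul, Real.rpow_natCast]
    apply pow_le_pow_left₀ (by linarith)
    rw [add_comm]
    exact Real.add_one_le_exp x
  refine h1.trans ?_
  have h3 := fact_lower n (by omega)
  have h4 : Real.exp (Real.log th + (n * L - n - L)) ≤ th * ((n - 1)! : ℝ) := by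
    rw [Real.exp_add, Real.exp_log hth]
    exact mul_le_mul_of_nonneg_left h3 hth.le
  refine le_trans (Real.exp_le_exp.2 ?_) h4
  have h6 : x * m ≤ x * ((n * (n - 1) / 2 + n * s) / 2) := by
    apply mul_le_mul_of_nonneg_left _ hx0.le
    linarith
  have h7 : x * ((n * (n - 1) / 2 + n * s) / 2) = 7 / 8 * (n - 1) * L + 7 / 4 * s * L := by
    have : x * ((n * (n - 1) / 2 + n * s) / 2) = (x * n) * (((n - 1) / 2 + s) / 2) := by ring
    rw [this, hxn]; ring
  nlinarith

end Pool.Agent.R88.RR.Num
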