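import Pool.Agent.R88.RR.Mob
import Pool.Agent.R88.RR.Alg

/-!
Project RR, section POS (helper584): `cc_nonneg`, `cc_pos` by deletion-contraction on partitions.
-/

set_option autoImplicit false

namespace Pool.Agent.R88.RR

open Finset
open scoped Classical Nat

noncomputable section

variable {V : Type} [Fintype V]

namespace Pos

/-- the collapsing map of the class of `v` to the class of `u` -/
def colf (s : Setoid V) (u v : V) : V → Quotient s :=
  fun x => if s x v then Quotient.mk s u else Quotient.mk s x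

/-- `s` joined with `u ~ v` -/
def jn (s : Setoid V) (u v : V) : Setoid V := Setoid.ker (colf s u v)

theorem mem_inn_mk {r : Setoid V} {a b : V} : s(a, b) ∈ inn r ↔ a ≠ b ∧ r a b := by
  unfold inn EE
  simp only [mem_filter, mem_univ, true_and, Sym2.mk_isDiag_iff, Sym2.mem_iff]
  constructor
  · rintro ⟨h1, h2⟩
    exact ⟨h1, h2 a (Or.inl rfl) b (Or.inr rfl)⟩
  · rintro ⟨h1, h2⟩
    refine ⟨h1, ?_⟩
    rintro x (rfl | rfl) y (rfl | rfl)
    · exact r.refl' _
    · exact h2
    · exact r.symm' h2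
    · exact r.refl' _

theorem mem_EE_mk {a b : V} : s(a, b) ∈ EE V ↔ a ≠ b := by
  unfold EE
  simp

theorem inn_mono {r s : Setoid V} (h : r ≤ s) : inn r ⊆ inn s := by
  intro e
  induction e using Sym2.ind with
  | _ a b =>
    rw [mem_inn_mk, mem_inn_mk]
    exact fun ⟨h1, h2⟩ => ⟨h1, h h2⟩

theorem inn_sub_EE (r : Setoid V) : inn r ⊆ EE V := filter_subset _ _

theorem colf_eq_iff {s : Setoid V} {u v : V} (x y : V) :
    colf s u v x = colf s u v y ↔ s x y ∨ (s x u ∧ s y v) ∨ (s x v ∧ s y u) := by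
  unfold colf
  by_cases hx : s x v <;> by_cases hy : s y v
  · simp only [hx, hy, if_true, true_iff]
    exact Or.inl (s.trans' hx (s.symm' hy))
  · simp only [hx, hy, if_true, if_false]
    rw [Quotient.eq]
    constructor
    · intro h
      exact Or.inr (Or.inr ⟨trivial, s.symm' h⟩)
    · rintro (h | h | h)
      · exact absurd (s.trans' (s.symm' h) hx) hy
      · exact absurd h.2 (by simp)
      · exact s.symm' h.2
  · simp only [hx, hy, if_true, if_false]
    rw [Quotient.eq]
    constructor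
    · intro h
      exact Or.inr (Or.inl ⟨h, trivial⟩)
    · rintro (h | h | h)
      · exact absurd (s.trans' h hy) hx
      · exact h.1
      · exact absurd h.1 (by simp)
  · simp only [hx, hy, if_false]
    rw [Quotient.eq]
    constructor
    · intro h
      exact Or.inl h
    · rintro (h | h | h)
      · exact h
      · exact absurd h.2 (by simp)
      · exact absurd h.1 (by simp)

theorem jn_iff {s : Setoid V} {u v x y : V} :
    jn s u v x y ↔ s x y ∨ (s x u ∧ s y v) ∨ (s x v ∧ s y u) := colf_eq_iff x y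

theorem le_jn (s : Setoid V) (u v : V) : s ≤ jn s u v := fun _ _ h => jn_iff.2 (Or.inl h)

theorem jn_le_iff {s r : Setoid V} {u v : V} (hsr : s ≤ r) : jn s u v ≤ r ↔ r u v := by
  constructor
  · intro h
    exact h (jn_iff.2 (Or.inr (Or.inl ⟨s.refl' u, s.refl' v⟩)))
  · intro h x y hxy
    rcases jn_iff.1 hxy with h1 | ⟨h1, h2⟩ | ⟨h1, h2⟩
    · exact hsr h1
    · exact r.trans' (hsr h1) (r.trans' h (r.symm' (hsr h2)))
    · exact r.trans' (hsr h1) (r.trans' (r.symm' h) (r.symm' (hsr h2)))

theorem kk_jn {s : Setoid V} {u v : V} (huv : ¬ s u v) : kk (jn s u v) + 1 = kk s := by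
  have hr : Set.range (colf s u v) = {Quotient.mk s v}ᶜ := by
    ext q
    simp only [Set.mem_range, Set.mem_compl_iff, Set.mem_singleton_iff]
    constructor
    · rintro ⟨x, rfl⟩
      unfold colf
      by_cases hx : s x v
      · simp only [hx, if_true]
        rw [Quotient.eq]
        exact huv
      · simp only [hx, if_false]
        rw [Quotient.eq]
        exact hx
    · intro hq
      obtain ⟨x, rfl⟩ := Quotient.exists_rep q
      refine ⟨x, ?_⟩
      unfold colf
      have hx : ¬ s x v := by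
        intro h
        exact hq (Quotient.eq.2 h)
      simp only [hx, if_false]
  have h1 : kk (jn s u v) = Nat.card (Set.range (colf s u v)) :=
    Nat.card_congr (Setoid.quotientKerEquivRange (colf s u v))
  rw [h1, hr]
  unfold kk
  have h2 := Nat.card_congr (Equiv.Set.sumCompl ({Quotient.mk s v} : Set (Quotient s)))
  rw [Nat.card_sum] at h2
  simp only [Nat.card_unique] at h2
  omega

theorem kk_pos [Nonempty V] (s : Setoid V) : 0 < kk s := by
  have : Nonempty (Quotient s) := ⟨Quotient.mk s (Classical.arbitrary V)⟩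
  exact Nat.card_pos

theorem kk_top [Nonempty V] : kk (⊤ : Setoid V) = 1 := by
  unfold kk
  rw [Nat.card_eq_one_iff_unique]
  refine ⟨⟨fun a b => ?_⟩, ⟨Quotient.mk _ (Classical.arbitrary V)⟩⟩
  obtain ⟨x, rfl⟩ := Quotient.exists_rep a
  obtain ⟨y, rfl⟩ := Quotient.exists_rep b
  exact Quotient.sound trivial

/-- the weights with the crossing pairs replaced by `1` -/
def wt (s : Setoid V) (u v : V) (w : Sym2 V → ℝ) : Sym2 V → ℝ :=
  fun e => if e ∈ inn (jn s u v) \ inn s then 1 else w e

theorem DD_dc {s : Setoid V} {u v : V} (w : Sym2 V → ℝ) :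
    DD s w = DD s (wt s u v w) +
      (∏ e ∈ inn (jn s u v) \ inn s, w e - 1) * DD (jn s u v) w := by
  have hsp : ∀ g : Setoid V → ℝ, ∑ r ∈ univ.filter (fun r : Setoid V => s ≤ r), g r =
      ∑ r ∈ univ.filter (fun r : Setoid V => jn s u v ≤ r), g r +
      ∑ r ∈ univ.filter (fun r : Setoid V => s ≤ r ∧ ¬ r u v), g r := by
    intro g
    rw [← sum_filter_add_sum_filter_not (univ.filter (fun r : Setoid V => s ≤ r))
      (fun r : Setoid V => r u v), filter_filter, filter_filter]
    congr 1
    refine sum_congr ?_ fun _ _ => rfl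
    ext r
    simp only [mem_filter, mem_univ, true_and]
    constructor
    · rintro ⟨h1, h2⟩
      exact (jn_le_iff h1).2 h2
    · intro h
      have h1 : s ≤ r := (le_jn s u v).trans h
      exact ⟨h1, (jn_le_iff h1).1 h⟩
  have hcross : ∀ r : Setoid V, jn s u v ≤ r → ∀ g : Sym2 V → ℝ,
      ∏ e ∈ inn r \ inn s, g e =
        (∏ e ∈ inn (jn s u v) \ inn s, g e) * ∏ e ∈ inn r \ inn (jn s u v), g e := by
    intro r hr g
    rw [← prod_union]
    · refine prod_congr ?_ fun _ _ => rfl
      have h1 := inn_mono hr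
      have h2 := inn_mono (le_jn s u v)
      ext e
      simp only [mem_sdiff, mem_union]
      constructor
      · rintro ⟨h3, h4⟩
        by_cases h5 : e ∈ inn (jn s u v)
        · exact Or.inl ⟨h5, h4⟩
        · exact Or.inr ⟨h3, h5⟩
      · rintro (⟨h3, h4⟩ | ⟨h3, h4⟩)
        · exact ⟨h1 h3, h4⟩
        · exact ⟨h3, fun h => h4 (h2 h)⟩
    · rw [Finset.disjoint_left]
      intro e h1 h2
      exact (mem_sdiff.1 h2).2 (mem_sdiff.1 h1).1
  have hA : ∑ r ∈ univ.filter (fun r : Setoid V => s ≤ r ∧ ¬ r u v),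
      mu (kk r) * ∏ e ∈ inn r \ inn s, w e =
      ∑ r ∈ univ.filter (fun r : Setoid V => s ≤ r ∧ ¬ r u v),
      mu (kk r) * ∏ e ∈ inn r \ inn s, wt s u v w e := by
    refine sum_congr rfl fun r hr => ?_
    simp only [mem_filter, mem_univ, true_and] at hr
    congr 1
    refine prod_congr rfl fun e he => ?_
    have hne : e ∉ inn (jn s u v) \ inn s := by
      intro h
      have h1 := (mem_sdiff.1 h).1
      have h2 := (mem_sdiff.1 h).2
      have h3 := (mem_sdiff.1 he).1
      revert h1 h2 h3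
      clear he h
      induction e using Sym2.ind with
      | _ a b =>
        rw [mem_inn_mk, mem_inn_mk, mem_inn_mk]
        rintro ⟨hab, h1⟩ h2 ⟨-, h3⟩
        rcases jn_iff.1 h1 with h4 | ⟨h4, h5⟩ | ⟨h4, h5⟩
        · exact h2 ⟨hab, h4⟩
        · exact hr.2 (r.trans' (r.symm' (hr.1 h4)) (r.trans' h3 (hr.1 h5)))
        · exact hr.2 (r.trans' (r.symm' (hr.1 h5)) (r.trans' (r.symm' h3) (hr.1 h4)))
    unfold wt
    rw [if_neg hne]
  have hB : ∑ r ∈ univ.filter (fun r : Setoid V => jn s u v ≤ r),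
      mu (kk r) * ∏ e ∈ inn r \ inn s, w e =
      (∏ e ∈ inn (jn s u v) \ inn s, w e) * DD (jn s u v) w := by
    unfold DD
    rw [mul_sum]
    refine sum_congr rfl fun r hr => ?_
    simp only [mem_filter, mem_univ, true_and] at hr
    rw [hcross r hr]
    ring
  have hC : ∑ r ∈ univ.filter (fun r : Setoid V => jn s u v ≤ r),
      mu (kk r) * ∏ e ∈ inn r \ inn s, wt s u v w e = DD (jn s u v) w := by
    unfold DD
    refine sum_congr rfl fun r hr => ?_
    simp only [mem_filter, mem_univ, true_and] at hr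
    rw [hcross r hr]
    congr 1
    have h1 : ∏ e ∈ inn (jn s u v) \ inn s, wt s u v w e = 1 := by
      refine prod_eq_one fun e he => ?_
      unfold wt
      rw [if_pos he]
    rw [h1, one_mul]
    refine prod_congr rfl fun e he => ?_
    unfold wt
    rw [if_neg]
    intro h
    exact (mem_sdiff.1 he).2 (mem_sdiff.1 h).1
  have h1 : DD s w = (∏ e ∈ inn (jn s u v) \ inn s, w e) * DD (jn s u v) w +
      ∑ r ∈ univ.filter (fun r : Setoid V => s ≤ r ∧ ¬ r u v),
      mu (kk r) * ∏ e ∈ inn r \ inn s, wt s u v w e := by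
    conv_lhs => unfold DD
    rw [hsp, hB, hA]
  have h2 : DD s (wt s u v w) = DD (jn s u v) w +
      ∑ r ∈ univ.filter (fun r : Setoid V => s ≤ r ∧ ¬ r u v),
      mu (kk r) * ∏ e ∈ inn r \ inn s, wt s u v w e := by
    conv_lhs => unfold DD
    rw [hsp, hC]
  rw [h1, h2]
  ring

theorem cc_dc [Nonempty V] {s : Setoid V} {u v : V} (huv : ¬ s u v) (w : Sym2 V → ℝ) :
    cc s w = cc s (wt s u v w) +
      (1 - ∏ e ∈ inn (jn s u v) \ inn s, w e) * cc (jn s u v) w := by
  unfold cc
  rw [DD_dc (s := s) (u := u) (v := v) w]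
  have h1 := kk_jn huv
  have h2 := kk_pos (jn s u v)
  obtain ⟨k, hk⟩ : ∃ k, kk (jn s u v) = k + 1 := ⟨kk (jn s u v) - 1, by omega⟩
  have hk2 : kk s = k + 2 := by omega
  rw [hk, hk2]
  have e1 : k + 2 - 1 = k + 1 := by omega
  have e2 : k + 1 - 1 = k := by omega
  rw [e1, e2, pow_succ]
  ring

theorem abs_prod_le_one (T : Finset (Sym2 V)) (w : Sym2 V → ℝ) (hw : ∀ e, |w e| ≤ 1) :
    |∏ e ∈ T, w e| ≤ 1 := by
  rw [abs_prod]
  exact prod_le_one (fun _ _ => abs_nonneg _) fun e _ => hw e

theorem wt_abs {s : Setoid V} {u v : V} {w : Sym2 V → ℝ} (hw : ∀ e, |w e| ≤ 1) (e : Sym2 V) :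
    |wt s u v w e| ≤ 1 := by
  unfold wt
  split_ifs
  · simp
  · exact hw e

theorem cc_nonneg_aux [Nonempty V] (n : ℕ) : ∀ s : Setoid V, kk s = n → ∀ m : ℕ,
    ∀ w : Sym2 V → ℝ, ((EE V \ inn s).filter (fun e => w e ≠ 1)).card = m →
    (∀ e, |w e| ≤ 1) → 0 ≤ cc s w := by
  induction n with
  | zero =>
    intro s hs
    have := kk_pos s
    omega
  | succ n ih =>
    intro s hs m
    induction m using Nat.strong_induction_on with
    | _ m ihm =>
      intro w hm hw
      by_cases hall : ∀ e ∈ EE V \ inn s, w e = 1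
      · have hDD : DD s w = if s = ⊤ then 1 else 0 := by
          rw [← mobius s]
          unfold DD
          refine sum_congr rfl fun r _ => ?_
          rw [prod_eq_one, mul_one]
          intro e he
          exact hall e (mem_sdiff.2 ⟨inn_sub_EE _ (mem_sdiff.1 he).1, (mem_sdiff.1 he).2⟩)
        unfold cc
        rw [hDD]
        split_ifs with h
        · rw [h, kk_top]
          norm_num
        · simp
      · push Not at hall
        obtain ⟨e, he, hwe⟩ := hall
        obtain ⟨u, v, rfl⟩ : ∃ u v : V, s(u, v) = e := by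
          induction e using Sym2.ind with
          | _ a b => exact ⟨a, b, rfl⟩
        have hne : u ≠ v := mem_EE_mk.1 (mem_sdiff.1 he).1
        have huv : ¬ s u v := fun h => (mem_sdiff.1 he).2 (mem_inn_mk.2 ⟨hne, h⟩)
        have hcr : s(u, v) ∈ inn (jn s u v) \ inn s :=
          mem_sdiff.2 ⟨mem_inn_mk.2 ⟨hne, jn_iff.2 (Or.inr (Or.inl ⟨s.refl' u, s.refl' v⟩))⟩,
            (mem_sdiff.1 he).2⟩
        rw [cc_dc huv]
        have hkj := kk_jn huv
        have h1 : 0 ≤ cc (jn s u v) w := ih (jn s u v) (by omega) _ w rfl hw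
        have h2 : 0 ≤ 1 - ∏ e ∈ inn (jn s u v) \ inn s, w e := by
          have := (abs_le.1 (abs_prod_le_one (inn (jn s u v) \ inn s) w hw)).2
          linarith
        have h3 : 0 ≤ cc s (wt s u v w) := by
          refine ihm _ ?_ (wt s u v w) rfl (wt_abs hw)
          rw [← hm]
          refine card_lt_card ?_
          rw [Finset.ssubset_iff_of_subset]
          · refine ⟨s(u, v), mem_filter.2 ⟨he, hwe⟩, ?_⟩
            intro h
            apply (mem_filter.1 h).2
            unfold wt
            rw [if_pos hcr]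
          · intro e' he'
            rw [mem_filter] at he' ⊢
            refine ⟨he'.1, fun h => he'.2 ?_⟩
            unfold wt
            split_ifs
            · rfl
            · exact h
        have := mul_nonneg h2 h1
        linarith

end Pos

theorem cc_nonneg [Nonempty V] (s : Setoid V) (w : Sym2 V → ℝ) (hw : ∀ e, |w e| ≤ 1) :
    0 ≤ cc s w := Pos.cc_nonneg_aux (kk s) s rfl _ w rfl hw

namespace Pos

theorem cc_top [Nonempty V] (w : Sym2 V → ℝ) : cc (⊤ : Setoid V) w = 1 := by
  unfold cc DD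
  have h1 : univ.filter (fun r : Setoid V => ⊤ ≤ r) = {⊤} := by
    ext r
    simp only [mem_filter, mem_univ, true_and, mem_singleton, top_le_iff]
  rw [h1, sum_singleton, kk_top, sdiff_self]
  simp [mu]

theorem cc_pos_aux [Nonempty V] (w : Sym2 V → ℝ) (hw : ∀ e, -1 < w e ∧ w e ≤ 1) (n : ℕ) :
    ∀ s : Setoid V, kk s = n →
      (∀ r : Setoid V, s ≤ r → (∀ e ∈ EE V \ inn r, w e = 1) → r = ⊤) → 0 < cc s w := by
  have hw' : ∀ e, |w e| ≤ 1 := fun e => abs_le.2 ⟨(hw e).1.le, (hw e).2⟩
  induction n with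
  | zero =>
    intro s hs
    have := kk_pos s
    omega
  | succ n ih =>
    intro s hs hcon
    by_cases htop : s = ⊤
    · rw [htop, cc_top]
      exact one_pos
    · have hex : ¬ ∀ e ∈ EE V \ inn s, w e = 1 := fun h => htop (hcon s le_rfl h)
      push Not at hex
      obtain ⟨e, he, hwe⟩ := hex
      obtain ⟨u, v, rfl⟩ : ∃ u v : V, s(u, v) = e := by
        induction e using Sym2.ind with
        | _ a b => exact ⟨a, b, rfl⟩
      have hne : u ≠ v := mem_EE_mk.1 (mem_sdiff.1 he).1
      have huv : ¬ s u v := fun h => (mem_sdiff.1 he).2 (mem_inn_mk.2 ⟨hne, h⟩)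
      have hcr : s(u, v) ∈ inn (jn s u v) \ inn s :=
        mem_sdiff.2 ⟨mem_inn_mk.2 ⟨hne, jn_iff.2 (Or.inr (Or.inl ⟨s.refl' u, s.refl' v⟩))⟩,
          (mem_sdiff.1 he).2⟩
      rw [cc_dc huv]
      have hkj := kk_jn huv
      have h1 : 0 < cc (jn s u v) w :=
        ih (jn s u v) (by omega) fun r hr => hcon r ((le_jn s u v).trans hr)
      have h2 : 0 < 1 - ∏ e ∈ inn (jn s u v) \ inn s, w e := by
        have h4 : |∏ e ∈ inn (jn s u v) \ inn s, w e| ≤ |w s(u, v)| := by
          rw [← mul_prod_erase _ _ hcr, abs_mul]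
          have := abs_prod_le_one ((inn (jn s u v) \ inn s).erase s(u, v)) w hw'
          nlinarith [abs_nonneg (w s(u, v))]
        have h5 : |w s(u, v)| < 1 := by
          rw [abs_lt]
          exact ⟨(hw _).1, lt_of_le_of_ne (hw _).2 hwe⟩
        have := (abs_lt.1 (lt_of_le_of_lt h4 h5)).2
        linarith
      have h3 : 0 ≤ cc s (wt s u v w) := cc_nonneg s _ (wt_abs hw')
      have := mul_pos h2 h1
      linarith

end Pos

theorem cc_pos [Nonempty V] (A : Finset (Sym2 V)) (hA : A ⊆ EE V) (hc : comp A = ⊤) (y : ℝ)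
    (hy : |y| < 1) : 0 < cc (⊥ : Setoid V) (fun e => if e ∈ A then y else 1) := by
  rw [abs_lt] at hy
  refine Pos.cc_pos_aux _ ?_ _ ⊥ rfl ?_
  · intro e
    split_ifs
    · exact ⟨hy.1, hy.2.le⟩
    · norm_num
  · intro r _ hr
    have hsub : A ⊆ inn r := by
      intro e he
      by_contra hne
      have := hr e (mem_sdiff.2 ⟨hA he, hne⟩)
      rw [if_pos he] at this
      linarith [hy.2]
    have := (comp_le_iff A hA r).2 hsub
    rw [hc] at this
    exact top_le_iff.1 this

end

end Pool.Agent.R88.RR
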