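import Pool.Agent.R88.RR.Alg
import Pool.Agent.R88.RR.Pos
import Pool.Agent.R88.RR.PL
import Pool.Agent.R88.RR.Exp
import Pool.Agent.R88.RR.LM

set_option autoImplicit false

namespace Pool.Agent.R88.RR

open Finset
open scoped Classical Nat

noncomputable section

variable {V : Type} [Fintype V]

/-! ### toggling an edge -/

set_option linter.unusedSectionVars false

namespace PZ

def tog (e : Sym2 V) (A : Finset (Sym2 V)) : Finset (Sym2 V) := symmDiff A {e}

theorem tog_tog (e : Sym2 V) (A : Finset (Sym2 V)) : tog e (tog e A) = A := by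
  unfold tog
  rw [symmDiff_assoc, symmDiff_self]
  simp

theorem mem_tog (e x : Sym2 V) (A : Finset (Sym2 V)) :
    x ∈ tog e A ↔ (x ∈ A ∧ x ≠ e) ∨ (x = e ∧ x ∉ A) := by
  unfold tog
  rw [Finset.mem_symmDiff]
  simp

theorem tog_sub (e : Sym2 V) (he : e ∈ EE V) (A : Finset (Sym2 V)) (hA : A ⊆ EE V) :
    tog e A ⊆ EE V := by
  intro x hx
  rw [mem_tog] at hx
  rcases hx with h | h
  · exact hA h.1
  · rw [h.1]; exact he

theorem half_sum (e : Sym2 V) (he : e ∈ EE V) (Q : Finset (Sym2 V) → Prop) [DecidablePred Q]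
    (hQ : ∀ A, A ⊆ EE V → (Q (tog e A) ↔ ¬ Q A)) (f : Finset (Sym2 V) → ℝ)
    (hf : ∀ A, A ⊆ EE V → f (tog e A) = f A) :
    ∑ A ∈ (EE V).powerset.filter Q, f A = (∑ A ∈ (EE V).powerset, f A) / 2 := by
  have h1 : ∑ A ∈ (EE V).powerset.filter Q, f A =
      ∑ A ∈ (EE V).powerset.filter (fun A => ¬ Q A), f A := by
    refine Finset.sum_nbij' (tog e) (tog e) ?_ ?_ ?_ ?_ ?_
    · intro A hA
      rw [mem_filter, mem_powerset] at hA ⊢
      refine ⟨tog_sub e he A hA.1, ?_⟩
      rw [hQ A hA.1]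
      exact not_not.mpr hA.2
    · intro A hA
      rw [mem_filter, mem_powerset] at hA ⊢
      refine ⟨tog_sub e he A hA.1, ?_⟩
      rw [hQ A hA.1]
      exact hA.2
    · intro A _; exact tog_tog e A
    · intro A _; exact tog_tog e A
    · intro A hA
      rw [mem_filter, mem_powerset] at hA
      exact (hf A hA.1).symm
  have h2 := Finset.sum_filter_add_sum_filter_not (EE V).powerset Q f
  linarith

theorem card_tog (e : Sym2 V) (A : Finset (Sym2 V)) :
    Even ((tog e A).card) ↔ ¬ Even A.card := by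
  by_cases h : e ∈ A
  · have : tog e A = A.erase e := by
      ext x
      rw [mem_tog, mem_erase]
      constructor
      · rintro (h1 | h1)
        · exact ⟨h1.2, h1.1⟩
        · exact absurd (h1.1 ▸ h) h1.2
      · rintro ⟨h1, h2⟩
        exact Or.inl ⟨h2, h1⟩
    rw [this, card_erase_of_mem h]
    have hp : 0 < A.card := card_pos.mpr ⟨e, h⟩
    obtain ⟨k, hk⟩ : ∃ k, A.card = k + 1 := ⟨A.card - 1, by omega⟩
    rw [hk]
    simp [Nat.even_add_one]
  · have : tog e A = insert e A := by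
      ext x
      rw [mem_tog, mem_insert]
      constructor
      · rintro (h1 | h1)
        · exact Or.inr h1.1
        · exact Or.inl h1.1
      · rintro (h1 | h1)
        · exact Or.inr ⟨h1, h1 ▸ h⟩
        · refine Or.inl ⟨h1, ?_⟩
          rintro rfl
          exact h h1
    rw [this, card_insert_of_notMem h, Nat.even_add_one]

theorem tog_sdiff (e : Sym2 V) (P A : Finset (Sym2 V)) (he : e ∈ P) : tog e A \ P = A \ P := by
  ext x
  rw [mem_sdiff, mem_tog, mem_sdiff]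
  constructor
  · rintro ⟨h1 | h1, h2⟩
    · exact ⟨h1.1, h2⟩
    · exact absurd (h1.1 ▸ he) h2
  · rintro ⟨h1, h2⟩
    refine ⟨Or.inl ⟨h1, ?_⟩, h2⟩
    rintro rfl
    exact h2 he

theorem sub_tog (e : Sym2 V) (K A : Finset (Sym2 V)) (he : e ∉ K) : K ⊆ tog e A ↔ K ⊆ A := by
  constructor
  · intro h x hx
    have := h hx
    rw [mem_tog] at this
    rcases this with h1 | h1
    · exact h1.1
    · exact absurd (h1.1 ▸ hx) he
  · intro h x hx
    rw [mem_tog]
    refine Or.inl ⟨h hx, ?_⟩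
    rintro rfl
    exact he hx

theorem av_indep (P : Finset (Sym2 V)) (hP : P ⊆ EE V) (g : Finset (Sym2 V) → ℝ)
    (K : Finset (Sym2 V)) (hK : K ⊆ P) :
    av (fun A => if K ⊆ A then g (A \ P) else 0) = av (fun A => g (A \ P)) / 2 ^ K.card := by
  induction K using Finset.induction_on with
  | empty => simp
  | insert e K heK ih =>
    have hKP : K ⊆ P := fun x hx => hK (mem_insert_of_mem hx)
    have heP : e ∈ P := hK (mem_insert_self e K)
    have ih' := ih hKP
    have h1 := half_sum e (hP heP) (fun A => e ∈ A)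
      (by
        intro A _
        rw [mem_tog]
        simp)
      (fun A => if K ⊆ A then g (A \ P) else 0)
      (by
        intro A _
        simp only [sub_tog e K A heK, tog_sdiff e P A heP])
    rw [card_insert_of_notMem heK, pow_succ]
    have h2 : ∑ A ∈ (EE V).powerset, (if insert e K ⊆ A then g (A \ P) else 0) =
        ∑ A ∈ (EE V).powerset.filter (fun A => e ∈ A), (if K ⊆ A then g (A \ P) else 0) := by
      rw [Finset.sum_filter]
      apply Finset.sum_congr rfl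
      intro A _
      simp only [insert_subset_iff]
      by_cases h3 : e ∈ A <;> by_cases h4 : K ⊆ A <;> simp [h3, h4]
    unfold av at ih' ⊢
    rw [h2, h1]
    rw [div_right_comm, ih', div_div]


/-! ### consequences of the matching identity -/

theorem sg_abs (A : Finset (Sym2 V)) (e : Sym2 V) : |sg A e| ≤ 1 := by
  unfold sg
  split_ifs <;> simp

theorem cc_sg_nonneg [Nonempty V] (s : Setoid V) (A : Finset (Sym2 V)) : 0 ≤ cc s (sg A) :=
  cc_nonneg s _ (sg_abs A)

theorem comp_empty : comp (∅ : Finset (Sym2 V)) = ⊥ := by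
  have := (comp_le_iff (∅ : Finset (Sym2 V)) (empty_subset _) ⊥).mpr (empty_subset _)
  exact le_bot_iff.mp this

theorem cc_mono [Nonempty V] (P : Finset (Sym2 V)) (hP : P ⊆ EE V) (hM : Mat P)
    (J : Finset (Sym2 V)) (hJ : J ⊆ P) (A : Finset (Sym2 V)) (hA : A ⊆ EE V) :
    cc (comp J) (sg (A \ P)) ≤ cc (comp J) (sg A) := by
  rw [lemma_M P hP hM J hJ A hA]
  have h := Finset.single_le_sum (s := ((P \ J) ∩ A).powerset)
    (f := fun K => (2:ℝ) ^ K.card * cc (comp (J ∪ K)) (sg (A \ P)))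
    (fun K _ => mul_nonneg (by positivity) (cc_sg_nonneg _ _)) (empty_mem_powerset _)
  simpa using h

theorem bot_ge [Nonempty V] (P : Finset (Sym2 V)) (hP : P ⊆ EE V) (hM : Mat P)
    (A : Finset (Sym2 V)) (hA : A ⊆ EE V) (JJ : Finset (Finset (Sym2 V)))
    (hJJ : ∀ J ∈ JJ, J ⊆ P ∧ J.card = 3) :
    8 * ∑ J ∈ JJ, (if J ⊆ A then cc (comp J) (sg (A \ P)) else 0) ≤ cc (⊥ : Setoid V) (sg A) := by
  have h0 := lemma_M P hP hM ∅ (empty_subset _) A hA
  rw [comp_empty] at h0
  rw [h0, ← Finset.sum_filter, Finset.mul_sum]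
  have hsub : JJ.filter (fun J => J ⊆ A) ⊆ ((P \ ∅) ∩ A).powerset := by
    intro J hJ
    rw [mem_filter] at hJ
    rw [mem_powerset]
    intro x hx
    rw [mem_inter, mem_sdiff]
    exact ⟨⟨(hJJ J hJ.1).1 hx, by simp⟩, hJ.2 hx⟩
  refine le_trans ?_ (Finset.sum_le_sum_of_subset_of_nonneg hsub
    (fun K _ _ => mul_nonneg (by positivity) (cc_sg_nonneg _ _)))
  apply Finset.sum_le_sum
  intro J hJ
  rw [mem_filter] at hJ
  rw [(hJJ J hJ.1).2, empty_union]
  norm_num

theorem desc_le (M N : ℕ) (h : 2 * M ≤ N) (k : ℕ) (hk : k ≤ M) :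
    2 ^ k * M.descFactorial k ≤ N.descFactorial k := by
  induction k with
  | zero => simp
  | succ k ih =>
    have ih' := ih (by omega)
    rw [Nat.descFactorial_succ, Nat.descFactorial_succ, pow_succ]
    calc 2 ^ k * 2 * ((M - k) * M.descFactorial k)
        = (2 * (M - k)) * (2 ^ k * M.descFactorial k) := by ring
      _ ≤ (N - k) * N.descFactorial k := Nat.mul_le_mul (by omega) ih'

theorem choose_fact (M N : ℕ) (h : 2 * M ≤ N) (k : ℕ) (hk : k ≤ M) :
    (M.choose k : ℝ) * ((N - k)! : ℝ) ≤ (N ! : ℝ) * ((1 / 2 : ℝ) ^ k / (k ! : ℝ)) := by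
  have h1 := desc_le M N h k hk
  rw [Nat.descFactorial_eq_factorial_mul_choose] at h1
  have h2 := Nat.factorial_mul_descFactorial (show k ≤ N by omega)
  have h3 : (N - k)! * (2 ^ k * (k ! * M.choose k)) ≤ N ! := by
    rw [← h2]
    exact Nat.mul_le_mul le_rfl h1
  have h4 : ((N - k)! : ℝ) * (2 ^ k * ((k ! : ℝ) * (M.choose k : ℝ))) ≤ (N ! : ℝ) := by
    exact_mod_cast h3
  have hk0 : (0:ℝ) < (k ! : ℝ) := by exact_mod_cast Nat.factorial_pos k
  have h2k : (0:ℝ) < 2 ^ k := by positivity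
  rw [div_pow, one_pow, div_div, ← mul_div_assoc, mul_one, le_div_iff₀ (by positivity)]
  calc (M.choose k : ℝ) * ((N - k)! : ℝ) * (2 ^ k * (k ! : ℝ))
      = ((N - k)! : ℝ) * (2 ^ k * ((k ! : ℝ) * (M.choose k : ℝ))) := by ring
    _ ≤ _ := h4

theorem exp_half : Real.exp (1 / 2) ≤ 1.65 := by
  have h1 : Real.exp (1 / 2) ^ 2 = Real.exp 1 := by
    rw [← Real.exp_nat_mul]
    norm_num
  have h2 := Real.exp_one_lt_d9
  have h3 := Real.exp_pos (1 / 2)
  nlinarith

theorem sum_fact (M N : ℕ) (h : 2 * M ≤ N) :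
    ∑ k ∈ range (M + 1), (M.choose k : ℝ) * ((N - k)! : ℝ) ≤ 1.65 * (N ! : ℝ) := by
  calc ∑ k ∈ range (M + 1), (M.choose k : ℝ) * ((N - k)! : ℝ)
      ≤ ∑ k ∈ range (M + 1), (N ! : ℝ) * ((1 / 2 : ℝ) ^ k / (k ! : ℝ)) := by
        apply Finset.sum_le_sum
        intro k hk
        rw [mem_range] at hk
        exact choose_fact M N h k (by omega)
    _ = (N ! : ℝ) * ∑ k ∈ range (M + 1), ((1 / 2 : ℝ) ^ k / (k ! : ℝ)) := by
        rw [Finset.mul_sum]
    _ ≤ (N ! : ℝ) * Real.exp (1 / 2) := by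
        apply mul_le_mul_of_nonneg_left _ (by positivity)
        exact Real.sum_le_exp_of_nonneg (by norm_num) _
    _ ≤ 1.65 * (N ! : ℝ) := by
        rw [mul_comm]
        exact mul_le_mul_of_nonneg_right exp_half (by positivity)

theorem av_add (f g : Finset (Sym2 V) → ℝ) :
    av (fun A => f A + g A) = av f + av g := by
  unfold av
  rw [Finset.sum_add_distrib, add_div]

theorem av_sum {ι : Type} (S : Finset ι) (f : ι → Finset (Sym2 V) → ℝ) :
    av (fun A => ∑ i ∈ S, f i A) = ∑ i ∈ S, av (f i) := by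
  unfold av
  rw [Finset.sum_comm, Finset.sum_div]

theorem av_mono (f g : Finset (Sym2 V) → ℝ) (h : ∀ A, A ⊆ EE V → f A ≤ g A) : av f ≤ av g := by
  unfold av
  apply div_le_div_of_nonneg_right _ (by positivity)
  apply Finset.sum_le_sum
  intro A hA
  exact h A (mem_powerset.mp hA)

theorem av_congr (f g : Finset (Sym2 V) → ℝ) (h : ∀ A, A ⊆ EE V → f A = g A) : av f = av g := by
  unfold av
  congr 1
  apply Finset.sum_congr rfl
  intro A hA
  exact h A (mem_powerset.mp hA)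

theorem av_smul (c : ℝ) (f : Finset (Sym2 V) → ℝ) :
    av (fun A => c * f A) = c * av f := by
  unfold av
  rw [← Finset.mul_sum, mul_div_assoc]

theorem av_cc0 [Nonempty V] (F : Finset (Sym2 V)) (hF : F ⊆ EE V) (hM : Mat F) :
    av (fun A => cc (comp F) (sg A)) = ((Fintype.card V - F.card - 1)! : ℝ) := by
  have h1 := av_cc (comp F) ∅ (empty_subset _)
  have h2 := kk_comp_mat F hF hM
  simp only [empty_subset, if_true, card_empty, pow_zero, div_one] at h1
  rw [h1]
  have : kk (comp F) - 1 = Fintype.card V - F.card - 1 := by omega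
  rw [this]

theorem mat_sub (P J : Finset (Sym2 V)) (hM : Mat P) (hJ : J ⊆ P) : Mat J :=
  fun e he e' he' hne v => hM e (hJ he) e' (hJ he') hne v

theorem av_ge [Nonempty V] (P : Finset (Sym2 V)) (hP : P ⊆ EE V) (hM : Mat P)
    (J : Finset (Sym2 V)) (hJ : J ⊆ P) (hJ3 : J.card = 3)
    (hc : 2 * (P.card - 3) ≤ Fintype.card V - 4) :
    ((Fintype.card V - 4)! : ℝ) / 4 ≤ av (fun A => cc (comp J) (sg (A \ P))) := by
  have hJE : J ⊆ EE V := hJ.trans hP
  have h1 := av_cc0 J hJE (mat_sub P J hM hJ)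
  rw [hJ3] at h1
  have h34 : Fintype.card V - 3 - 1 = Fintype.card V - 4 := by omega
  rw [h34] at h1
  -- the expansion
  have h2 : av (fun A => cc (comp J) (sg A)) =
      ∑ K ∈ (P \ J).powerset, av (fun A => cc (comp (J ∪ K)) (sg (A \ P))) := by
    have e1 : av (fun A => cc (comp J) (sg A)) = av (fun A => ∑ K ∈ (P \ J).powerset,
        (2:ℝ) ^ K.card * (if K ⊆ A then cc (comp (J ∪ K)) (sg (A \ P)) else 0)) := by
      apply av_congr
      intro A hA
      rw [lemma_M P hP hM J hJ A hA]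
      have e2 : ((P \ J) ∩ A).powerset = (P \ J).powerset.filter (fun K => K ⊆ A) := by
        ext K
        rw [mem_powerset, mem_filter, mem_powerset, subset_inter_iff]
      rw [e2, Finset.sum_filter]
      apply Finset.sum_congr rfl
      intro K _
      by_cases h : K ⊆ A <;> simp [h]
    rw [e1, av_sum]
    apply Finset.sum_congr rfl
    intro K hK
    rw [av_smul]
    have hKP : K ⊆ P := (mem_powerset.mp hK).trans sdiff_subset
    have e3 := av_indep P hP (fun B => cc (comp (J ∪ K)) (sg B)) K hKP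
    rw [e3]
    have : (2:ℝ) ^ K.card ≠ 0 := by positivity
    field_simp
  -- upper bounds of the terms
  have h3 : ∀ K ∈ (P \ J).powerset, av (fun A => cc (comp (J ∪ K)) (sg (A \ P))) ≤
      ((Fintype.card V - 4 - K.card)! : ℝ) := by
    intro K hK
    have hK' := mem_powerset.mp hK
    have hKP : K ⊆ P := hK'.trans sdiff_subset
    have hJK : J ∪ K ⊆ P := union_subset hJ hKP
    have hcard : (J ∪ K).card = 3 + K.card := by
      rw [card_union_of_disjoint, hJ3]
      rw [Finset.disjoint_left]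
      intro x hx hxK
      exact (mem_sdiff.mp (hK' hxK)).2 hx
    refine le_trans (av_mono _ _ (fun A hA => cc_mono P hP hM (J ∪ K) hJK A hA)) ?_
    rw [av_cc0 (J ∪ K) (hJK.trans hP) (mat_sub P _ hM hJK), hcard]
    have : Fintype.card V - (3 + K.card) - 1 = Fintype.card V - 4 - K.card := by omega
    rw [this]
  have h4 : ∑ K ∈ (P \ J).powerset, ((Fintype.card V - 4 - K.card)! : ℝ) ≤
      1.65 * ((Fintype.card V - 4)! : ℝ) := by
    have e4 := Finset.sum_powerset_apply_card (x := P \ J)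
      (fun k => ((Fintype.card V - 4 - k)! : ℝ))
    rw [e4]
    have hcardPJ : (P \ J).card = P.card - 3 := by
      rw [card_sdiff_of_subset hJ, hJ3]
    rw [hcardPJ]
    have := sum_fact (P.card - 3) (Fintype.card V - 4) hc
    simpa [nsmul_eq_mul] using this
  have h5 : ∑ K ∈ (P \ J).powerset, (((Fintype.card V - 4 - K.card)! : ℝ) -
      av (fun A => cc (comp (J ∪ K)) (sg (A \ P)))) ≥ ((Fintype.card V - 4 - (∅ : Finset (Sym2 V)).card)! : ℝ) -
      av (fun A => cc (comp (J ∪ ∅)) (sg (A \ P))) :=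
    Finset.single_le_sum (s := (P \ J).powerset)
      (f := fun K => (((Fintype.card V - 4 - K.card)! : ℝ) -
        av (fun A => cc (comp (J ∪ K)) (sg (A \ P)))))
      (fun K hK => sub_nonneg.mpr (h3 K hK)) (empty_mem_powerset _)
  rw [Finset.sum_sub_distrib, ← h2, h1] at h5
  simp only [card_empty, tsub_zero, union_empty] at h5
  have h6 : (0:ℝ) < ((Fintype.card V - 4)! : ℝ) := by exact_mod_cast Nat.factorial_pos _
  linarith


/-! ### the family of matchings -/

abbrev Ix (q : ℕ) : Type := (Fin 3 × ZMod q) ⊕ (Fin 3 × ZMod q) ⊕ Bool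

variable {q : ℕ} (io : Ix q ↪ V)

def ed (a : Fin 3 → ZMod q) (i : Fin 3) (j : ZMod q) : Sym2 V :=
  s(io (Sum.inl (i, j)), io (Sum.inr (Sum.inl (i, j + a i))))

def e0 : Sym2 V := s(io (Sum.inr (Sum.inr true)), io (Sum.inr (Sum.inr false)))

theorem ed_mem (a : Fin 3 → ZMod q) (i : Fin 3) (j : ZMod q) : ed io a i j ∈ EE V := by
  unfold EE ed
  rw [mem_filter]
  refine ⟨mem_univ _, ?_⟩
  rw [Sym2.mk_isDiag_iff]
  intro h
  have := io.injective h
  simp at this

theorem e0_mem : e0 io ∈ EE V := by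
  unfold EE e0
  rw [mem_filter]
  refine ⟨mem_univ _, ?_⟩
  rw [Sym2.mk_isDiag_iff]
  intro h
  have := io.injective h
  simp at this

theorem ed_share (a a' : Fin 3 → ZMod q) (i i' : Fin 3) (j j' : ZMod q) (v : V)
    (h : v ∈ ed io a i j) (h' : v ∈ ed io a' i' j') (haa : a = a') : i = i' ∧ j = j' := by
  subst haa
  unfold ed at h h'
  rw [Sym2.mem_iff] at h h'
  rcases h with h | h <;> rcases h' with h' | h' <;> rw [h] at h' <;>
    have h2 := io.injective h'
  · simp only [Sum.inl.injEq, Prod.mk.injEq] at h2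
    exact h2
  · simp at h2
  · simp at h2
  · simp only [Sum.inr.injEq, Sum.inl.injEq, Prod.mk.injEq] at h2
    obtain ⟨h3, h4⟩ := h2
    subst h3
    exact ⟨rfl, add_right_cancel h4⟩

theorem ed_inj (a a' : Fin 3 → ZMod q) (i i' : Fin 3) (j j' : ZMod q)
    (h : ed io a i j = ed io a' i' j') : i = i' ∧ j = j' ∧ a i = a' i := by
  unfold ed at h
  rw [Sym2.eq_iff] at h
  rcases h with h | h
  · have h1 := io.injective h.1
    have h2 := io.injective h.2
    simp only [Sum.inl.injEq, Prod.mk.injEq] at h1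
    simp only [Sum.inr.injEq, Sum.inl.injEq, Prod.mk.injEq] at h2
    obtain ⟨h3, h4⟩ := h1
    subst h3
    subst h4
    exact ⟨rfl, rfl, add_left_cancel h2.2⟩
  · have h1 := io.injective h.1
    simp at h1

theorem e0_share (a : Fin 3 → ZMod q) (i : Fin 3) (j : ZMod q) (v : V)
    (h : v ∈ e0 io) (h' : v ∈ ed io a i j) : False := by
  unfold e0 at h
  unfold ed at h'
  rw [Sym2.mem_iff] at h h'
  rcases h with h | h <;> rcases h' with h' | h' <;> rw [h] at h' <;>
    have h2 := io.injective h' <;> simp at h2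

theorem e0_ne (a : Fin 3 → ZMod q) (i : Fin 3) (j : ZMod q) : e0 io ≠ ed io a i j := by
  intro h
  refine e0_share io a i j (io (Sum.inl (i, j))) ?_ ?_
  · rw [h]; unfold ed; simp
  · unfold ed; simp

variable [NeZero q]

def PP (a : Fin 3 → ZMod q) : Finset (Sym2 V) :=
  insert (e0 io) (univ.image (fun p : Fin 3 × ZMod q => ed io a p.1 p.2))

def JJ (a : Fin 3 → ZMod q) (j : Fin 3 → ZMod q) : Finset (Sym2 V) :=
  univ.image (fun i : Fin 3 => ed io a i (j i))

theorem PP_sub (a : Fin 3 → ZMod q) : PP io a ⊆ EE V := by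
  intro x hx
  unfold PP at hx
  rw [mem_insert, mem_image] at hx
  rcases hx with h | ⟨p, _, h⟩
  · rw [h]; exact e0_mem io
  · rw [← h]; exact ed_mem io a _ _

theorem PP_mat (a : Fin 3 → ZMod q) : Mat (PP io a) := by
  intro e he e' he' hne v hv
  unfold PP at he he'
  rw [mem_insert, mem_image] at he he'
  rcases he with h | ⟨p, _, h⟩ <;> rcases he' with h' | ⟨p', _, h'⟩
  · exact hne (h.trans h'.symm)
  · rw [h, ← h'] at hv
    exact e0_share io a _ _ v hv.1 hv.2
  · rw [← h, h'] at hv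
    exact e0_share io a _ _ v hv.2 hv.1
  · rw [← h, ← h'] at hv
    have := ed_share io a a _ _ _ _ v hv.1 hv.2 rfl
    apply hne
    rw [← h, ← h', this.1, this.2]

theorem PP_card (a : Fin 3 → ZMod q) : (PP io a).card ≤ 3 * q + 1 := by
  unfold PP
  refine (card_insert_le _ _).trans ?_
  refine Nat.add_le_add_right ?_ 1
  refine card_image_le.trans ?_
  rw [card_univ, Fintype.card_prod, Fintype.card_fin, ZMod.card]

theorem JJ_sub (a j : Fin 3 → ZMod q) : JJ io a j ⊆ PP io a := by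
  intro x hx
  unfold JJ at hx
  unfold PP
  rw [mem_image] at hx
  obtain ⟨i, _, h⟩ := hx
  rw [mem_insert, mem_image]
  exact Or.inr ⟨(i, j i), mem_univ _, h⟩

theorem JJ_card (a j : Fin 3 → ZMod q) : (JJ io a j).card = 3 := by
  unfold JJ
  rw [card_image_of_injective, card_univ, Fintype.card_fin]
  intro i i' h
  exact (ed_inj io a a i i' _ _ h).1

theorem e0_not (a j : Fin 3 → ZMod q) : e0 io ∉ JJ io a j := by
  unfold JJ
  rw [mem_image]
  rintro ⟨i, _, h⟩
  exact e0_ne io a _ _ h.symm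

theorem e0_PP (a : Fin 3 → ZMod q) : e0 io ∈ PP io a := mem_insert_self _ _

theorem JJ_inj (a j a' j' : Fin 3 → ZMod q) (h : JJ io a j = JJ io a' j') : a = a' ∧ j = j' := by
  have key : ∀ i, a i = a' i ∧ j i = j' i := by
    intro i
    have h1 : ed io a i (j i) ∈ JJ io a' j' := by
      rw [← h]
      exact mem_image_of_mem _ (mem_univ i)
    unfold JJ at h1
    rw [mem_image] at h1
    obtain ⟨i', _, h2⟩ := h1
    have h3 := ed_inj io a' a i' i _ _ h2
    obtain ⟨h4, h5, h6⟩ := h3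
    subst h4
    exact ⟨h6.symm, h5.symm⟩
  exact ⟨funext fun i => (key i).1, funext fun i => (key i).2⟩

/-- the test quantity -/
def Z (A : Finset (Sym2 V)) : ℝ :=
  ∑ a : Fin 3 → ZMod q, ∑ j : Fin 3 → ZMod q,
    (if JJ io a j ⊆ A then cc (comp (JJ io a j)) (sg (A \ PP io a)) else 0)

theorem Z_nonneg [Nonempty V] (A : Finset (Sym2 V)) : 0 ≤ Z io A := by
  unfold Z
  refine Finset.sum_nonneg fun a _ => Finset.sum_nonneg fun j _ => ?_
  split_ifs
  · exact cc_sg_nonneg _ _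
  · exact le_rfl

theorem card_fun : Fintype.card (Fin 3 → ZMod q) = q ^ 3 := by
  rw [Fintype.card_fun, ZMod.card, Fintype.card_fin]

theorem Z_bot [Nonempty V] (A : Finset (Sym2 V)) (hA : A ⊆ EE V) :
    8 * Z io A ≤ (q : ℝ) ^ 3 * cc (⊥ : Setoid V) (sg A) := by
  unfold Z
  rw [Finset.mul_sum]
  have h1 : ∀ a : Fin 3 → ZMod q, 8 * ∑ j : Fin 3 → ZMod q,
      (if JJ io a j ⊆ A then cc (comp (JJ io a j)) (sg (A \ PP io a)) else 0) ≤
        cc (⊥ : Setoid V) (sg A) := by
    intro a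
    have h2 := bot_ge (PP io a) (PP_sub io a) (PP_mat io a) A hA (univ.image (JJ io a))
      (by
        intro J hJ
        rw [mem_image] at hJ
        obtain ⟨j, _, rfl⟩ := hJ
        exact ⟨JJ_sub io a j, JJ_card io a j⟩)
    rw [Finset.sum_image (fun j _ j' _ h => (JJ_inj io a j a j' h).2)] at h2
    exact h2
  refine (Finset.sum_le_sum fun a _ => h1 a).trans ?_
  rw [Finset.sum_const, card_univ, card_fun, nsmul_eq_mul]
  push_cast
  exact le_rfl

theorem Z_S3 [Nonempty V] (A : Finset (Sym2 V)) (hA : A ⊆ EE V) : Z io A ≤ S3 A := by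
  unfold Z S3
  have h1 : ∑ a : Fin 3 → ZMod q, ∑ j : Fin 3 → ZMod q,
      (if JJ io a j ⊆ A then cc (comp (JJ io a j)) (sg (A \ PP io a)) else 0) ≤
      ∑ a : Fin 3 → ZMod q, ∑ j : Fin 3 → ZMod q,
      (if JJ io a j ⊆ A then cc (comp (JJ io a j)) (sg A) else 0) := by
    refine Finset.sum_le_sum fun a _ => Finset.sum_le_sum fun j _ => ?_
    split_ifs
    · exact cc_mono (PP io a) (PP_sub io a) (PP_mat io a) _ (JJ_sub io a j) A hA
    · exact le_rfl
  refine h1.trans ?_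
  rw [← Finset.sum_product' (f := fun a j => if JJ io a j ⊆ A then cc (comp (JJ io a j)) (sg A) else 0)]
  rw [← Finset.sum_filter]
  rw [← Finset.sum_image (g := fun p : (Fin 3 → ZMod q) × (Fin 3 → ZMod q) => JJ io p.1 p.2)
    (f := fun J => cc (comp J) (sg A))]
  · apply Finset.sum_le_sum_of_subset_of_nonneg
    · intro J hJ
      rw [mem_image] at hJ
      obtain ⟨p, hp, rfl⟩ := hJ
      rw [mem_filter] at hp
      rw [mem_filter, mem_powerset]
      exact ⟨hp.2, JJ_card io _ _, mat_sub _ _ (PP_mat io p.1) (JJ_sub io _ _)⟩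
    · intro J _ _
      exact cc_sg_nonneg _ _
  · intro p _ p' _ h
    have := JJ_inj io p.1 p.2 p'.1 p'.2 h
    exact Prod.ext this.1 this.2

theorem Z_tog (A : Finset (Sym2 V)) : Z io (tog (e0 io) A) = Z io A := by
  unfold Z
  refine Finset.sum_congr rfl fun a _ => Finset.sum_congr rfl fun j _ => ?_
  simp only [sub_tog (e0 io) (JJ io a j) A (e0_not io a j), tog_sdiff (e0 io) (PP io a) A (e0_PP io a)]

theorem Z_av [Nonempty V] (hq : 6 * q + 2 ≤ Fintype.card V) :
    (q : ℝ) ^ 6 * (((Fintype.card V - 4)! : ℝ) / 32) ≤ av (Z io) := by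
  have h1 : av (Z io) = ∑ a : Fin 3 → ZMod q, ∑ j : Fin 3 → ZMod q,
      av (fun A => if JJ io a j ⊆ A then cc (comp (JJ io a j)) (sg (A \ PP io a)) else 0) := by
    unfold Z
    rw [av_sum]
    refine Finset.sum_congr rfl fun a _ => ?_
    rw [av_sum]
  rw [h1]
  have h2 : ∀ a j : Fin 3 → ZMod q, ((Fintype.card V - 4)! : ℝ) / 32 ≤
      av (fun A => if JJ io a j ⊆ A then cc (comp (JJ io a j)) (sg (A \ PP io a)) else 0) := by
    intro a j
    rw [av_indep (PP io a) (PP_sub io a) (fun B => cc (comp (JJ io a j)) (sg B)) _ (JJ_sub io a j)]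
    rw [JJ_card]
    have h3 := av_ge (PP io a) (PP_sub io a) (PP_mat io a) _ (JJ_sub io a j) (JJ_card io a j)
      (by have := PP_card io a; omega)
    norm_num
    linarith
  have h3 : ∑ a : Fin 3 → ZMod q, ∑ j : Fin 3 → ZMod q, ((Fintype.card V - 4)! : ℝ) / 32 ≤
      ∑ a : Fin 3 → ZMod q, ∑ j : Fin 3 → ZMod q,
      av (fun A => if JJ io a j ⊆ A then cc (comp (JJ io a j)) (sg (A \ PP io a)) else 0) :=
    Finset.sum_le_sum fun a _ => Finset.sum_le_sum fun j _ => h2 a j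
  refine le_trans (le_of_eq ?_) h3
  simp only [Finset.sum_const, card_univ, card_fun, nsmul_eq_mul]
  push_cast
  ring


/-! ### Paley-Zygmund -/

omit [NeZero q] in
theorem paley (z : Finset (Sym2 V) → ℝ) (S : ℝ) (hS : 0 < S)
    (hz : ∀ A, 0 ≤ z A) (h2 : av (fun A => z A ^ 2) ≤ S) :
    (av z) ^ 2 / (4 * S) * 2 ^ (EE V).card ≤
      (((EE V).powerset.filter (fun A => av z / 2 ≤ z A)).card : ℝ) := by
  set N2 : ℝ := 2 ^ (EE V).card with hN2
  have hN : 0 < N2 := by positivity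
  have hm0 : 0 ≤ av z := by
    unfold av
    apply div_nonneg (Finset.sum_nonneg fun A _ => hz A) (by positivity)
  have e1 : ∑ A ∈ (EE V).powerset, z A = av z * N2 := by
    unfold av
    rw [div_mul_cancel₀ _ (ne_of_gt hN)]
  have e2 : ∑ A ∈ (EE V).powerset, z A ^ 2 ≤ S * N2 := by
    have : av (fun A => z A ^ 2) * N2 = ∑ A ∈ (EE V).powerset, z A ^ 2 := by
      unfold av
      rw [div_mul_cancel₀ _ (ne_of_gt hN)]
    rw [← this]
    exact mul_le_mul_of_nonneg_right h2 hN.le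
  have e3 := Finset.sum_filter_add_sum_filter_not (EE V).powerset (fun A => av z / 2 ≤ z A) z
  have e4 : ∑ A ∈ (EE V).powerset.filter (fun A => ¬ av z / 2 ≤ z A), z A ≤ av z / 2 * N2 := by
    calc ∑ A ∈ (EE V).powerset.filter (fun A => ¬ av z / 2 ≤ z A), z A
        ≤ ∑ A ∈ (EE V).powerset.filter (fun A => ¬ av z / 2 ≤ z A), av z / 2 := by
          apply Finset.sum_le_sum
          intro A hA
          rw [mem_filter] at hA
          exact (not_le.mp hA.2).le
      _ = (((EE V).powerset.filter (fun A => ¬ av z / 2 ≤ z A)).card : ℝ) * (av z / 2) := by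
          rw [Finset.sum_const, nsmul_eq_mul]
      _ ≤ N2 * (av z / 2) := by
          apply mul_le_mul_of_nonneg_right _ (by positivity)
          rw [hN2]
          have := Finset.card_filter_le (EE V).powerset (fun A => ¬ av z / 2 ≤ z A)
          rw [card_powerset] at this
          exact_mod_cast this
      _ = _ := by ring
  set G := (EE V).powerset.filter (fun A => av z / 2 ≤ z A) with hG
  have e5 : av z / 2 * N2 ≤ ∑ A ∈ G, z A := by linarith
  have e6 : (∑ A ∈ G, z A) ^ 2 ≤ (G.card : ℝ) * ∑ A ∈ G, z A ^ 2 := sq_sum_le_card_mul_sum_sq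
  have e7 : ∑ A ∈ G, z A ^ 2 ≤ S * N2 := by
    refine le_trans ?_ e2
    apply Finset.sum_le_sum_of_subset_of_nonneg (filter_subset _ _)
    intro A _ _
    positivity
  have e8 : (av z / 2 * N2) ^ 2 ≤ (G.card : ℝ) * (S * N2) := by
    calc (av z / 2 * N2) ^ 2 ≤ (∑ A ∈ G, z A) ^ 2 := by
          apply pow_le_pow_left₀ (by positivity) e5
      _ ≤ (G.card : ℝ) * ∑ A ∈ G, z A ^ 2 := e6
      _ ≤ _ := by gcongr
  rw [div_mul_eq_mul_div, div_le_iff₀ (by positivity)]
  have e9 : N2 * ((av z) ^ 2 * N2) ≤ N2 * ((G.card : ℝ) * (4 * S)) := by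
    nlinarith [e8]
  exact le_of_mul_le_mul_left e9 hN

end PZ

open PZ in
theorem pz_main : ∃ θ : ℝ, 0 < θ ∧ ∃ p : ℝ, 0 < p ∧ ∃ n0 : ℕ, ∀ (V : Type) [Fintype V],
    n0 ≤ Fintype.card V →
    p * 2 ^ (EE V).card ≤
      (((EE V).powerset.filter (fun A => Even (A.card + Fintype.card V + 1) ∧
        θ * ((Fintype.card V - 1)! : ℝ) ≤ cc (⊥ : Setoid V) (sg A) ∧
        θ * (Fintype.card V : ℝ) ^ 3 * ((Fintype.card V - 1)! : ℝ) ≤ S3 A)).card : ℝ) := by
  obtain ⟨C, hC, hmu⟩ := sum_mu_sq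
  refine ⟨1 / (64 * 343 * 343), by norm_num, 1 / (128 * 343 ^ 2 * C), by positivity, 49, ?_⟩
  intro V _ hn
  set n := Fintype.card V with hnV
  have : Nonempty V := Fintype.card_pos_iff.mp (by omega)
  obtain ⟨q, hq1, hq2⟩ : ∃ q : ℕ, 6 * q + 2 ≤ n ∧ n ≤ 7 * q := ⟨(n - 2) / 6, by omega, by omega⟩
  have hq0 : 0 < q := by omega
  have : NeZero q := ⟨by omega⟩
  have hcard : Fintype.card (Ix q) ≤ Fintype.card V := by
    simp only [Fintype.card_sum, Fintype.card_prod, Fintype.card_fin, ZMod.card, Fintype.card_bool]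
    omega
  obtain ⟨io⟩ := Function.Embedding.nonempty_of_card_le hcard
  have hqpos : (0:ℝ) < q := by exact_mod_cast hq0
  have hqn : (n : ℝ) ≤ 7 * q := by exact_mod_cast hq2
  have hnpos : (0:ℝ) < n := by
    have : 0 < n := by omega
    exact_mod_cast this
  set F4 : ℝ := ((n - 4)! : ℝ) with hF4
  set F1 : ℝ := ((n - 1)! : ℝ) with hF1
  have hF4pos : 0 < F4 := by rw [hF4]; exact_mod_cast Nat.factorial_pos _
  have hF1pos : 0 < F1 := by rw [hF1]; exact_mod_cast Nat.factorial_pos _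
  -- (n-1)! ≤ n^3 (n-4)!
  have hF : F1 ≤ (n:ℝ) ^ 3 * F4 := by
    obtain ⟨m, hm⟩ : ∃ m, n = m + 4 := ⟨n - 4, by omega⟩
    have e1 : n - 1 = m + 3 := by omega
    have e2 : n - 4 = m := by omega
    rw [hF1, hF4, e1, e2, hm]
    have e3 : (m + 3)! = (m + 3) * ((m + 2) * ((m + 1) * m !)) := by
      rw [Nat.factorial_succ, Nat.factorial_succ, Nat.factorial_succ]
    rw [e3]
    push_cast
    have hm0 : (0:ℝ) ≤ m := Nat.cast_nonneg m
    have hf0 : (0:ℝ) < (m ! : ℝ) := by exact_mod_cast Nat.factorial_pos m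
    have : ((m:ℝ) + 3) * ((m + 2) * ((m + 1) * (m ! : ℝ))) =
      ((m:ℝ) + 3) * (m + 2) * (m + 1) * (m ! : ℝ) := by ring
    rw [this]
    apply mul_le_mul_of_nonneg_right _ hf0.le
    calc ((m:ℝ) + 3) * (m + 2) * (m + 1) ≤ (m + 4) * (m + 4) * (m + 4) := by
          gcongr <;> linarith
      _ = _ := by ring
  have hF' : F1 ≤ 343 * ((q:ℝ) ^ 3 * F4) := by
    calc F1 ≤ (n:ℝ) ^ 3 * F4 := hF
      _ ≤ (7 * q) ^ 3 * F4 := by gcongr
      _ = _ := by ring
  -- moments
  have hav : (q:ℝ) ^ 6 * (F4 / 32) ≤ av (Z io) := Z_av io (by omega)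
  have hav0 : 0 < av (Z io) := lt_of_lt_of_le (by positivity) hav
  have hsq : av (fun A => Z io A ^ 2) ≤ (q:ℝ) ^ 6 * C * F1 ^ 2 / 64 := by
    have h1 : av (fun A => Z io A ^ 2) ≤
        av (fun A => (q:ℝ) ^ 6 / 64 * (cc (⊥ : Setoid V) (sg A)) ^ 2) := by
      apply av_mono
      intro A hA
      have h2 := Z_bot io A hA
      have h3 := Z_nonneg io A
      have h4 : (8 * Z io A) ^ 2 ≤ ((q:ℝ) ^ 3 * cc (⊥ : Setoid V) (sg A)) ^ 2 :=
        pow_le_pow_left₀ (by positivity) h2 2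
      nlinarith [h4]
    rw [av_smul, av_sq] at h1
    have h5 := hmu V
    calc av (fun A => Z io A ^ 2) ≤ (q:ℝ) ^ 6 / 64 * ∑ r : Setoid V, (mu (kk r)) ^ 2 := h1
      _ ≤ (q:ℝ) ^ 6 / 64 * (C * F1 ^ 2) := by gcongr
      _ = _ := by ring
  have hpz := paley (Z io) ((q:ℝ) ^ 6 * C * F1 ^ 2 / 64) (by positivity) (Z_nonneg io) hsq
  have hlow : 1 / (64 * 343 ^ 2 * C) ≤ (av (Z io)) ^ 2 / (4 * ((q:ℝ) ^ 6 * C * F1 ^ 2 / 64)) := by
    rw [div_le_div_iff₀ (by positivity) (by positivity)]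
    have h1 : ((q:ℝ) ^ 6 * (F4 / 32)) ^ 2 ≤ (av (Z io)) ^ 2 :=
      pow_le_pow_left₀ (by positivity) hav 2
    have h2 : F1 ^ 2 ≤ (343 * ((q:ℝ) ^ 3 * F4)) ^ 2 := pow_le_pow_left₀ hF1pos.le hF' 2
    calc 1 * (4 * ((q:ℝ) ^ 6 * C * F1 ^ 2 / 64)) = (q:ℝ) ^ 6 * C / 16 * F1 ^ 2 := by ring
      _ ≤ (q:ℝ) ^ 6 * C / 16 * (343 * ((q:ℝ) ^ 3 * F4)) ^ 2 := by gcongr
      _ = ((q:ℝ) ^ 6 * (F4 / 32)) ^ 2 * (64 * 343 ^ 2 * C) := by ring
      _ ≤ (av (Z io)) ^ 2 * (64 * 343 ^ 2 * C) := by gcongr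
  have hG : 1 / (64 * 343 ^ 2 * C) * 2 ^ (EE V).card ≤
      (((EE V).powerset.filter (fun A => av (Z io) / 2 ≤ Z io A)).card : ℝ) := by
    refine le_trans ?_ hpz
    gcongr
  -- parity
  have hpar := half_sum (e0 io) (e0_mem io) (fun A => Even (A.card + n + 1))
    (by
      intro A _
      have := card_tog (e0 io) A
      simp only [Nat.even_add, Nat.not_even_one]
      tauto)
    (fun A => if av (Z io) / 2 ≤ Z io A then (1:ℝ) else 0)
    (by
      intro A _
      simp only [Z_tog])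
  rw [← Finset.sum_filter, ← Finset.sum_filter, Finset.sum_const, Finset.sum_const, nsmul_eq_mul,
    nsmul_eq_mul, mul_one, mul_one, Finset.filter_filter] at hpar
  have hsub : (EE V).powerset.filter (fun A => Even (A.card + n + 1) ∧ av (Z io) / 2 ≤ Z io A) ⊆
      (EE V).powerset.filter (fun A => Even (A.card + n + 1) ∧
        1 / (64 * 343 * 343) * F1 ≤ cc (⊥ : Setoid V) (sg A) ∧
        1 / (64 * 343 * 343) * (n : ℝ) ^ 3 * F1 ≤ S3 A) := by
    intro A hA
    rw [mem_filter] at hA ⊢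
    obtain ⟨hA1, hA2, hA3⟩ := hA
    have hAE := mem_powerset.mp hA1
    have hz : (q:ℝ) ^ 6 * F4 / 64 ≤ Z io A := by linarith
    refine ⟨hA1, hA2, ?_, ?_⟩
    · have h1 := Z_bot io A hAE
      have h2 : (q:ℝ) ^ 3 * ((q:ℝ) ^ 3 * F4 / 8) ≤ (q:ℝ) ^ 3 * cc (⊥ : Setoid V) (sg A) := by
        calc (q:ℝ) ^ 3 * ((q:ℝ) ^ 3 * F4 / 8) = 8 * ((q:ℝ) ^ 6 * F4 / 64) := by ring
          _ ≤ 8 * Z io A := by gcongr
          _ ≤ _ := h1
      have h3 := le_of_mul_le_mul_left h2 (by positivity : (0:ℝ) < (q:ℝ) ^ 3)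
      linarith
    · have h1 := Z_S3 io A hAE
      have h2 : (n:ℝ) ^ 3 ≤ 343 * (q:ℝ) ^ 3 := by
        calc (n:ℝ) ^ 3 ≤ (7 * q) ^ 3 := by gcongr
          _ = _ := by ring
      calc 1 / (64 * 343 * 343) * (n : ℝ) ^ 3 * F1
          ≤ 1 / (64 * 343 * 343) * (343 * (q:ℝ) ^ 3) * (343 * ((q:ℝ) ^ 3 * F4)) := by gcongr
        _ = (q:ℝ) ^ 6 * F4 / 64 := by ring
        _ ≤ S3 A := hz.trans h1
  have hcardle : (((EE V).powerset.filter (fun A => Even (A.card + n + 1) ∧
      av (Z io) / 2 ≤ Z io A)).card : ℝ) ≤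
      (((EE V).powerset.filter (fun A => Even (A.card + n + 1) ∧
        1 / (64 * 343 * 343) * F1 ≤ cc (⊥ : Setoid V) (sg A) ∧
        1 / (64 * 343 * 343) * (n : ℝ) ^ 3 * F1 ≤ S3 A)).card : ℝ) := by
    exact_mod_cast card_le_card hsub
  refine le_trans ?_ hcardle
  rw [hpar]
  calc 1 / (128 * 343 ^ 2 * C) * 2 ^ (EE V).card
      = (1 / (64 * 343 ^ 2 * C) * 2 ^ (EE V).card) / 2 := by
        field_simp
        ring
    _ ≤ _ := by gcongr

end

end Pool.Agent.R88.RR
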