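import Pool.Agent.R88.RR.Defs

/-!
Project RR, piece KB: sums over the edge sets with given components.
-/

set_option autoImplicit false
set_option linter.unusedSectionVars false

namespace Pool.Agent.R88.RR

open Finset
open scoped Classical Nat

noncomputable section

namespace KB

variable {V : Type} [Fintype V]

/-- the class of a point -/
def cl (s : Setoid V) (v : V) : Finset V := univ.filter (fun b => s v b)

/-- the chosen root of the class of a point -/
def rt (s : Setoid V) (v : V) : V := (Quotient.mk s v).out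

theorem rt_rel (s : Setoid V) (v : V) : s v (rt s v) :=
  s.symm (Quotient.mk_out (s := s) v)

theorem rt_eq (s : Setoid V) {v w : V} (h : s v w) : rt s v = rt s w := by
  unfold rt
  rw [Quotient.sound (s := s) h]

theorem rt_rt (s : Setoid V) (v : V) : rt s (rt s v) = rt s v :=
  (rt_eq s (rt_rel s v)).symm

theorem mem_cl (s : Setoid V) (v w : V) : w ∈ cl s v ↔ s v w := by
  simp [cl]

theorem cl_mem (s : Setoid V) (v : V) : cl s v ∈ cls s := by
  unfold cls cl
  exact mem_image_of_mem _ (mem_univ v)

theorem fiber (s : Setoid V) {B : Finset V} (hB : B ∈ cls s) :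
    univ.filter (fun v => cl s v = B) = B := by
  unfold cls at hB
  simp only [mem_image, mem_univ, true_and] at hB
  obtain ⟨a, rfl⟩ := hB
  ext v
  simp only [mem_filter, mem_univ, true_and]
  constructor
  · intro h
    have : v ∈ cl s v := by rw [mem_cl]
    rw [h] at this
    simpa using this
  · intro h
    ext w
    rw [mem_cl]
    simp only [mem_filter, mem_univ, true_and]
    exact ⟨fun h1 => s.trans h h1, fun h1 => s.trans (s.symm h) h1⟩

theorem prod_cls {M : Type*} [CommMonoid M] (s : Setoid V) (g : V → M) :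
    ∏ v, g v = ∏ B ∈ cls s, ∏ v ∈ B, g v := by
  rw [← prod_fiberwise_of_maps_to (s := univ) (t := cls s) (g := cl s)
    (fun v _ => cl_mem s v) g]
  apply prod_congr rfl
  intro B hB
  rw [fiber s hB]

theorem sum_cls' {M : Type*} [AddCommMonoid M] (s : Setoid V) (g : V → M) :
    ∑ v, g v = ∑ B ∈ cls s, ∑ v ∈ B, g v := by
  rw [← sum_fiberwise_of_maps_to (s := univ) (t := cls s) (g := cl s)
    (fun v _ => cl_mem s v) g]
  apply sum_congr rfl
  intro B hB
  rw [fiber s hB]

/-- the points which are not roots -/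
def nr (s : Setoid V) : Finset V := univ.filter (fun v => rt s v ≠ v)

theorem nr_class (s : Setoid V) {B : Finset V} (hB : B ∈ cls s) :
    (B.filter (fun v => rt s v ≠ v)).card = B.card - 1 := by
  unfold cls at hB
  simp only [mem_image, mem_univ, true_and] at hB
  obtain ⟨a, rfl⟩ := hB
  have h1 : (univ.filter (fun b => s a b)).filter (fun v => rt s v ≠ v)
      = (univ.filter (fun b => s a b)).erase (rt s a) := by
    ext v
    simp only [mem_filter, mem_univ, true_and, mem_erase]
    constructor
    · rintro ⟨h2, h3⟩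
      refine ⟨?_, h2⟩
      intro h4
      apply h3
      rw [h4, rt_rt]
    · rintro ⟨h2, h3⟩
      refine ⟨h3, ?_⟩
      rw [← rt_eq s h3]
      exact fun h => h2 h.symm
  rw [h1, card_erase_of_mem]
  simp only [mem_filter, mem_univ, true_and]
  exact rt_rel s a

theorem nr_card (s : Setoid V) : (nr s).card = ∑ B ∈ cls s, (B.card - 1) := by
  unfold nr
  rw [card_eq_sum_ones, sum_filter, sum_cls' s]
  apply sum_congr rfl
  intro B hB
  rw [← nr_class s hB, card_eq_sum_ones, sum_filter]

/-- parent functions -/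
def Ps (s : Setoid V) : Finset (V → V) :=
  Fintype.piFinset (fun v => if rt s v = v then {v} else (cl s v).erase v)

theorem Ps_card (s : Setoid V) :
    (Ps s).card = ∏ B ∈ cls s, (B.card - 1) ^ (B.card - 1) := by
  unfold Ps
  rw [Fintype.card_piFinset, prod_cls s]
  apply prod_congr rfl
  intro B hB
  have h1 : ∀ v ∈ B, (if rt s v = v then ({v} : Finset V) else (cl s v).erase v).card
      = if rt s v ≠ v then B.card - 1 else 1 := by
    intro v hv
    have h2 : cl s v = B := by
      rw [← fiber s hB] at hv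
      simpa using hv
    by_cases h3 : rt s v = v
    · rw [if_pos h3, if_neg (not_not.mpr h3), card_singleton]
    · rw [if_neg h3, if_pos h3, card_erase_of_mem, h2]
      rw [h2]; exact hv
  rw [prod_congr rfl h1, prod_ite]
  simp only [prod_const, one_pow, mul_one]
  rw [nr_class s hB]

/-- the set of the edges from a point to its parent -/
def TT (s : Setoid V) (p : V → V) : Finset (Sym2 V) := (nr s).image (fun v => s(v, p v))

theorem inn_sub (s : Setoid V) :
    inn s ⊆ (cls s).biUnion (fun B => image (Function.uncurry Sym2.mk) B.offDiag) := by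
  intro e he
  unfold inn EE at he
  simp only [mem_filter, mem_univ, true_and] at he
  induction e with
  | h a b =>
    simp only [mem_biUnion, mem_image]
    refine ⟨cl s a, cl_mem s a, (a, b), ?_, rfl⟩
    rw [mem_offDiag]
    refine ⟨?_, ?_, ?_⟩
    · rw [mem_cl]
    · rw [mem_cl]
      exact he.2 a (by simp) b (by simp)
    · intro h
      apply he.1
      simpa using h

theorem inn_card (s : Setoid V) : (inn s).card ≤ ∑ B ∈ cls s, B.card.choose 2 := by
  refine (card_le_card (inn_sub s)).trans (card_biUnion_le.trans ?_)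
  apply sum_le_sum
  intro B _
  rw [Sym2.card_image_offDiag]

theorem card_sub (s : Setoid V) :
    (inn s).card - (nr s).card ≤ ∑ B ∈ cls s, (B.card.choose 2 - (B.card - 1)) := by
  rw [nr_card]
  have h1 := inn_card s
  have h2 : ∑ B ∈ cls s, B.card.choose 2
      ≤ ∑ B ∈ cls s, (B.card.choose 2 - (B.card - 1)) + ∑ B ∈ cls s, (B.card - 1) := by
    rw [← sum_add_distrib]
    apply sum_le_sum
    intro B _
    omega
  omega

/-- sums over intervals of finite sets -/
theorem sum_Icc (T I : Finset (Sym2 V)) (h : T ⊆ I) (z : ℝ) :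
    ∑ F ∈ Icc T I, z ^ F.card = z ^ T.card * (1 + z) ^ (I.card - T.card) := by
  rw [Finset.Icc_eq_image_powerset h, sum_image]
  · rw [← card_sdiff_of_subset h, add_comm 1 z, ← sum_pow_mul_eq_add_pow, mul_sum]
    apply sum_congr rfl
    intro K hK
    rw [mem_powerset] at hK
    have hd : Disjoint T K := by
      rw [disjoint_left]
      intro a ha hk
      exact (mem_sdiff.mp (hK hk)).2 ha
    rw [card_union_of_disjoint hd, pow_add, one_pow, mul_one]
  · intro K hK K' hK' hKK
    simp only [coe_powerset, Set.mem_preimage, Set.mem_powerset_iff, coe_subset] at hK hK'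
    simp only at hKK
    ext a
    have hKa : ∀ X : Finset (Sym2 V), X ⊆ I \ T → (a ∈ X ↔ a ∈ T ∪ X ∧ a ∉ T) := by
      intro X hX
      constructor
      · intro ha
        exact ⟨mem_union_right _ ha, (mem_sdiff.mp (hX ha)).2⟩
      · rintro ⟨h1, h2⟩
        exact (mem_union.mp h1).resolve_left h2
    rw [hKa K hK, hKa K' hK', hKK]

/-- the graph with edge set `F` -/
abbrev gr (F : Finset (Sym2 V)) : SimpleGraph V := SimpleGraph.fromEdgeSet (F : Set (Sym2 V))

theorem exists_par' (G : SimpleGraph V) (v w : V) (h1 : G.Reachable v w) (h : w ≠ v) :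
    ∃ u, G.Adj v u ∧ G.dist u w < G.dist v w := by
  obtain ⟨p, hp⟩ := h1.exists_walk_length_eq_dist
  cases p with
  | nil => exact absurd rfl h
  | @cons _ u _ hadj q =>
    refine ⟨u, hadj, ?_⟩
    rw [← hp]
    have := SimpleGraph.dist_le q
    simp only [SimpleGraph.Walk.length_cons]
    omega

theorem exists_par (F : Finset (Sym2 V)) (v : V) (h : rt (comp F) v ≠ v) :
    ∃ u, (gr F).Adj v u ∧ (gr F).dist u (rt (comp F) v) < (gr F).dist v (rt (comp F) v) :=
  exists_par' (gr F) v _ (rt_rel (comp F) v) h

/-- the parent function of an edge set -/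
def pp (F : Finset (Sym2 V)) (v : V) : V :=
  if h : rt (comp F) v ≠ v then (exists_par F v h).choose else v

theorem pp_adj (F : Finset (Sym2 V)) (v : V) (h : rt (comp F) v ≠ v) :
    (gr F).Adj v (pp F v) := by
  unfold pp
  rw [dif_pos h]
  exact (exists_par F v h).choose_spec.1

theorem pp_dist (F : Finset (Sym2 V)) (v : V) (h : rt (comp F) v ≠ v) :
    (gr F).dist (pp F v) (rt (comp F) v) < (gr F).dist v (rt (comp F) v) := by
  unfold pp
  rw [dif_pos h]
  exact (exists_par F v h).choose_spec.2

theorem pp_rel (F : Finset (Sym2 V)) (v : V) (h : rt (comp F) v ≠ v) :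
    comp F v (pp F v) := (pp_adj F v h).reachable

theorem pp_mem (F : Finset (Sym2 V)) : pp F ∈ Ps (comp F) := by
  unfold Ps
  rw [Fintype.mem_piFinset]
  intro v
  by_cases h : rt (comp F) v = v
  · rw [if_pos h, mem_singleton]
    unfold pp
    rw [dif_neg (not_not.mpr h)]
  · rw [if_neg h, mem_erase, mem_cl]
    exact ⟨(pp_adj F v h).ne', pp_rel F v h⟩

theorem pp_inj (F : Finset (Sym2 V)) :
    Set.InjOn (fun v => s(v, pp F v)) (nr (comp F) : Set V) := by
  intro v hv w hw hvw
  simp only [nr, coe_filter, mem_univ, true_and, Set.mem_ofPred_eq] at hv hw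
  simp only [Sym2.eq_iff] at hvw
  rcases hvw with ⟨h, _⟩ | ⟨h1, h2⟩
  · exact h
  · exfalso
    have d1 := pp_dist F v hv
    have d2 := pp_dist F w hw
    have e : rt (comp F) v = rt (comp F) w := by
      apply rt_eq
      have := pp_rel F v hv
      rw [h2] at this
      exact this
    rw [h2] at d1
    rw [← h1, ← e] at d2
    omega

theorem TT_card (F : Finset (Sym2 V)) : (TT (comp F) (pp F)).card = (nr (comp F)).card :=
  card_image_of_injOn (pp_inj F)

theorem TT_sub (F : Finset (Sym2 V)) : TT (comp F) (pp F) ⊆ F := by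
  intro e he
  unfold TT at he
  rw [mem_image] at he
  obtain ⟨v, hv, rfl⟩ := he
  simp only [nr, mem_filter, mem_univ, true_and] at hv
  have := pp_adj F v hv
  rw [SimpleGraph.fromEdgeSet_adj] at this
  exact_mod_cast this.1

theorem sub_inn (F : Finset (Sym2 V)) (hF : F ⊆ EE V) : F ⊆ inn (comp F) := by
  intro e he
  unfold inn
  rw [mem_filter]
  refine ⟨hF he, ?_⟩
  intro a ha b hb
  by_cases hab : a = b
  · subst hab
    exact (comp F).refl a
  · have h1 : e = s(a, b) := ((Sym2.mem_and_mem_iff hab).mp ⟨ha, hb⟩)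
    have h2 : (gr F).Adj a b := by
      rw [SimpleGraph.fromEdgeSet_adj]
      refine ⟨?_, hab⟩
      rw [← h1]
      exact_mod_cast he
    exact h2.reachable

end KB

theorem comp_sum_le {V : Type} [Fintype V] (s : Setoid V) (z : ℝ) (hz : 0 ≤ z) :
    ∑ F ∈ (EE V).powerset.filter (fun F => comp F = s), z ^ F.card
      ≤ ∏ B ∈ cls s, (((B.card - 1 : ℕ) : ℝ) ^ (B.card - 1) * z ^ (B.card - 1) *
          (1 + z) ^ (B.card.choose 2 - (B.card - 1))) := by
  have key : ∀ F ∈ (EE V).powerset.filter (fun F => comp F = s),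
      KB.pp F ∈ (KB.Ps s).filter (fun p => (KB.TT s p).card = (KB.nr s).card ∧
        KB.TT s p ⊆ inn s) := by
    intro F hF
    rw [mem_filter, mem_powerset] at hF
    obtain ⟨h1, rfl⟩ := hF
    rw [mem_filter]
    exact ⟨KB.pp_mem F, KB.TT_card F, (KB.TT_sub F).trans (KB.sub_inn F h1)⟩
  rw [← sum_fiberwise_of_maps_to key]
  have step : ∀ p ∈ (KB.Ps s).filter (fun p => (KB.TT s p).card = (KB.nr s).card ∧
        KB.TT s p ⊆ inn s),
      ∑ F ∈ ((EE V).powerset.filter (fun F => comp F = s)).filter (fun F => KB.pp F = p),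
        z ^ F.card ≤ z ^ (KB.nr s).card *
          (1 + z) ^ (∑ B ∈ cls s, (B.card.choose 2 - (B.card - 1))) := by
    intro p hp
    rw [mem_filter] at hp
    obtain ⟨_, h2, h3⟩ := hp
    calc ∑ F ∈ ((EE V).powerset.filter (fun F => comp F = s)).filter (fun F => KB.pp F = p),
          z ^ F.card ≤ ∑ F ∈ Icc (KB.TT s p) (inn s), z ^ F.card := by
          apply sum_le_sum_of_subset_of_nonneg
          · intro F hF
            rw [mem_filter, mem_filter, mem_powerset] at hF
            obtain ⟨⟨h4, rfl⟩, rfl⟩ := hF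
            rw [mem_Icc]
            exact ⟨KB.TT_sub F, KB.sub_inn F h4⟩
          · intro F _ _
            positivity
      _ = z ^ (KB.nr s).card * (1 + z) ^ ((inn s).card - (KB.nr s).card) := by
          rw [KB.sum_Icc _ _ h3, h2]
      _ ≤ _ := by
          apply mul_le_mul_of_nonneg_left _ (by positivity)
          exact pow_le_pow_right₀ (by linarith) (KB.card_sub s)
  refine (sum_le_sum step).trans ?_
  rw [sum_const, nsmul_eq_mul]
  have hcard : ((((KB.Ps s).filter (fun p => (KB.TT s p).card = (KB.nr s).card ∧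
        KB.TT s p ⊆ inn s)).card : ℕ) : ℝ) ≤ ∏ B ∈ cls s, ((B.card - 1 : ℕ) : ℝ) ^ (B.card - 1) := by
    have := (card_filter_le (KB.Ps s) (fun p => (KB.TT s p).card = (KB.nr s).card ∧
        KB.TT s p ⊆ inn s)).trans_eq (KB.Ps_card s)
    exact_mod_cast this
  refine (mul_le_mul_of_nonneg_right hcard (by positivity)).trans_eq ?_
  rw [prod_mul_distrib, prod_mul_distrib, KB.nr_card, prod_pow_eq_pow_sum, prod_pow_eq_pow_sum]
  ring

end

end Pool.Agent.R88.RR
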