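import Pool.Agent.R88.RR.PL
import Pool.Agent.R88.RR.KB

/-!
Project RR, piece S1 (helper574): `bad_small_sum`.
-/

set_option autoImplicit false

namespace Pool.Agent.R88.RR

open Finset
open scoped Classical Nat

noncomputable section

namespace S1

/-! ### Factorial bounds -/

/-- `(k-1)! n^(n-k) ≤ (n-1)! (2e)^(n-k)` -/
theorem fact_bound1 (k : ℕ) (hk : 1 ≤ k) (n : ℕ) (hn : k ≤ n) :
    ((k - 1)! : ℝ) * (n : ℝ) ^ (n - k) ≤ ((n - 1)! : ℝ) * (2 * Real.exp 1) ^ (n - k) := by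
  induction n, hn using Nat.le_induction with
  | base => simp
  | succ n hkn ih =>
    have hn1 : 1 ≤ n := hk.trans hkn
    have hnpos : (0 : ℝ) < n := by exact_mod_cast hn1
    have e1 : n + 1 - k = (n - k) + 1 := by omega
    have e2 : n + 1 - 1 = (n - 1) + 1 := by omega
    rw [e1]
    have hf : ((n + 1 - 1)! : ℝ) = (n : ℝ) * ((n - 1)! : ℝ) := by
      rw [e2, Nat.factorial_succ]
      push_cast
      have : ((n - 1 : ℕ) : ℝ) + 1 = n := by
        have : (n - 1 : ℕ) + 1 = n := by omega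
        exact_mod_cast this
      rw [this]
    rw [hf]
    have hr : ((n + 1 : ℕ) : ℝ) ^ (n - k) ≤ Real.exp 1 * (n : ℝ) ^ (n - k) := by
      have h1 : ((n + 1 : ℕ) : ℝ) = (n : ℝ) * (1 + (n : ℝ)⁻¹) := by
        push_cast; field_simp
      rw [h1, mul_pow, mul_comm]
      apply mul_le_mul_of_nonneg_right _ (by positivity)
      have h2 : 1 + (n : ℝ)⁻¹ ≤ Real.exp ((n : ℝ)⁻¹) := by
        have := Real.add_one_le_exp ((n : ℝ)⁻¹)
        linarith
      calc (1 + (n : ℝ)⁻¹) ^ (n - k) ≤ (Real.exp ((n : ℝ)⁻¹)) ^ (n - k) :=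
            pow_le_pow_left₀ (by positivity) h2 _
        _ = Real.exp ((n - k : ℕ) * (n : ℝ)⁻¹) := by rw [← Real.exp_nat_mul]
        _ ≤ Real.exp 1 := by
            apply Real.exp_le_exp.mpr
            rw [← div_eq_mul_inv, div_le_one hnpos]
            exact_mod_cast Nat.sub_le n k
    have hn2 : ((n + 1 : ℕ) : ℝ) ≤ 2 * n := by
      push_cast
      have : (1 : ℝ) ≤ n := by exact_mod_cast hn1
      linarith
    have hE : 0 < Real.exp 1 := Real.exp_pos 1
    calc ((k - 1)! : ℝ) * ((n + 1 : ℕ) : ℝ) ^ (n - k + 1)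
        = (((n + 1 : ℕ) : ℝ) ^ (n - k)) * (((n + 1 : ℕ) : ℝ) * ((k - 1)! : ℝ)) := by
          rw [pow_succ]; ring
      _ ≤ (Real.exp 1 * (n : ℝ) ^ (n - k)) * ((2 * n) * ((k - 1)! : ℝ)) := by
          apply mul_le_mul hr _ (by positivity) (by positivity)
          exact mul_le_mul_of_nonneg_right hn2 (by positivity)
      _ = (2 * n * Real.exp 1) * (((k - 1)! : ℝ) * (n : ℝ) ^ (n - k)) := by ring
      _ ≤ (2 * n * Real.exp 1) * (((n - 1)! : ℝ) * (2 * Real.exp 1) ^ (n - k)) :=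
          mul_le_mul_of_nonneg_left ih (by positivity)
      _ = (n : ℝ) * ((n - 1)! : ℝ) * (2 * Real.exp 1) ^ (n - k + 1) := by
          rw [pow_succ]; ring

theorem fact_bound2_aux (n : ℕ) (D : ℕ) (hD : D + 1 ≤ n) :
    ((n - 1 - D)! : ℝ) * (n : ℝ) ^ D * (1 - (D : ℝ) * (D + 1) / (2 * n)) ≤ ((n - 1)! : ℝ) := by
  induction D with
  | zero => simp
  | succ D ih =>
    have ih := ih (by omega)
    have hnpos : (0 : ℝ) < n := by
      have : 0 < n := by omega
      exact_mod_cast this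
    have e1 : n - 1 - D = (n - 1 - (D + 1)) + 1 := by omega
    have hf : ((n - 1 - D)! : ℝ) = ((n : ℝ) - (D + 1)) * ((n - 1 - (D + 1))! : ℝ) := by
      rw [e1, Nat.factorial_succ]
      push_cast
      have : ((n - 1 - (D + 1) : ℕ) : ℝ) + 1 = (n : ℝ) - (D + 1) := by
        have : (n - 1 - (D + 1) : ℕ) + 1 + (D + 1) = n := by omega
        have h2 : (((n - 1 - (D + 1) : ℕ) : ℝ) + 1 + (D + 1)) = n := by exact_mod_cast this
        linarith
      rw [this]
    rw [hf] at ih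
    refine le_trans ?_ ih
    have hfn : (0 : ℝ) ≤ ((n - 1 - (D + 1))! : ℝ) := by positivity
    set f := ((n - 1 - (D + 1))! : ℝ) with hfdef
    have hp : (0 : ℝ) ≤ (n : ℝ) ^ D := by positivity
    have key : (n : ℝ) * (1 - ((D + 1 : ℕ) : ℝ) * (((D + 1 : ℕ) : ℝ) + 1) / (2 * n)) ≤
        ((n : ℝ) - (D + 1)) * (1 - (D : ℝ) * (D + 1) / (2 * n)) := by
      have h1 : (n : ℝ) * (1 - ((D + 1 : ℕ) : ℝ) * (((D + 1 : ℕ) : ℝ) + 1) / (2 * n)) =
          n - ((D : ℝ) + 1) * (D + 2) / 2 := by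
        push_cast; field_simp; ring
      have h2 : ((n : ℝ) - (D + 1)) * (1 - (D : ℝ) * (D + 1) / (2 * n)) =
          n - ((D : ℝ) + 1) * (D + 2) / 2 + (D + 1) * ((D : ℝ) * (D + 1) / (2 * n)) := by
        field_simp; ring
      rw [h1, h2]
      have : 0 ≤ ((D : ℝ) + 1) * ((D : ℝ) * (D + 1) / (2 * n)) := by positivity
      linarith
    calc f * (n : ℝ) ^ (D + 1) * (1 - ((D + 1 : ℕ) : ℝ) * (((D + 1 : ℕ) : ℝ) + 1) / (2 * n))
        = (f * (n : ℝ) ^ D) * ((n : ℝ) *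
            (1 - ((D + 1 : ℕ) : ℝ) * (((D + 1 : ℕ) : ℝ) + 1) / (2 * n))) := by
          rw [pow_succ]; ring
      _ ≤ (f * (n : ℝ) ^ D) * (((n : ℝ) - (D + 1)) * (1 - (D : ℝ) * (D + 1) / (2 * n))) :=
          mul_le_mul_of_nonneg_left key (by positivity)
      _ = _ := by ring

/-- `(k-1)! n^(n-k) ≤ 4 (n-1)!` when `(n-k)^2 ≤ n`, `n ≥ 4` -/
theorem fact_bound2 (n k : ℕ) (hk : 1 ≤ k) (hkn : k ≤ n) (hn : 4 ≤ n)
    (hD : (n - k) * (n - k) ≤ n) :
    ((k - 1)! : ℝ) * (n : ℝ) ^ (n - k) ≤ 4 * ((n - 1)! : ℝ) := by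
  have h := fact_bound2_aux n (n - k) (by omega)
  have e : n - 1 - (n - k) = k - 1 := by omega
  rw [e] at h
  have hnpos : (0 : ℝ) < n := by
    have : 0 < n := by omega
    exact_mod_cast this
  set D : ℝ := ((n - k : ℕ) : ℝ) with hDdef
  have hDD : D * D ≤ n := by rw [hDdef]; exact_mod_cast hD
  have hD0 : 0 ≤ D := by rw [hDdef]; positivity
  have hD2 : D ≤ n / 2 := by
    have h4 : (4 : ℝ) ≤ n := by exact_mod_cast hn
    by_contra hc
    push Not at hc
    have : (n : ℝ) / 2 * (n / 2) < D * D := by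
      apply mul_self_lt_mul_self (by positivity) hc
    nlinarith
  have h3 : D * (D + 1) / (2 * n) ≤ 3 / 4 := by
    rw [div_le_iff₀ (by positivity)]
    nlinarith
  have h4 : (1 : ℝ) / 4 ≤ 1 - D * (D + 1) / (2 * n) := by linarith
  have h5 : (0 : ℝ) ≤ ((k - 1)! : ℝ) * (n : ℝ) ^ (n - k) := by positivity
  have h6 := mul_le_mul_of_nonneg_left h4 h5
  linarith

/-! ### The weights -/

def W0 (z : ℝ) (b : ℕ) : ℝ :=
  ((b - 1 : ℕ) : ℝ) ^ (b - 1) * z ^ (b - 1) * (1 + z) ^ (b.choose 2 - (b - 1))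

def W1 (z : ℝ) (n b : ℕ) : ℝ := if 3 * b ≤ 2 * n then W0 z b else 0

theorem W0_nonneg (z : ℝ) (hz : 0 ≤ z) (b : ℕ) : 0 ≤ W0 z b := by
  unfold W0; positivity

theorem W1_nonneg (z : ℝ) (hz : 0 ≤ z) (n b : ℕ) : 0 ≤ W1 z n b := by
  unfold W1; split_ifs
  · exact W0_nonneg z hz b
  · exact le_rfl

theorem W0_one (z : ℝ) : W0 z 1 = 1 := by simp [W0]

theorem W0_two (z : ℝ) : W0 z 2 = z := by simp [W0]

theorem unif (z c : ℝ) (n b : ℕ) (hz : 0 ≤ z) (hz1 : z ≤ 1) (hc : 0 ≤ c) (hb : 3 ≤ b)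
    (hbn : 3 * b ≤ 2 * n)
    (hA : c * Real.exp 1 * z * Real.exp (z * (2 * n / 3 + 3) / 2) ≤ 1 / 2) :
    c ^ (b - 1) * W0 z b / (b ! : ℝ) ≤
      (c * Real.exp 1 * z) ^ 2 * Real.exp 5 * (1 / 2) ^ (b - 3) := by
  have hfac : (0 : ℝ) < ((b - 1)! : ℝ) := by positivity
  have h1 : ((b - 1 : ℕ) : ℝ) ^ (b - 1) ≤ Real.exp 1 ^ (b - 1) * ((b - 1)! : ℝ) := by
    have h := Real.pow_div_factorial_le_exp ((b - 1 : ℕ) : ℝ) (by positivity) (b - 1)
    rw [div_le_iff₀ hfac] at h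
    have e : Real.exp ((b - 1 : ℕ) : ℝ) = Real.exp 1 ^ (b - 1) := by
      rw [← Real.exp_nat_mul, mul_one]
    rwa [e] at h
  have h2 : (1 + z) ^ (b.choose 2 - (b - 1)) ≤ Real.exp (z * (b : ℝ) ^ 2 / 2) := by
    have h3 : 1 + z ≤ Real.exp z := by
      have := Real.add_one_le_exp z
      linarith
    calc (1 + z) ^ (b.choose 2 - (b - 1)) ≤ (Real.exp z) ^ (b.choose 2 - (b - 1)) :=
          pow_le_pow_left₀ (by positivity) h3 _
      _ = Real.exp ((b.choose 2 - (b - 1) : ℕ) * z) := by rw [← Real.exp_nat_mul]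
      _ ≤ Real.exp (z * (b : ℝ) ^ 2 / 2) := by
          apply Real.exp_le_exp.mpr
          have h4 : ((b.choose 2 - (b - 1) : ℕ) : ℝ) ≤ (b : ℝ) ^ 2 / 2 := by
            calc ((b.choose 2 - (b - 1) : ℕ) : ℝ) ≤ (b.choose 2 : ℝ) := by
                  exact_mod_cast Nat.sub_le _ _
              _ ≤ (b : ℝ) ^ 2 / (2 ! : ℝ) := Nat.choose_le_pow_div 2 b
              _ = (b : ℝ) ^ 2 / 2 := by norm_num [Nat.factorial]
          nlinarith [mul_le_mul_of_nonneg_right h4 hz]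
  have h5 : ((b - 1)! : ℝ) ≤ (b ! : ℝ) := by
    exact_mod_cast Nat.factorial_le (Nat.sub_le b 1)
  have hbf : (0 : ℝ) < (b ! : ℝ) := by positivity
  have step1 : c ^ (b - 1) * W0 z b / (b ! : ℝ) ≤
      (c * Real.exp 1 * z) ^ (b - 1) * Real.exp (z * (b : ℝ) ^ 2 / 2) := by
    rw [div_le_iff₀ hbf]
    unfold W0
    calc c ^ (b - 1) * (((b - 1 : ℕ) : ℝ) ^ (b - 1) * z ^ (b - 1) *
            (1 + z) ^ (b.choose 2 - (b - 1)))
        ≤ c ^ (b - 1) * ((Real.exp 1 ^ (b - 1) * ((b - 1)! : ℝ)) * z ^ (b - 1) *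
            Real.exp (z * (b : ℝ) ^ 2 / 2)) := by gcongr
      _ ≤ c ^ (b - 1) * ((Real.exp 1 ^ (b - 1) * (b ! : ℝ)) * z ^ (b - 1) *
            Real.exp (z * (b : ℝ) ^ 2 / 2)) := by gcongr
      _ = (c * Real.exp 1 * z) ^ (b - 1) * Real.exp (z * (b : ℝ) ^ 2 / 2) * (b ! : ℝ) := by
          rw [mul_pow, mul_pow]; ring
  refine step1.trans ?_
  obtain ⟨j, rfl⟩ : ∃ j, b = 3 + j := ⟨b - 3, by omega⟩
  have e1 : 3 + j - 1 = 2 + j := by omega
  have e2 : 3 + j - 3 = j := by omega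
  rw [e1, e2, pow_add]
  have e3 : Real.exp (z * ((3 + j : ℕ) : ℝ) ^ 2 / 2) =
      Real.exp (9 / 2 * z) * (Real.exp (z * ((j : ℝ) + 6) / 2)) ^ j := by
    rw [← Real.exp_nat_mul, ← Real.exp_add]
    congr 1
    push_cast
    ring
  rw [e3]
  have hbn' : (3 : ℝ) * (3 + j) ≤ 2 * n := by exact_mod_cast hbn
  have e4 : Real.exp (z * ((j : ℝ) + 6) / 2) ≤ Real.exp (z * (2 * n / 3 + 3) / 2) := by
    apply Real.exp_le_exp.mpr
    have : (j : ℝ) + 6 ≤ 2 * n / 3 + 3 := by linarith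
    nlinarith [mul_le_mul_of_nonneg_left this hz]
  have e5 : Real.exp (9 / 2 * z) ≤ Real.exp 5 := by
    apply Real.exp_le_exp.mpr; linarith
  have hE1 : 0 ≤ c * Real.exp 1 * z := by positivity
  calc (c * Real.exp 1 * z) ^ 2 * (c * Real.exp 1 * z) ^ j *
        (Real.exp (9 / 2 * z) * (Real.exp (z * ((j : ℝ) + 6) / 2)) ^ j)
      = (c * Real.exp 1 * z) ^ 2 * Real.exp (9 / 2 * z) *
          (c * Real.exp 1 * z * Real.exp (z * ((j : ℝ) + 6) / 2)) ^ j := by
        rw [mul_pow (c * Real.exp 1 * z)]; ring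
    _ ≤ (c * Real.exp 1 * z) ^ 2 * Real.exp 5 * (1 / 2) ^ j := by
        apply mul_le_mul
        · gcongr
        · apply pow_le_pow_left₀ (by positivity)
          refine le_trans ?_ hA
          gcongr
        · positivity
        · positivity

theorem geom_sum (n : ℕ) : ∑ b ∈ Icc 3 n, ((1 : ℝ) / 2) ^ (b - 3) ≤ 2 := by
  have h : Icc 3 n = Ico 3 (n + 1) := by ext x; simp only [mem_Icc, mem_Ico]; omega
  rw [h, sum_Ico_eq_sum_range]
  calc ∑ k ∈ range (n + 1 - 3), ((1 : ℝ) / 2) ^ (3 + k - 3)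
      = ∑ k ∈ range (n + 1 - 3), ((1 : ℝ) / 2) ^ k := by
        apply sum_congr rfl
        intro k _
        congr 1
        omega
    _ ≤ 2 := sum_geometric_two_le _

/-- the constant in the bounds -/
def KA : ℝ := 2 * (2 * Real.exp 2 * Real.exp 1) ^ 2 * Real.exp 5

theorem KA_pos : 0 < KA := by unfold KA; positivity

theorem sum3_le (z c : ℝ) (n : ℕ) (hn : 1 ≤ n) (hz : 0 ≤ z) (hz1 : z ≤ 1) (hc : 0 ≤ c)
    (hc2 : c ≤ 2 * Real.exp 2)
    (hA : 2 * Real.exp 2 * Real.exp 1 * z * Real.exp (z * (2 * n / 3 + 3) / 2) ≤ 1 / 2) :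
    ∑ b ∈ Icc 3 n, (n.choose b : ℝ) * (W1 z n b * (c / n) ^ (b - 1)) ≤ n * (KA * z ^ 2) := by
  have hnpos : (0 : ℝ) < n := by exact_mod_cast hn
  have hA' : c * Real.exp 1 * z * Real.exp (z * (2 * n / 3 + 3) / 2) ≤ 1 / 2 :=
    le_trans (by gcongr) hA
  have hterm : ∀ b ∈ Icc 3 n, (n.choose b : ℝ) * (W1 z n b * (c / n) ^ (b - 1)) ≤
      n * ((c * Real.exp 1 * z) ^ 2 * Real.exp 5 * (1 / 2) ^ (b - 3)) := by
    intro b hb
    rw [mem_Icc] at hb
    by_cases hbn : 3 * b ≤ 2 * n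
    · have h1 : W1 z n b = W0 z b := by simp [W1, hbn]
      rw [h1]
      have h2 : (n.choose b : ℝ) ≤ (n : ℝ) ^ b / (b ! : ℝ) := Nat.choose_le_pow_div b n
      have hW := W0_nonneg z hz b
      calc (n.choose b : ℝ) * (W0 z b * (c / n) ^ (b - 1))
          ≤ ((n : ℝ) ^ b / (b ! : ℝ)) * (W0 z b * (c / n) ^ (b - 1)) := by gcongr
        _ = n * (c ^ (b - 1) * W0 z b / (b ! : ℝ)) := by
            obtain ⟨j, rfl⟩ : ∃ j, b = j + 1 := ⟨b - 1, by omega⟩
            rw [Nat.add_sub_cancel, div_pow, pow_succ]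
            have : (0 : ℝ) < ((j + 1)! : ℝ) := by positivity
            field_simp
        _ ≤ _ := by
            apply mul_le_mul_of_nonneg_left _ hnpos.le
            exact unif z c n b hz hz1 hc hb.1 hbn hA'
    · have h1 : W1 z n b = 0 := by simp [W1, hbn]
      rw [h1]
      simp only [zero_mul, mul_zero]
      positivity
  calc ∑ b ∈ Icc 3 n, (n.choose b : ℝ) * (W1 z n b * (c / n) ^ (b - 1))
      ≤ ∑ b ∈ Icc 3 n, n * ((c * Real.exp 1 * z) ^ 2 * Real.exp 5 * (1 / 2) ^ (b - 3)) :=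
        sum_le_sum hterm
    _ = n * ((c * Real.exp 1 * z) ^ 2 * Real.exp 5 * ∑ b ∈ Icc 3 n, ((1 : ℝ) / 2) ^ (b - 3)) := by
        rw [mul_sum, mul_sum]
    _ ≤ n * ((c * Real.exp 1 * z) ^ 2 * Real.exp 5 * 2) := by
        gcongr
        exact geom_sum n
    _ ≤ n * ((2 * Real.exp 2 * Real.exp 1 * z) ^ 2 * Real.exp 5 * 2) := by gcongr
    _ = n * (KA * z ^ 2) := by unfold KA; ring

theorem sum2_le (z c : ℝ) (n : ℕ) (hn : 3 ≤ n) (hz : 0 ≤ z) (hz1 : z ≤ 1) (hc : 0 ≤ c)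
    (hc2 : c ≤ 2 * Real.exp 2)
    (hA : 2 * Real.exp 2 * Real.exp 1 * z * Real.exp (z * (2 * n / 3 + 3) / 2) ≤ 1 / 2) :
    ∑ b ∈ Icc 2 n, (n.choose b : ℝ) * (W1 z n b * (c / n) ^ (b - 1)) ≤
      c * n * z / 2 + n * (KA * z ^ 2) := by
  have hnpos : (0 : ℝ) < n := by
    have : 0 < n := by omega
    exact_mod_cast this
  have h : Icc 2 n = insert 2 (Icc 3 n) := by
    ext x; simp only [mem_insert, mem_Icc]; omega
  rw [h, sum_insert (by simp)]
  apply add_le_add _ (sum3_le z c n (by omega) hz hz1 hc hc2 hA)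
  have h1 : W1 z n 2 = z := by
    unfold W1
    rw [if_pos (by omega), W0_two]
  rw [h1]
  have h2 : (n.choose 2 : ℝ) ≤ (n : ℝ) ^ 2 / 2 := by
    calc (n.choose 2 : ℝ) ≤ (n : ℝ) ^ 2 / (2 ! : ℝ) := Nat.choose_le_pow_div 2 n
      _ = (n : ℝ) ^ 2 / 2 := by norm_num [Nat.factorial]
  calc (n.choose 2 : ℝ) * (z * (c / n) ^ (2 - 1)) ≤ (n : ℝ) ^ 2 / 2 * (z * (c / n) ^ (2 - 1)) := by
        gcongr
    _ = c * n * z / 2 := by
        norm_num
        field_simp

/-! ### Partitions -/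

variable {V : Type} [Fintype V]

theorem mem_cls_nonempty (s : Setoid V) (B : Finset V) (hB : B ∈ cls s) : 1 ≤ B.card := by
  unfold cls at hB
  rw [mem_image] at hB
  obtain ⟨a, _, rfl⟩ := hB
  rw [Nat.one_le_iff_ne_zero, ← Nat.pos_iff_ne_zero, card_pos]
  exact ⟨a, by simp⟩

theorem D_eq (s : Setoid V) :
    ∑ B ∈ (cls s).filter (fun B => 2 ≤ B.card), (B.card - 1) + kk s = Fintype.card V := by
  have h1 : ∑ B ∈ (cls s).filter (fun B => 2 ≤ B.card), (B.card - 1) =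
      ∑ B ∈ cls s, (B.card - 1) := by
    apply sum_subset (filter_subset _ _)
    intro B hB hB2
    rw [mem_filter] at hB2
    have : ¬ 2 ≤ B.card := fun h => hB2 ⟨hB, h⟩
    omega
  rw [h1, kk_eq, card_eq_sum_ones, ← sum_add_distrib, ← sum_cls s]
  apply sum_congr rfl
  intro B hB
  have := mem_cls_nonempty s B hB
  omega

theorem prod_pow (s : Setoid V) (y : ℝ) :
    ∏ B ∈ (cls s).filter (fun B => 2 ≤ B.card), y ^ (B.card - 1) =
      y ^ (Fintype.card V - kk s) := by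
  rw [prod_pow_eq_pow_sum]
  congr 1
  have := D_eq s
  omega

theorem prod_W (s : Setoid V) (hs : small s) (z : ℝ) :
    ∏ B ∈ cls s, W0 z B.card =
      ∏ B ∈ (cls s).filter (fun B => 2 ≤ B.card), W1 z (Fintype.card V) B.card := by
  have h1 : ∏ B ∈ (cls s).filter (fun B => 2 ≤ B.card), W1 z (Fintype.card V) B.card =
      ∏ B ∈ (cls s).filter (fun B => 2 ≤ B.card), W0 z B.card := by
    apply prod_congr rfl
    intro B hB
    rw [mem_filter] at hB
    unfold W1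
    rw [if_pos (hs B hB.1)]
  rw [h1]
  symm
  apply prod_subset (filter_subset _ _)
  intro B hB hB2
  rw [mem_filter] at hB2
  have h2 : ¬ 2 ≤ B.card := fun h => hB2 ⟨hB, h⟩
  have h3 := mem_cls_nonempty s B hB
  have h4 : B.card = 1 := by omega
  rw [h4, W0_one]

theorem kk_pos [Nonempty V] (s : Setoid V) : 1 ≤ kk s := by
  unfold kk
  have : Nonempty (Quotient s) := ⟨Quotient.mk s (Classical.arbitrary V)⟩
  exact Nat.card_pos

/-- bound for a single partition -/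
theorem term_bound [Nonempty V] (s : Setoid V) (hs : small s) (z : ℝ) (hz : 0 ≤ z)
    (hn : 4 ≤ Fintype.card V) :
    ((kk s - 1)! : ℝ) * ∏ B ∈ cls s, W0 z B.card ≤
      4 * ((Fintype.card V - 1)! : ℝ) *
        ∏ B ∈ (cls s).filter (fun B => 2 ≤ B.card),
          (W1 z (Fintype.card V) B.card * (1 / (Fintype.card V : ℝ)) ^ (B.card - 1)) +
      ((Fintype.card V - 1)! : ℝ) * Real.exp (-Real.sqrt (Fintype.card V)) *
        ∏ B ∈ (cls s).filter (fun B => 2 ≤ B.card),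
          (W1 z (Fintype.card V) B.card *
            (2 * Real.exp 2 / (Fintype.card V : ℝ)) ^ (B.card - 1)) := by
  rw [prod_W s hs z, prod_mul_distrib, prod_mul_distrib, prod_pow, prod_pow]
  set n := Fintype.card V with hndef
  set P := ∏ B ∈ (cls s).filter (fun B => 2 ≤ B.card), W1 z n B.card with hP
  have hP0 : 0 ≤ P := prod_nonneg (fun B _ => W1_nonneg z hz _ _)
  have hk1 : 1 ≤ kk s := kk_pos s
  have hkn : kk s ≤ n := by have := D_eq s; omega
  have hnpos : (0 : ℝ) < n := by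
    have : 0 < n := by omega
    exact_mod_cast this
  have key : ((kk s - 1)! : ℝ) ≤ 4 * ((n - 1)! : ℝ) * (1 / (n : ℝ)) ^ (n - kk s) +
      ((n - 1)! : ℝ) * Real.exp (-Real.sqrt n) * (2 * Real.exp 2 / (n : ℝ)) ^ (n - kk s) := by
    by_cases hD : (n - kk s) * (n - kk s) ≤ n
    · have h := fact_bound2 n (kk s) hk1 hkn hn hD
      have h2 : ((kk s - 1)! : ℝ) ≤ 4 * ((n - 1)! : ℝ) * (1 / (n : ℝ)) ^ (n - kk s) := by
        rw [one_div, inv_pow, ← div_eq_mul_inv, le_div_iff₀ (by positivity)]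
        exact h
      have h3 : 0 ≤ ((n - 1)! : ℝ) * Real.exp (-Real.sqrt n) *
        (2 * Real.exp 2 / (n : ℝ)) ^ (n - kk s) := by positivity
      linarith
    · push Not at hD
      have h := fact_bound1 (kk s) hk1 n hkn
      have h2 : ((kk s - 1)! : ℝ) ≤
          ((n - 1)! : ℝ) * Real.exp (-Real.sqrt n) *
            (2 * Real.exp 2 / (n : ℝ)) ^ (n - kk s) := by
        rw [div_pow, ← mul_div_assoc, le_div_iff₀ (by positivity)]
        refine h.trans ?_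
        rw [mul_assoc]
        apply mul_le_mul_of_nonneg_left _ (by positivity)
        have h5 : Real.exp 2 = Real.exp 1 * Real.exp 1 := by
          rw [← Real.exp_add]; norm_num
        rw [h5, ← mul_assoc, mul_pow (2 * Real.exp 1) (Real.exp 1), ← mul_assoc,
          mul_comm (Real.exp (-Real.sqrt n)), mul_assoc]
        apply le_mul_of_one_le_right (by positivity)
        rw [← Real.exp_nat_mul, ← Real.exp_add]
        apply Real.one_le_exp
        rw [mul_one]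
        have h6 : Real.sqrt n ≤ ((n - kk s : ℕ) : ℝ) := by
          rw [Real.sqrt_le_left (by positivity)]
          rw [sq]
          exact_mod_cast hD.le
        linarith
      have h3 : 0 ≤ 4 * ((n - 1)! : ℝ) * (1 / (n : ℝ)) ^ (n - kk s) := by positivity
      linarith
  calc ((kk s - 1)! : ℝ) * P
      ≤ (4 * ((n - 1)! : ℝ) * (1 / (n : ℝ)) ^ (n - kk s) +
      ((n - 1)! : ℝ) * Real.exp (-Real.sqrt n) * (2 * Real.exp 2 / (n : ℝ)) ^ (n - kk s)) * P :=
        mul_le_mul_of_nonneg_right key hP0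
    _ = _ := by ring

/-- the sum over the partitions -/
theorem part_bound [Nonempty V] (z : ℝ) (hz : 0 ≤ z) (hz1 : z ≤ 1) (hn : 4 ≤ Fintype.card V)
    (hA : 2 * Real.exp 2 * Real.exp 1 * z *
      Real.exp (z * (2 * (Fintype.card V : ℝ) / 3 + 3) / 2) ≤ 1 / 2) :
    ∑ s ∈ univ.filter (fun s : Setoid V => big3 s ∧ small s),
        ((kk s - 1)! : ℝ) * ∏ B ∈ cls s, W0 z B.card ≤
      4 * ((Fintype.card V - 1)! : ℝ) * ((Fintype.card V : ℝ) * (KA * z ^ 2)) *
        Real.exp ((Fintype.card V : ℝ) * z / 2 + (Fintype.card V : ℝ) * (KA * z ^ 2)) +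
      ((Fintype.card V - 1)! : ℝ) * Real.exp (-Real.sqrt (Fintype.card V)) *
        Real.exp (Real.exp 2 * (Fintype.card V : ℝ) * z +
          (Fintype.card V : ℝ) * (KA * z ^ 2)) := by
  set n := Fintype.card V with hndef
  have hnpos : (0 : ℝ) < n := by
    have : 0 < n := by omega
    exact_mod_cast this
  have hone : (1 : ℝ) ≤ 2 * Real.exp 2 := by
    have : (1 : ℝ) ≤ Real.exp 2 := Real.one_le_exp (by norm_num)
    linarith
  have hWa : ∀ b, 0 ≤ W1 z n b * (1 / (n : ℝ)) ^ (b - 1) := fun b =>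
    mul_nonneg (W1_nonneg z hz n b) (by positivity)
  have hWb : ∀ b, 0 ≤ W1 z n b * (2 * Real.exp 2 / (n : ℝ)) ^ (b - 1) := fun b =>
    mul_nonneg (W1_nonneg z hz n b) (by positivity)
  have hS1 : ∑ s ∈ univ.filter (fun s : Setoid V => big3 s ∧ small s),
      ∏ B ∈ (cls s).filter (fun B => 2 ≤ B.card),
          (W1 z n B.card * (1 / (n : ℝ)) ^ (B.card - 1)) ≤
      ((n : ℝ) * (KA * z ^ 2)) * Real.exp ((n : ℝ) * z / 2 + (n : ℝ) * (KA * z ^ 2)) := by
    calc ∑ s ∈ univ.filter (fun s : Setoid V => big3 s ∧ small s),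
      ∏ B ∈ (cls s).filter (fun B => 2 ≤ B.card),
          (W1 z n B.card * (1 / (n : ℝ)) ^ (B.card - 1))
        ≤ ∑ s ∈ univ.filter (fun s : Setoid V => big3 s),
      ∏ B ∈ (cls s).filter (fun B => 2 ≤ B.card),
          (W1 z n B.card * (1 / (n : ℝ)) ^ (B.card - 1)) := by
          apply sum_le_sum_of_subset_of_nonneg
          · intro s hs
            rw [mem_filter] at hs ⊢
            exact ⟨hs.1, hs.2.1⟩
          · intro s _ _
            exact prod_nonneg (fun B _ => hWa _)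
      _ ≤ (∑ b ∈ Icc 3 n, (n.choose b : ℝ) * (W1 z n b * (1 / (n : ℝ)) ^ (b - 1))) *
          Real.exp (∑ b ∈ Icc 2 n, (n.choose b : ℝ) * (W1 z n b * (1 / (n : ℝ)) ^ (b - 1))) :=
          prod_lemma3 (V := V) (fun b => W1 z n b * (1 / (n : ℝ)) ^ (b - 1)) hWa
      _ ≤ _ := by
          have h3 := sum3_le z 1 n (by omega) hz hz1 zero_le_one hone hA
          have h2 := sum2_le z 1 n (by omega) hz hz1 zero_le_one hone hA
          apply mul_le_mul h3 _ (Real.exp_pos _).le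
            (mul_nonneg hnpos.le (mul_nonneg KA_pos.le (sq_nonneg z)))
          apply Real.exp_le_exp.mpr
          rw [one_mul] at h2
          exact h2
  have hS2 : ∑ s ∈ univ.filter (fun s : Setoid V => big3 s ∧ small s),
      ∏ B ∈ (cls s).filter (fun B => 2 ≤ B.card),
          (W1 z n B.card * (2 * Real.exp 2 / (n : ℝ)) ^ (B.card - 1)) ≤
      Real.exp (Real.exp 2 * (n : ℝ) * z + (n : ℝ) * (KA * z ^ 2)) := by
    calc ∑ s ∈ univ.filter (fun s : Setoid V => big3 s ∧ small s),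
      ∏ B ∈ (cls s).filter (fun B => 2 ≤ B.card),
          (W1 z n B.card * (2 * Real.exp 2 / (n : ℝ)) ^ (B.card - 1))
        ≤ ∑ s : Setoid V,
      ∏ B ∈ (cls s).filter (fun B => 2 ≤ B.card),
          (W1 z n B.card * (2 * Real.exp 2 / (n : ℝ)) ^ (B.card - 1)) := by
          apply sum_le_sum_of_subset_of_nonneg (subset_univ _)
          intro s _ _
          exact prod_nonneg (fun B _ => hWb _)
      _ ≤ Real.exp (∑ b ∈ Icc 2 n, (n.choose b : ℝ) *
            (W1 z n b * (2 * Real.exp 2 / (n : ℝ)) ^ (b - 1))) :=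
          prod_lemma (V := V) (fun b => W1 z n b * (2 * Real.exp 2 / (n : ℝ)) ^ (b - 1)) hWb
      _ ≤ _ := by
          have h2 := sum2_le z (2 * Real.exp 2) n (by omega) hz hz1 (by positivity) le_rfl hA
          apply Real.exp_le_exp.mpr
          refine h2.trans (le_of_eq ?_)
          ring
  calc ∑ s ∈ univ.filter (fun s : Setoid V => big3 s ∧ small s),
        ((kk s - 1)! : ℝ) * ∏ B ∈ cls s, W0 z B.card
      ≤ ∑ s ∈ univ.filter (fun s : Setoid V => big3 s ∧ small s),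
        (4 * ((n - 1)! : ℝ) * ∏ B ∈ (cls s).filter (fun B => 2 ≤ B.card),
          (W1 z n B.card * (1 / (n : ℝ)) ^ (B.card - 1)) +
        ((n - 1)! : ℝ) * Real.exp (-Real.sqrt n) *
          ∏ B ∈ (cls s).filter (fun B => 2 ≤ B.card),
            (W1 z n B.card * (2 * Real.exp 2 / (n : ℝ)) ^ (B.card - 1))) := by
        apply sum_le_sum
        intro s hs
        rw [mem_filter] at hs
        exact term_bound s hs.2.2 z hz hn
    _ = 4 * ((n - 1)! : ℝ) * ∑ s ∈ univ.filter (fun s : Setoid V => big3 s ∧ small s),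
          ∏ B ∈ (cls s).filter (fun B => 2 ≤ B.card),
          (W1 z n B.card * (1 / (n : ℝ)) ^ (B.card - 1)) +
        ((n - 1)! : ℝ) * Real.exp (-Real.sqrt n) *
          ∑ s ∈ univ.filter (fun s : Setoid V => big3 s ∧ small s),
          ∏ B ∈ (cls s).filter (fun B => 2 ≤ B.card),
            (W1 z n B.card * (2 * Real.exp 2 / (n : ℝ)) ^ (B.card - 1)) := by
        rw [sum_add_distrib, ← mul_sum, ← mul_sum]
    _ ≤ 4 * ((n - 1)! : ℝ) * (((n : ℝ) * (KA * z ^ 2)) *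
          Real.exp ((n : ℝ) * z / 2 + (n : ℝ) * (KA * z ^ 2))) +
        ((n - 1)! : ℝ) * Real.exp (-Real.sqrt n) *
          Real.exp (Real.exp 2 * (n : ℝ) * z + (n : ℝ) * (KA * z ^ 2)) := by
        apply add_le_add
        · exact mul_le_mul_of_nonneg_left hS1 (by positivity)
        · exact mul_le_mul_of_nonneg_left hS2 (by positivity)
    _ = _ := by ring

/-- grouping the edge sets by their components -/
theorem group (z : ℝ) (hz : 0 ≤ z) :
    ∑ F ∈ (EE V).powerset.filter (fun F => big3 (comp F) ∧ small (comp F)),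
        z ^ F.card * ((kk (comp F) - 1)! : ℝ) ≤
      ∑ s ∈ univ.filter (fun s : Setoid V => big3 s ∧ small s),
        ((kk s - 1)! : ℝ) * ∏ B ∈ cls s, W0 z B.card := by
  have h1 : ∑ F ∈ (EE V).powerset.filter (fun F => big3 (comp F) ∧ small (comp F)),
        z ^ F.card * ((kk (comp F) - 1)! : ℝ) =
      ∑ s ∈ univ.filter (fun s : Setoid V => big3 s ∧ small s),
        ∑ F ∈ ((EE V).powerset.filter (fun F => big3 (comp F) ∧ small (comp F))).filter
          (fun F => comp F = s), z ^ F.card * ((kk (comp F) - 1)! : ℝ) := by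
    symm
    apply sum_fiberwise_of_maps_to
    intro F hF
    rw [mem_filter] at hF ⊢
    exact ⟨mem_univ _, hF.2⟩
  rw [h1]
  apply sum_le_sum
  intro s hs
  rw [mem_filter] at hs
  have h2 : ∑ F ∈ ((EE V).powerset.filter (fun F => big3 (comp F) ∧ small (comp F))).filter
          (fun F => comp F = s), z ^ F.card * ((kk (comp F) - 1)! : ℝ) =
      ((kk s - 1)! : ℝ) * ∑ F ∈ (EE V).powerset.filter (fun F => comp F = s), z ^ F.card := by
    rw [mul_sum]
    apply sum_congr_of_eq_on_inter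
    · intro F hF hF2
      exfalso
      apply hF2
      rw [mem_filter, mem_filter] at hF
      rw [mem_filter]
      exact ⟨hF.1.1, hF.2⟩
    · intro F hF hF2
      exfalso
      apply hF2
      rw [mem_filter] at hF
      rw [mem_filter, mem_filter]
      refine ⟨⟨hF.1, ?_⟩, hF.2⟩
      rw [hF.2]
      exact hs.2
    · intro F hF _
      rw [mem_filter] at hF
      rw [hF.2]
      ring
  rw [h2]
  apply mul_le_mul_of_nonneg_left _ (by positivity)
  exact comp_sum_le s z hz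

/-! ### Asymptotics -/

theorem ev1 : ∀ᶠ n : ℕ in Filter.atTop, Real.log n ≤ n ∧ 0 < Real.log n ∧ 1 ≤ Real.log n := by
  filter_upwards [Filter.eventually_ge_atTop 3] with n hn
  have h3 : (3 : ℝ) ≤ n := by exact_mod_cast hn
  have h1 : 1 ≤ Real.log n := by
    rw [Real.le_log_iff_exp_le (by linarith)]
    have := Real.exp_one_lt_d9
    linarith
  refine ⟨?_, by linarith, h1⟩
  have := Real.log_le_sub_one_of_pos (show (0 : ℝ) < n by linarith)
  linarith

theorem log_le_rpow (ε a : ℝ) (hε : 0 < ε) (ha : 0 < a) :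
    ∀ᶠ n : ℕ in Filter.atTop, Real.log n ≤ ε * (n : ℝ) ^ a := by
  have h := (isLittleO_log_rpow_atTop ha).bound hε
  have h2 := tendsto_natCast_atTop_atTop (R := ℝ) |>.eventually h
  filter_upwards [h2, Filter.eventually_ge_atTop 1] with n hn hn1
  have h3 : (1 : ℝ) ≤ n := by exact_mod_cast hn1
  rw [Real.norm_eq_abs, Real.norm_eq_abs, abs_of_nonneg (Real.log_nonneg h3),
    abs_of_nonneg (by positivity)] at hn
  exact hn

theorem evA : ∀ᶠ n : ℕ in Filter.atTop, ∀ z : ℝ, 0 ≤ z → z ≤ 5 / 2 * Real.log n / n →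
    2 * Real.exp 2 * Real.exp 1 * z * Real.exp (z * (2 * (n : ℝ) / 3 + 3) / 2) ≤ 1 / 2 := by
  have hK : 0 < 1 / (10 * Real.exp 2 * Real.exp 1 * Real.exp 4) := by positivity
  filter_upwards [ev1, log_le_rpow _ (1 / 6) hK (by norm_num), Filter.eventually_ge_atTop 1]
    with n ⟨h1, h2, _⟩ h3 hn1 z hz0 hz
  have hnpos : (0 : ℝ) < n := by exact_mod_cast hn1
  set L := Real.log n with hL
  have hLn : L / n ≤ 1 := by rw [div_le_one hnpos]; exact h1
  have hz' : z ≤ 5 / 2 * (L / n) := by rw [← mul_div_assoc]; exact hz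
  have hexp : Real.exp (z * (2 * (n : ℝ) / 3 + 3) / 2) ≤ Real.exp 4 * (n : ℝ) ^ ((5 : ℝ) / 6) := by
    rw [Real.rpow_def_of_pos hnpos, ← Real.exp_add]
    apply Real.exp_le_exp.mpr
    calc z * (2 * (n : ℝ) / 3 + 3) / 2 ≤ 5 / 2 * (L / n) * (2 * (n : ℝ) / 3 + 3) / 2 := by
          gcongr
      _ = L * (5 / 6) + 15 / 4 * (L / n) := by
          field_simp
          ring
      _ ≤ 4 + L * (5 / 6) := by linarith
  have hn6 : (n : ℝ) ^ ((5 : ℝ) / 6) * (n : ℝ) ^ ((1 : ℝ) / 6) = n := by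
    rw [← Real.rpow_add hnpos]; norm_num
  calc 2 * Real.exp 2 * Real.exp 1 * z * Real.exp (z * (2 * (n : ℝ) / 3 + 3) / 2)
      ≤ 2 * Real.exp 2 * Real.exp 1 * (5 / 2 * (L / n)) *
          (Real.exp 4 * (n : ℝ) ^ ((5 : ℝ) / 6)) := by gcongr
    _ ≤ 2 * Real.exp 2 * Real.exp 1 * (5 / 2 *
          ((1 / (10 * Real.exp 2 * Real.exp 1 * Real.exp 4) * (n : ℝ) ^ ((1 : ℝ) / 6)) / n)) *
          (Real.exp 4 * (n : ℝ) ^ ((5 : ℝ) / 6)) := by gcongr
    _ = ((n : ℝ) ^ ((5 : ℝ) / 6) * (n : ℝ) ^ ((1 : ℝ) / 6)) / n * (1 / 2) := by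
        field_simp
        ring
    _ = 1 / 2 := by rw [hn6, div_self hnpos.ne', one_mul]

theorem evB : ∀ᶠ n : ℕ in Filter.atTop, ∀ z : ℝ, 0 ≤ z → z ≤ 5 / 2 * Real.log n / n →
    (n : ℝ) * z ^ 2 ≤ 1 := by
  filter_upwards [log_le_rpow (2 / 5) (1 / 2) (by norm_num) (by norm_num),
    Filter.eventually_ge_atTop 1] with n h3 hn1 z hz0 hz
  have hnpos : (0 : ℝ) < n := by exact_mod_cast hn1
  rw [← Real.sqrt_eq_rpow] at h3
  have hs : Real.sqrt n * Real.sqrt n = n := Real.mul_self_sqrt hnpos.le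
  have h4 : z ≤ Real.sqrt n / n := by
    refine hz.trans ?_
    apply div_le_div_of_nonneg_right _ hnpos.le
    linarith
  calc (n : ℝ) * z ^ 2 ≤ n * (Real.sqrt n / n) ^ 2 := by gcongr
    _ = (Real.sqrt n * Real.sqrt n) / n := by field_simp
    _ = 1 := by rw [hs, div_self hnpos.ne']

theorem evC : ∀ᶠ n : ℕ in Filter.atTop, ∀ z : ℝ, Real.log n / (2 * n) ≤ z →
    z ≤ 5 / 2 * Real.log n / n →
    Real.exp (-Real.sqrt n) *
      Real.exp (Real.exp 2 * (n : ℝ) * z + (n : ℝ) * (KA * z ^ 2)) ≤ n * z ^ 2 := by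
  have hK : 0 < 1 / (2 * (5 / 2 * Real.exp 2 + 1)) := by positivity
  have hsq : ∀ᶠ n : ℕ in Filter.atTop, 2 * (KA + Real.log 4) ≤ Real.sqrt n := by
    have h := Real.tendsto_sqrt_atTop.comp (tendsto_natCast_atTop_atTop (R := ℝ))
    exact h.eventually_ge_atTop _
  filter_upwards [ev1, log_le_rpow _ (1 / 2) hK (by norm_num), hsq, evB,
    Filter.eventually_ge_atTop 1] with n ⟨h1, h2, h2'⟩ h3 h4 h5 hn1 z hz0 hz
  have hnpos : (0 : ℝ) < n := by exact_mod_cast hn1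
  rw [← Real.sqrt_eq_rpow] at h3
  set L := Real.log n with hL
  have hz00 : 0 ≤ z := le_trans (by positivity) hz0
  have h6 := h5 z hz00 hz
  have h7 : (n : ℝ) * z ≤ 5 / 2 * L := by
    calc (n : ℝ) * z ≤ n * (5 / 2 * L / n) := by gcongr
      _ = 5 / 2 * L := by field_simp
  have h8 : Real.exp (-L) * (1 / 4) ≤ n * z ^ 2 := by
    have e1 : Real.exp (-L) = 1 / n := by
      rw [Real.exp_neg, Real.exp_log hnpos, one_div]
    rw [e1]
    have h9 : 1 / (2 * n) ≤ z := by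
      refine le_trans ?_ hz0
      apply div_le_div_of_nonneg_right h2' (by positivity)
    calc 1 / (n : ℝ) * (1 / 4) = n * (1 / (2 * n)) ^ 2 := by field_simp; norm_num
      _ ≤ n * z ^ 2 := by gcongr
  refine le_trans ?_ h8
  have e4 : (1 : ℝ) / 4 = Real.exp (-Real.log 4) := by
    rw [Real.exp_neg, Real.exp_log (by norm_num), one_div]
  rw [e4, ← Real.exp_add, ← Real.exp_add]
  apply Real.exp_le_exp.mpr
  have h10 : (5 / 2 * Real.exp 2 + 1) * L ≤ Real.sqrt n / 2 := by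
    calc (5 / 2 * Real.exp 2 + 1) * L ≤
        (5 / 2 * Real.exp 2 + 1) * (1 / (2 * (5 / 2 * Real.exp 2 + 1)) * Real.sqrt n) := by
          gcongr
      _ = Real.sqrt n / 2 := by
          have : (5 / 2 * Real.exp 2 + 1 : ℝ) ≠ 0 := by positivity
          field_simp
  have h11 : Real.exp 2 * (n : ℝ) * z ≤ 5 / 2 * Real.exp 2 * L := by
    calc Real.exp 2 * (n : ℝ) * z = Real.exp 2 * ((n : ℝ) * z) := by ring
      _ ≤ Real.exp 2 * (5 / 2 * L) := by gcongr
      _ = _ := by ring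
  have h12 : (n : ℝ) * (KA * z ^ 2) ≤ KA := by
    calc (n : ℝ) * (KA * z ^ 2) = KA * ((n : ℝ) * z ^ 2) := by ring
      _ ≤ KA * 1 := mul_le_mul_of_nonneg_left h6 KA_pos.le
      _ = KA := mul_one _
  nlinarith

end S1

theorem bad_small_sum : ∃ C : ℝ, 0 < C ∧ ∃ n0 : ℕ, ∀ (V : Type) [Fintype V],
    n0 ≤ Fintype.card V → ∀ z : ℝ,
    Real.log (Fintype.card V) / (2 * Fintype.card V) ≤ z →
    z ≤ 5 / 2 * Real.log (Fintype.card V) / Fintype.card V →
    ∑ F ∈ (EE V).powerset.filter (fun F => big3 (comp F) ∧ small (comp F)),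
        z ^ F.card * ((kk (comp F) - 1)! : ℝ)
      ≤ C * ((Fintype.card V : ℝ) * z ^ 2 * Real.exp ((Fintype.card V : ℝ) * z / 2)) *
        ((Fintype.card V - 1)! : ℝ) := by
  obtain ⟨n0, hn0⟩ := Filter.eventually_atTop.mp
    (S1.ev1.and (S1.evA.and (S1.evB.and (S1.evC.and (Filter.eventually_ge_atTop 4)))))
  refine ⟨4 * S1.KA * Real.exp S1.KA + 1, by have := S1.KA_pos; positivity, n0, ?_⟩
  intro V _ hV z hz0 hz
  obtain ⟨⟨h1, h2, h2'⟩, hA, hB, hC, h4⟩ := hn0 _ hV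
  set n := Fintype.card V with hn
  have hnpos : (0 : ℝ) < n := by
    have : 0 < n := by omega
    exact_mod_cast this
  have hVne : Nonempty V := by
    rw [← Fintype.card_pos_iff]; omega
  have hz00 : 0 ≤ z := le_trans (by positivity) hz0
  have hA := hA z hz00 hz
  have hB := hB z hz00 hz
  have hC := hC z hz0 hz
  have hKA := S1.KA_pos
  have hz1 : z ≤ 1 := by
    have h44 : (4 : ℝ) ≤ n := by exact_mod_cast h4
    by_contra hc
    push Not at hc
    nlinarith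
  refine (S1.group z hz00).trans ?_
  refine (S1.part_bound z hz00 hz1 h4 hA).trans ?_
  have hf : (0 : ℝ) ≤ ((n - 1)! : ℝ) := by positivity
  have hE : 1 ≤ Real.exp ((n : ℝ) * z / 2) := Real.one_le_exp (by positivity)
  have hnz : 0 ≤ (n : ℝ) * z ^ 2 := by positivity
  have b1 : 4 * ((n - 1)! : ℝ) * ((n : ℝ) * (S1.KA * z ^ 2)) *
        Real.exp ((n : ℝ) * z / 2 + (n : ℝ) * (S1.KA * z ^ 2)) ≤
      4 * S1.KA * Real.exp S1.KA * ((n : ℝ) * z ^ 2 * Real.exp ((n : ℝ) * z / 2)) *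
        ((n - 1)! : ℝ) := by
    have h5 : (n : ℝ) * (S1.KA * z ^ 2) ≤ S1.KA := by nlinarith
    rw [Real.exp_add]
    calc 4 * ((n - 1)! : ℝ) * ((n : ℝ) * (S1.KA * z ^ 2)) *
        (Real.exp ((n : ℝ) * z / 2) * Real.exp ((n : ℝ) * (S1.KA * z ^ 2)))
        ≤ 4 * ((n - 1)! : ℝ) * ((n : ℝ) * (S1.KA * z ^ 2)) *
        (Real.exp ((n : ℝ) * z / 2) * Real.exp S1.KA) := by gcongr
      _ = _ := by ring
  have b2 : ((n - 1)! : ℝ) * Real.exp (-Real.sqrt n) *
        Real.exp (Real.exp 2 * (n : ℝ) * z + (n : ℝ) * (S1.KA * z ^ 2)) ≤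
      ((n : ℝ) * z ^ 2 * Real.exp ((n : ℝ) * z / 2)) * ((n - 1)! : ℝ) := by
    calc ((n - 1)! : ℝ) * Real.exp (-Real.sqrt n) *
        Real.exp (Real.exp 2 * (n : ℝ) * z + (n : ℝ) * (S1.KA * z ^ 2))
        = ((n - 1)! : ℝ) * (Real.exp (-Real.sqrt n) *
        Real.exp (Real.exp 2 * (n : ℝ) * z + (n : ℝ) * (S1.KA * z ^ 2))) := by ring
      _ ≤ ((n - 1)! : ℝ) * (n * z ^ 2) := by gcongr
      _ ≤ ((n - 1)! : ℝ) * (n * z ^ 2 * Real.exp ((n : ℝ) * z / 2)) := by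
          apply mul_le_mul_of_nonneg_left _ hf
          exact le_mul_of_one_le_right hnz hE
      _ = _ := by ring
  calc _ ≤ 4 * S1.KA * Real.exp S1.KA * ((n : ℝ) * z ^ 2 * Real.exp ((n : ℝ) * z / 2)) *
        ((n - 1)! : ℝ) + ((n : ℝ) * z ^ 2 * Real.exp ((n : ℝ) * z / 2)) * ((n - 1)! : ℝ) :=
        add_le_add b1 b2
    _ = _ := by ring

end

end Pool.Agent.R88.RR
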