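import Pool.Agent.R88.RR.Asm3
import Pool.Agent.R88.RR.Num
import Pool.Agent.R88.RR.S1
import Pool.Agent.R88.RR.NS
import Pool.Agent.R88.RR.PZ
import Pool.Agent.R88.RR.GS

set_option autoImplicit false

namespace Pool.Agent.R88.RR

open Finset Filter Topology
open scoped Classical Nat

noncomputable section

theorem card_bound {V : Type} [Fintype V] (f : Finset (Sym2 V) → ℝ)
    (hf : ∀ A, A ⊆ EE V → 0 ≤ f A) (t d : ℝ) (ht : 0 < t) (h : av f ≤ d * t) :
    (((EE V).powerset.filter (fun A => t < f A)).card : ℝ) ≤ d * 2 ^ (EE V).card := by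
  refine (markov f hf t ht).trans ?_
  rw [mul_comm]
  apply mul_le_mul_of_nonneg_right _ (by positivity)
  rw [div_le_iff₀ ht]
  exact h

theorem count_main : ∃ p : ℝ, 0 < p ∧ ∃ n0 : ℕ, ∀ (V : Type) [Fintype V],
    n0 ≤ Fintype.card V →
    p * 2 ^ (EE V).card ≤
      (((EE V).powerset.filter (fun A => comp A = ⊤ ∧ ∀ x : ℝ, 0 ≤ x → 0 < cx A x)).card : ℝ) := by
  obtain ⟨th, hth, p, hp, n1, hPZ⟩ := pz_main
  obtain ⟨C, hC, n2, hS1⟩ := bad_small_sum
  obtain ⟨n3, hGS⟩ := giant_sum (p / 256) (by positivity)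
  obtain ⟨n4, hNS⟩ := small_sum (p / 256) (by positivity)
  obtain ⟨n5, hTS⟩ := two_sum (p / 256) (by positivity)
  have hL : Tendsto (fun n : ℕ => Real.log (n : ℝ)) atTop atTop :=
    Real.tendsto_log_atTop.comp tendsto_natCast_atTop_atTop
  have hp16 : 0 < p / 16 := by positivity
  have E1 := hL.eventually (Num.ev_small (C / th) 2 (3 / 4) (by norm_num) (p / 16) hp16)
  have E2 := hL.eventually (eventually_ge_atTop (16 * C / (th * (p / 16))))
  have E3 := hL.eventually (Num.ev_small (50 * C) 2 (7 / 4) (by norm_num) (p / 16) hp16)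
  have E4 := hL.eventually Num.ev4
  have E5 := hL.eventually (Num.ev5 (-Real.log th))
  have E6 := hL.eventually (Num.ev_small 1 0 1 (by norm_num) (p / 16) hp16)
  obtain ⟨n6, hE⟩ := eventually_atTop.1 ((((((E1.and E2).and E3).and E4).and E5).and E6).and
    (hL.eventually (eventually_ge_atTop 1)))
  refine ⟨p / 2, by positivity, max n1 (max n2 (max n3 (max n4 (max n5 (max n6 5))))), ?_⟩
  intro V _ hV
  simp only [max_le_iff] at hV
  obtain ⟨hV1, hV2, hV3, hV4, hV5, hV6, hV7⟩ := hV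
  haveI : Nonempty V := by
    rw [← Fintype.card_pos_iff]; omega
  obtain ⟨⟨⟨⟨⟨⟨F1, F2⟩, F3⟩, F4⟩, F5⟩, F6⟩, F7⟩ := hE _ hV6
  have hP := hPZ V hV1
  have hG := hGS V hV3
  have hN := hNS V hV4
  have hT := hTS V hV5
  have hS := hS1 V hV2
  set nn : ℕ := Fintype.card V with hnn
  have hn0 : (0 : ℝ) < (nn : ℝ) := by
    have : 0 < nn := by omega
    exact_mod_cast this
  have hn5 : (5 : ℝ) ≤ (nn : ℝ) := by exact_mod_cast hV7
  set L : ℝ := Real.log (nn : ℝ) with hLd
  have hexp : Real.exp L = nn := Real.exp_log hn0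
  set Q : ℝ := ((nn - 1)! : ℝ) with hQd
  have hQ : 0 < Q := by positivity
  have hL0 : 0 < L := by linarith
  set M : ℝ := 2 ^ (EE V).card with hM
  have hM0 : 0 < M := by positivity
  -- the bad events
  set f1 : Finset (Sym2 V) → ℝ := fun A => BS (L / nn) A with hf1
  set f2 : Finset (Sym2 V) → ℝ := fun A => BS (4 * L / nn) A with hf2
  set f3 : Finset (Sym2 V) → ℝ := fun A => BS (5 * L / nn) A with hf3
  have hx1 : 0 < L / nn := by positivity
  have hx2 : 0 < 4 * L / nn := by positivity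
  have hx3 : 0 < 5 * L / nn := by positivity
  have b1 : (((EE V).powerset.filter (fun A => th * Q / 4 < f1 A)).card : ℝ) ≤ p / 16 * M := by
    apply card_bound f1 (fun A _ => BS_nonneg A _ hx1.le) _ _ (by positivity)
    rw [hf1, av_BS]
    refine (hS (L / nn / 2) (le_of_eq (by field_simp)) ?_).trans ?_
    · rw [div_div, div_le_div_iff₀ (by positivity) hn0]
      nlinarith
    · have h1 : (nn : ℝ) * (L / nn / 2) ^ 2 * Real.exp ((nn : ℝ) * (L / nn / 2) / 2)
          = 1 / 4 * (L ^ 2 * Real.exp (-(3 / 4 * L))) := by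
        have h2 : (nn : ℝ) * (L / nn / 2) / 2 = L / 4 := by field_simp; ring
        have h3 : Real.exp (-(3 / 4 * L)) = Real.exp (L / 4) / nn := by
          rw [← hexp, ← Real.exp_sub]; congr 1; ring
        rw [h2, h3]
        field_simp
        ring
      rw [h1]
      have h4 : C / th * (L ^ 2 * Real.exp (-(3 / 4 * L))) ≤ p / 16 := F1
      have h5 := mul_le_mul_of_nonneg_right h4 (show 0 ≤ th * Q / 4 by positivity)
      refine le_trans (le_of_eq ?_) h5
      field_simp
  have b2 : (((EE V).powerset.filter (fun A => th * L ^ 3 * Q / 4 < f2 A)).card : ℝ)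
      ≤ p / 16 * M := by
    apply card_bound f2 (fun A _ => BS_nonneg A _ hx2.le) _ _ (by positivity)
    rw [hf2, av_BS]
    refine (hS (4 * L / nn / 2) ?_ ?_).trans ?_
    · rw [div_div, div_le_div_iff₀ (by positivity) (by positivity)]
      nlinarith [mul_pos hL0 hn0]
    · rw [div_div, div_le_div_iff₀ (by positivity) hn0]
      nlinarith [mul_pos hL0 hn0]
    · have h1 : (nn : ℝ) * (4 * L / nn / 2) ^ 2 * Real.exp ((nn : ℝ) * (4 * L / nn / 2) / 2)
          = 4 * L ^ 2 := by
        have h2 : (nn : ℝ) * (4 * L / nn / 2) / 2 = L := by field_simp; ring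
        rw [h2, hexp]
        field_simp
        ring
      rw [h1]
      have h4 : 16 * C / (th * (p / 16)) ≤ L := F2
      rw [div_le_iff₀ (by positivity)] at h4
      have h5 : C * (4 * L ^ 2) * Q = (16 * C) * (L ^ 2 * Q / 4) := by ring
      rw [h5]
      refine (mul_le_mul_of_nonneg_right h4 (by positivity)).trans (le_of_eq ?_)
      ring
  have b3 : (((EE V).powerset.filter (fun A => Q * (nn : ℝ) ^ 2 / 8 < f3 A)).card : ℝ)
      ≤ p / 16 * M := by
    apply card_bound f3 (fun A _ => BS_nonneg A _ hx3.le) _ _ (by positivity)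
    rw [hf3, av_BS]
    refine (hS (5 * L / nn / 2) ?_ ?_).trans ?_
    · rw [div_div, div_le_div_iff₀ (by positivity) (by positivity)]
      nlinarith [mul_pos hL0 hn0]
    · apply le_of_eq
      field_simp
    · have h1 : (nn : ℝ) * (5 * L / nn / 2) ^ 2 * Real.exp ((nn : ℝ) * (5 * L / nn / 2) / 2)
          = 25 / 4 * (L ^ 2 * Real.exp (-(7 / 4 * L))) * nn ^ 2 := by
        have h2 : (nn : ℝ) * (5 * L / nn / 2) / 2 = 5 / 4 * L := by field_simp; ring
        have h3 : Real.exp (-(7 / 4 * L)) = Real.exp (5 / 4 * L) / (nn * nn * nn) := by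
          rw [← hexp, ← Real.exp_add, ← Real.exp_add, ← Real.exp_sub]; congr 1; ring
        rw [h2, h3]
        field_simp
        ring
      rw [h1]
      have h4 : 50 * C * (L ^ 2 * Real.exp (-(7 / 4 * L))) ≤ p / 16 := F3
      have h5 := mul_le_mul_of_nonneg_right h4 (show 0 ≤ Q * (nn : ℝ) ^ 2 / 8 by positivity)
      refine le_trans (le_of_eq ?_) h5
      ring
  have hl : (0 : ℝ) < 1 + 7 / 2 * L / nn := by positivity
  have hl3 : (0 : ℝ) < 1 + 5 * L / nn := by positivity
  have b4 : (((EE V).powerset.filter (fun A => (1 : ℝ) / 16 < Yg (1 + 7 / 2 * L / nn) A)).card : ℝ)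
      ≤ p / 16 * M := by
    apply card_bound (fun A => Yg (1 + 7 / 2 * L / nn) A) (fun A _ => Yg_nonneg _ hl A) _ _
      (by norm_num)
    have h1 := av_weighted (V := V) (fun s => ¬ small s ∧ s ≠ ⊤) ww (1 + 7 / 2 * L / nn)
    have h2 : av (fun A : Finset (Sym2 V) => Yg (1 + 7 / 2 * L / nn) A) =
      ∑ s ∈ univ.filter (fun s : Setoid V => ¬ small s ∧ s ≠ ⊤),
        ww s * ((1 + (1 + 7 / 2 * L / nn)⁻¹) / 2) ^ (EE V \ inn s).card := h1
    rw [h2]
    linarith
  have b5 : (((EE V).powerset.filter (fun A => (1 : ℝ) / 16 < Y2 (1 + 7 / 2 * L / nn) A)).card : ℝ)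
      ≤ p / 16 * M := by
    apply card_bound (fun A => Y2 (1 + 7 / 2 * L / nn) A) _ _ _ (by norm_num)
    · have h1 := av_weighted (V := V) (fun s => small s ∧ kk s = 2) (fun _ => 1)
        (1 + 7 / 2 * L / nn)
      simp only [one_mul] at h1
      have h2 : av (fun A : Finset (Sym2 V) => Y2 (1 + 7 / 2 * L / nn) A) =
        ∑ s ∈ univ.filter (fun s : Setoid V => small s ∧ kk s = 2),
          ((1 + (1 + 7 / 2 * L / nn)⁻¹) / 2) ^ (EE V \ inn s).card := h1
      rw [h2]
      linarith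
    · intro A _
      unfold Y2
      apply sum_nonneg
      intro s _
      positivity
  have b6 : (((EE V).powerset.filter (fun A => (1 : ℝ) / 16 < Nb (1 + 5 * L / nn) A)).card : ℝ)
      ≤ p / 16 * M := by
    apply card_bound (fun A => Nb (1 + 5 * L / nn) A) _ _ _ (by norm_num)
    · have h1 := av_weighted (V := V) (fun s => small s) ww (1 + 5 * L / nn)
      have h2 : av (fun A : Finset (Sym2 V) => Nb (1 + 5 * L / nn) A) =
        ∑ s ∈ univ.filter (fun s : Setoid V => small s),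
          ww s * ((1 + (1 + 5 * L / nn)⁻¹) / 2) ^ (EE V \ inn s).card := h1
      rw [h2]
      linarith
    · intro A _
      unfold Nb
      apply sum_nonneg
      intro s _
      have := (ww_pos s).le
      positivity
  have hE2 : (((EE V).card : ℕ) : ℝ) = nn * (nn - 1) / 2 := by
    rw [card_EE, ← hnn, Nat.cast_choose_two]
  have b7 : (((EE V).powerset.filter (fun A : Finset (Sym2 V) =>
      (nn : ℝ) ^ 3 < (2 * (A.card : ℝ) - (EE V).card) ^ 2)).card : ℝ) ≤ p / 16 * M := by
    apply card_bound (fun A : Finset (Sym2 V) => (2 * (A.card : ℝ) - (EE V).card) ^ 2)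
      (fun A _ => sq_nonneg _) _ _ (by positivity)
    rw [av_dev, hE2]
    have h1 : 1 * (L ^ 0 * Real.exp (-(1 * L))) ≤ p / 16 := F6
    have h2 : Real.exp (-(1 * L)) = 1 / nn := by
      rw [one_mul, Real.exp_neg, hexp]; simp
    rw [h2] at h1
    simp only [pow_zero, one_mul] at h1
    have h3 := mul_le_mul_of_nonneg_right h1 (show 0 ≤ (nn : ℝ) ^ 3 by positivity)
    refine le_trans ?_ h3
    have h4 : 1 / (nn : ℝ) * (nn : ℝ) ^ 3 = (nn : ℝ) ^ 2 := by field_simp
    rw [h4]
    nlinarith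
  -- the union
  set G := (EE V).powerset.filter (fun A => Even (A.card + nn + 1) ∧
        th * Q ≤ cc (⊥ : Setoid V) (sg A) ∧
        th * (nn : ℝ) ^ 3 * Q ≤ S3 A) with hGd
  set T := (EE V).powerset.filter (fun A => comp A = ⊤ ∧ ∀ x : ℝ, 0 ≤ x → 0 < cx A x) with hTd
  have hsub : G ⊆ T ∪ ((EE V).powerset.filter (fun A => th * Q / 4 < f1 A) ∪
      ((EE V).powerset.filter (fun A => th * L ^ 3 * Q / 4 < f2 A) ∪
      ((EE V).powerset.filter (fun A => Q * (nn : ℝ) ^ 2 / 8 < f3 A) ∪
      ((EE V).powerset.filter (fun A => (1 : ℝ) / 16 < Yg (1 + 7 / 2 * L / nn) A) ∪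
      ((EE V).powerset.filter (fun A => (1 : ℝ) / 16 < Y2 (1 + 7 / 2 * L / nn) A) ∪
      ((EE V).powerset.filter (fun A => (1 : ℝ) / 16 < Nb (1 + 5 * L / nn) A) ∪
      ((EE V).powerset.filter (fun A : Finset (Sym2 V) =>
        (nn : ℝ) ^ 3 < (2 * (A.card : ℝ) - (EE V).card) ^ 2)))))))) := by
    intro A hA
    rw [hGd, mem_filter] at hA
    obtain ⟨hA0, hA1, hA2, hA3⟩ := hA
    have hAE := mem_powerset.1 hA0
    by_contra hcon
    simp only [mem_union, mem_filter, not_or, not_and, not_lt] at hcon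
    obtain ⟨c0, c1, c2, c3, c4, c5, c6, c7⟩ := hcon
    have c1 := c1 hA0
    have c2 := c2 hA0
    have c3 := c3 hA0
    have c4 := c4 hA0
    have c5 := c5 hA0
    have c6 := c6 hA0
    have c7 := c7 hA0
    apply c0
    rw [hTd, mem_filter]
    refine ⟨hA0, comp_top_of A hAE (7 / 2 * L / nn) (by positivity) c4 c5, ?_⟩
    intro x hx
    rw [hE2] at c7
    have hlow := Num.pow_lower nn (by omega) A.card c7 F4
    have hup := Num.pow_upper nn (by omega) A.card th hth c7 F5
    have hn1 : (nn : ℝ) * (L / nn) = L := by field_simp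
    apply cx_pos (by omega) A hAE hA1 th Q (L / nn) (7 / 2 * L / nn) (4 * L / nn) (5 * L / nn)
      hth hQ hx1
    · apply div_le_div_of_nonneg_right _ hn0.le; linarith
    · apply div_le_div_of_nonneg_right _ hn0.le; linarith
    · apply div_le_div_of_nonneg_right _ hn0.le; linarith
    · rw [hn1]; exact F7
    · exact hA2
    · exact hA3
    · exact c1
    · rw [hn1]; exact c2
    · refine c3.trans ?_
      apply div_le_div_of_nonneg_right hlow (by norm_num)
    · exact c4
    · exact c5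
    · exact c6
    · exact hup
    · exact hx
  have hcard := card_le_card hsub
  have hU : ∀ X Y : Finset (Finset (Sym2 V)), ((X ∪ Y).card : ℝ) ≤ X.card + Y.card := by
    intro X Y
    exact_mod_cast card_union_le X Y
  have hcard' : (G.card : ℝ) ≤ T.card + 7 * (p / 16 * M) := by
    have h0 : (G.card : ℝ) ≤ ((T ∪ ((EE V).powerset.filter (fun A => th * Q / 4 < f1 A) ∪
      ((EE V).powerset.filter (fun A => th * L ^ 3 * Q / 4 < f2 A) ∪
      ((EE V).powerset.filter (fun A => Q * (nn : ℝ) ^ 2 / 8 < f3 A) ∪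
      ((EE V).powerset.filter (fun A => (1 : ℝ) / 16 < Yg (1 + 7 / 2 * L / nn) A) ∪
      ((EE V).powerset.filter (fun A => (1 : ℝ) / 16 < Y2 (1 + 7 / 2 * L / nn) A) ∪
      ((EE V).powerset.filter (fun A => (1 : ℝ) / 16 < Nb (1 + 5 * L / nn) A) ∪
      ((EE V).powerset.filter (fun A : Finset (Sym2 V) =>
        (nn : ℝ) ^ 3 < (2 * (A.card : ℝ) - (EE V).card) ^ 2)))))))) ).card : ℝ) := by
      exact_mod_cast hcard
    refine h0.trans ?_
    refine (hU _ _).trans ?_
    have k6 := (hU ((EE V).powerset.filter (fun A => (1 : ℝ) / 16 < Nb (1 + 5 * L / nn) A))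
      ((EE V).powerset.filter (fun A : Finset (Sym2 V) =>
        (nn : ℝ) ^ 3 < (2 * (A.card : ℝ) - (EE V).card) ^ 2)))
    have k5 := (hU ((EE V).powerset.filter
      (fun A => (1 : ℝ) / 16 < Y2 (1 + 7 / 2 * L / nn) A)) _).trans (add_le_add le_rfl k6)
    have k4 := (hU ((EE V).powerset.filter
      (fun A => (1 : ℝ) / 16 < Yg (1 + 7 / 2 * L / nn) A)) _).trans (add_le_add le_rfl k5)
    have k3 := (hU ((EE V).powerset.filter
      (fun A => Q * (nn : ℝ) ^ 2 / 8 < f3 A)) _).trans (add_le_add le_rfl k4)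
    have k2 := (hU ((EE V).powerset.filter
      (fun A => th * L ^ 3 * Q / 4 < f2 A)) _).trans (add_le_add le_rfl k3)
    have k1 := (hU ((EE V).powerset.filter
      (fun A => th * Q / 4 < f1 A)) _).trans (add_le_add le_rfl k2)
    linarith
  have hfin : p * M ≤ (G.card : ℝ) := hP
  nlinarith [mul_pos hp hM0]

end

end Pool.Agent.R88.RR
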